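import Mathlib

/-!
# Semialgebraic sets given by formulas, closedness, and the class `∀ℝ`

* polynomial expressions with integer coefficients and quantifier-free formulas, with their
  semantics over the reals and their encoding by words;
* decision problems, polynomial-time many-one reductions (with Mathlib's
  `Turing.TM2ComputableInPolyTime`);
* `universalTheory`: deciding truth of sentences `∀ x₁ … ∀ xₙ, φ`; `InForallR`: the class `∀ℝ`;
* `closedProblem`: deciding whether the set defined by a quantifier-free formula is closed.
-/

namespace Pool.Agent.Helper53_Closed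

/-! ### Decision problems -/

/-- A decision problem: a type of instances, an injective encoding of the instances by words over
a finite alphabet, and the set of yes-instances. -/
structure DecisionProblem where
  /-- the instances -/
  Inst : Type
  /-- the alphabet used to write instances down -/
  Alph : Type
  /-- the alphabet is finite -/
  alphFintype : Fintype Alph
  /-- the word encoding an instance -/
  enc : Inst → List Alph
  /-- different instances have different encodings -/
  enc_injective : Function.Injective enc
  /-- the yes-instances -/
  Yes : Inst → Prop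

/-- Polynomial-time many-one reducibility. -/
def PolyReduces (P Q : DecisionProblem) : Prop :=
  ∃ f : P.Inst → Q.Inst, Nonempty (Turing.TM2ComputableInPolyTime P.enc Q.enc f) ∧
    ∀ x, P.Yes x ↔ Q.Yes (f x)

/-! ### Terms and formulas -/

/-- Polynomial expressions in the variables `x₀, …, xₙ₋₁`, built from variables and integer
constants by addition and multiplication. -/
inductive Term (n : ℕ)
  | var (i : Fin n)
  | const (c : ℤ)
  | add (s t : Term n)
  | mul (s t : Term n)

/-- the value of a polynomial expression at a point -/
def Term.eval {n : ℕ} (x : Fin n → ℝ) : Term n → ℝ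
  | .var i => x i
  | .const c => (c : ℝ)
  | .add s t => s.eval x + t.eval x
  | .mul s t => s.eval x * t.eval x

/-- the three kinds of atoms: `f = 0`, `f > 0`, `f ≥ 0` -/
inductive Rel
  | eq | gt | ge

/-- the relation holds for the number `a` -/
def Rel.Holds : Rel → ℝ → Prop
  | .eq, a => a = 0
  | .gt, a => a > 0
  | .ge, a => a ≥ 0

/-- Quantifier-free formulas: Boolean combinations of atoms `f = 0`, `f > 0`, `f ≥ 0`. -/
inductive Formula (n : ℕ)
  | atom (r : Rel) (f : Term n)
  | and (φ ψ : Formula n)
  | or (φ ψ : Formula n)
  | not (φ : Formula n)

/-- the formula holds at the point `x` -/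
def Formula.Holds {n : ℕ} (x : Fin n → ℝ) : Formula n → Prop
  | .atom r f => r.Holds (f.eval x)
  | .and φ ψ => φ.Holds x ∧ ψ.Holds x
  | .or φ ψ => φ.Holds x ∨ ψ.Holds x
  | .not φ => ¬ φ.Holds x

/-- the semialgebraic subset of `ℝⁿ` defined by a formula -/
def Formula.solutionSet {n : ℕ} (φ : Formula n) : Set (Fin n → ℝ) := {x | φ.Holds x}

/-! ### Encodings -/

/-- the letters used to write formulas down -/
inductive Sym
  | var | const | plus | minus | zero | one | tick | stop
  | add | mul
  | eq | gt | ge | fin
  | and | or | not
  deriving DecidableEq

instance : Fintype Sym :=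
  ⟨{.var, .const, .plus, .minus, .zero, .one, .tick, .stop, .add, .mul, .eq, .gt, .ge, .fin,
    .and, .or, .not}, by intro x; cases x <;> decide⟩

/-- binary digits of a natural number, least significant first -/
def bitWord (m : ℕ) : List Sym := (Nat.digits 2 m).map (fun d => if d = 0 then .zero else .one)

/-- Terms are written in prefix notation; the index of a variable is written in unary, integer
constants are written with their sign and in binary. -/
def Term.enc {n : ℕ} : Term n → List Sym
  | .var i => .var :: (List.replicate i.val .tick ++ [.stop])
  | .const c => .const :: (if c < 0 then .minus else .plus) :: (bitWord c.natAbs ++ [.stop])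
  | .add s t => .add :: (s.enc ++ t.enc)
  | .mul s t => .mul :: (s.enc ++ t.enc)

/-- the letter for a relation -/
def Rel.sym : Rel → Sym
  | .eq => .eq
  | .gt => .gt
  | .ge => .ge

/-- Formulas are written in prefix notation; the end of each atom is marked. -/
def Formula.enc {n : ℕ} : Formula n → List Sym
  | .atom r f => r.sym :: (f.enc ++ [.fin])
  | .and φ ψ => .and :: (φ.enc ++ ψ.enc)
  | .or φ ψ => .or :: (φ.enc ++ ψ.enc)
  | .not φ => .not :: φ.enc

/-- A formula together with its number of variables is written as the number of variables in
unary, followed by the formula. -/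
def encInst (x : Σ n : ℕ, Formula n) : List Sym :=
  List.replicate x.1 .tick ++ .stop :: x.2.enc

/-! ### Injectivity of the encodings -/

theorem stop_inj : ∀ (u u' w w' : List Sym), .stop ∉ u → .stop ∉ u' →
    u ++ .stop :: w = u' ++ .stop :: w' → u = u' ∧ w = w'
  | [], [], w, w', _, _, h => by simpa using h
  | [], c :: u', w, w', _, h2, h => by
    simp only [List.nil_append, List.cons_append, List.cons.injEq] at h
    exact absurd (by rw [h.1]; exact List.mem_cons_self) h2
  | c :: u, [], w, w', h1, _, h => by
    simp only [List.nil_append, List.cons_append, List.cons.injEq] at h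
    exact absurd (by rw [← h.1]; exact List.mem_cons_self) h1
  | c :: u, c' :: u', w, w', h1, h2, h => by
    simp only [List.cons_append, List.cons.injEq] at h
    obtain ⟨rfl, h⟩ := h
    obtain ⟨rfl, rfl⟩ := stop_inj u u' w w' (fun h => h1 (List.mem_cons_of_mem _ h))
      (fun h => h2 (List.mem_cons_of_mem _ h)) h
    exact ⟨rfl, rfl⟩

theorem stop_notMem_ticks (n : ℕ) : Sym.stop ∉ List.replicate n Sym.tick := by
  intro h
  have := List.eq_of_mem_replicate h
  cases this

theorem stop_notMem_bits (m : ℕ) : Sym.stop ∉ bitWord m := by
  unfold bitWord
  intro h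
  obtain ⟨d, _, hd⟩ := List.mem_map.1 h
  split_ifs at hd

theorem bitWord_inj {m m' : ℕ} (h : bitWord m = bitWord m') : m = m' := by
  unfold bitWord at h
  have key : ∀ l l' : List ℕ, (∀ d ∈ l, d < 2) → (∀ d ∈ l', d < 2) →
      l.map (fun d => if d = 0 then Sym.zero else Sym.one) =
        l'.map (fun d => if d = 0 then Sym.zero else Sym.one) → l = l' := by
    intro l
    induction l with
    | nil =>
      intro l' _ _ h
      cases l' with
      | nil => rfl
      | cons d l' => simp at h
    | cons c l ih =>
      intro l' h1 h2 h
      cases l' with
      | nil => simp at h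
      | cons d l' =>
        simp only [List.map_cons, List.cons.injEq] at h
        have hc := h1 c List.mem_cons_self
        have hd := h2 d List.mem_cons_self
        have e : c = d := by
          have := h.1
          split_ifs at this <;> omega
        rw [e, ih l' (fun x hx => h1 x (List.mem_cons_of_mem _ hx))
          (fun x hx => h2 x (List.mem_cons_of_mem _ hx)) h.2]
  have h3 := key _ _ (fun d hd => Nat.digits_lt_base (by norm_num) hd)
    (fun d hd => Nat.digits_lt_base (by norm_num) hd) h
  have h4 := congrArg (Nat.ofDigits 2) h3
  rwa [Nat.ofDigits_digits, Nat.ofDigits_digits] at h4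

theorem Term.enc_append_inj {n : ℕ} : ∀ (s t : Term n) (w w' : List Sym),
    s.enc ++ w = t.enc ++ w' → s = t ∧ w = w' := by
  intro s
  induction s with
  | var i =>
    intro t w w' h
    cases t with
    | var j =>
      simp only [Term.enc, List.cons_append, List.cons.injEq, true_and, List.append_assoc,
        List.nil_append] at h
      obtain ⟨h1, h2⟩ := stop_inj _ _ _ _ (stop_notMem_ticks _) (stop_notMem_ticks _) h
      have h3 := congrArg List.length h1
      rw [List.length_replicate, List.length_replicate] at h3
      exact ⟨by rw [Fin.ext h3], h2⟩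
    | const c => simp [Term.enc] at h
    | add s t => simp [Term.enc] at h
    | mul s t => simp [Term.enc] at h
  | const c =>
    intro t w w' h
    cases t with
    | var j => simp [Term.enc] at h
    | const d =>
      simp only [Term.enc, List.cons_append, List.cons.injEq, true_and, List.append_assoc,
        List.nil_append] at h
      obtain ⟨h0, h⟩ := h
      obtain ⟨h1, h2⟩ := stop_inj _ _ _ _ (stop_notMem_bits _) (stop_notMem_bits _) h
      have h3 := bitWord_inj h1
      have h4 : c = d := by
        split_ifs at h0 <;> omega
      exact ⟨by rw [h4], h2⟩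
    | add s t => simp [Term.enc] at h
    | mul s t => simp [Term.enc] at h
  | add s s' ih ih' =>
    intro t w w' h
    cases t with
    | var j => simp [Term.enc] at h
    | const c => simp [Term.enc] at h
    | add t t' =>
      simp only [Term.enc, List.cons_append, List.cons.injEq, true_and, List.append_assoc] at h
      obtain ⟨h1, h2⟩ := ih _ _ _ h
      obtain ⟨h3, h4⟩ := ih' _ _ _ h2
      exact ⟨by rw [h1, h3], h4⟩
    | mul t t' => simp [Term.enc] at h
  | mul s s' ih ih' =>
    intro t w w' h
    cases t with
    | var j => simp [Term.enc] at h
    | const c => simp [Term.enc] at h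
    | add t t' => simp [Term.enc] at h
    | mul t t' =>
      simp only [Term.enc, List.cons_append, List.cons.injEq, true_and, List.append_assoc] at h
      obtain ⟨h1, h2⟩ := ih _ _ _ h
      obtain ⟨h3, h4⟩ := ih' _ _ _ h2
      exact ⟨by rw [h1, h3], h4⟩

theorem Rel.sym_inj {r r' : Rel} (h : r.sym = r'.sym) : r = r' := by
  cases r <;> cases r' <;> first | rfl | (simp [Rel.sym] at h)

theorem Formula.enc_append_inj {n : ℕ} : ∀ (φ ψ : Formula n) (w w' : List Sym),
    φ.enc ++ w = ψ.enc ++ w' → φ = ψ ∧ w = w' := by
  intro φ
  induction φ with
  | atom r f =>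
    intro ψ w w' h
    cases ψ with
    | atom r' f' =>
      simp only [Formula.enc, List.cons_append, List.cons.injEq, List.append_assoc] at h
      obtain ⟨h0, h⟩ := h
      obtain ⟨h1, h2⟩ := Term.enc_append_inj _ _ _ _ h
      rw [Rel.sym_inj h0, h1]
      simp only [List.nil_append, List.cons.injEq, true_and] at h2
      exact ⟨rfl, h2⟩
    | and φ ψ => cases r <;> simp [Formula.enc, Rel.sym] at h
    | or φ ψ => cases r <;> simp [Formula.enc, Rel.sym] at h
    | not φ => cases r <;> simp [Formula.enc, Rel.sym] at h
  | and φ φ' ih ih' =>
    intro ψ w w' h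
    cases ψ with
    | atom r f => cases r <;> simp [Formula.enc, Rel.sym] at h
    | and ψ ψ' =>
      simp only [Formula.enc, List.cons_append, List.cons.injEq, true_and, List.append_assoc] at h
      obtain ⟨h1, h2⟩ := ih _ _ _ h
      obtain ⟨h3, h4⟩ := ih' _ _ _ h2
      exact ⟨by rw [h1, h3], h4⟩
    | or φ ψ => simp [Formula.enc] at h
    | not φ => simp [Formula.enc] at h
  | or φ φ' ih ih' =>
    intro ψ w w' h
    cases ψ with
    | atom r f => cases r <;> simp [Formula.enc, Rel.sym] at h
    | and φ ψ => simp [Formula.enc] at h
    | or ψ ψ' =>
      simp only [Formula.enc, List.cons_append, List.cons.injEq, true_and, List.append_assoc] at h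
      obtain ⟨h1, h2⟩ := ih _ _ _ h
      obtain ⟨h3, h4⟩ := ih' _ _ _ h2
      exact ⟨by rw [h1, h3], h4⟩
    | not φ => simp [Formula.enc] at h
  | not φ ih =>
    intro ψ w w' h
    cases ψ with
    | atom r f => cases r <;> simp [Formula.enc, Rel.sym] at h
    | and φ ψ => simp [Formula.enc] at h
    | or φ ψ => simp [Formula.enc] at h
    | not ψ =>
      simp only [Formula.enc, List.cons_append, List.cons.injEq, true_and] at h
      obtain ⟨h1, h2⟩ := ih _ _ _ h
      exact ⟨by rw [h1], h2⟩

theorem encInst_injective : Function.Injective encInst := by
  rintro ⟨n, φ⟩ ⟨m, ψ⟩ h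
  unfold encInst at h
  obtain ⟨h1, h2⟩ := stop_inj _ _ _ _ (stop_notMem_ticks _) (stop_notMem_ticks _) h
  have h3 := congrArg List.length h1
  rw [List.length_replicate, List.length_replicate] at h3
  change n = m at h3
  subst h3
  have h4 : φ.enc ++ [] = ψ.enc ++ [] := by
    rw [List.append_nil, List.append_nil]
    exact h2
  rw [(Formula.enc_append_inj φ ψ [] [] h4).1]

/-! ### The problems -/

/-- The universal theory of the reals: given a quantifier-free formula `φ` in `n` variables, does
`φ` hold for all `x ∈ ℝⁿ`? -/
def universalTheory : DecisionProblem where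
  Inst := Σ n : ℕ, Formula n
  Alph := Sym
  alphFintype := inferInstance
  enc := encInst
  enc_injective := encInst_injective
  Yes := fun x => ∀ a : Fin x.1 → ℝ, x.2.Holds a

/-- The class `∀ℝ`: the problems which reduce in polynomial time to the universal theory of the
reals. -/
def InForallR (P : DecisionProblem) : Prop := PolyReduces P universalTheory

/-- **CLOSED**: given a quantifier-free formula `φ` in `n` variables, is the semialgebraic set
`{x ∈ ℝⁿ : φ(x)}` closed? -/
def closedProblem : DecisionProblem where
  Inst := Σ n : ℕ, Formula n
  Alph := Sym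
  alphFintype := inferInstance
  enc := encInst
  enc_injective := encInst_injective
  Yes := fun x => IsClosed x.2.solutionSet

end Pool.Agent.Helper53_Closed
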