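import Pool.Agent.Helper53_Closed.Semantic

/-!
# Explicit constants
-/

namespace Pool.Agent.Helper53_Closed

theorem HB_le {N L s : ℕ} (hN : N ≤ s) (hL : L ≤ 2 ^ s) : HB N L ≤ 2 ^ 2 ^ (5 * s + 6) := by
  unfold HB hgt
  have hs : s < 2 ^ s := Nat.lt_two_pow_self
  have h5 : 5 ^ N ≤ 5 ^ s := Nat.pow_le_pow_right (by norm_num) hN
  have h58 : 5 ^ s ≤ 2 ^ (3 * s) := by
    calc 5 ^ s ≤ 8 ^ s := Nat.pow_le_pow_left (by norm_num) s
      _ = 2 ^ (3 * s) := by rw [pow_mul]; norm_num
  have h1 : (5 ^ N).factorial ≤ 2 ^ (3 * s * 5 ^ s) := by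
    calc (5 ^ N).factorial ≤ (5 ^ N) ^ (5 ^ N) := Nat.factorial_le_pow _
      _ ≤ (2 ^ (3 * s)) ^ (5 ^ N) := Nat.pow_le_pow_left (h5.trans h58) _
      _ ≤ (2 ^ (3 * s)) ^ (5 ^ s) := Nat.pow_le_pow_right (by positivity) h5
      _ = 2 ^ (3 * s * 5 ^ s) := by rw [← pow_mul]
  have h2 : 6 + 4 * N ≤ 2 ^ (s + 3) := by
    have : 2 ^ (s + 3) = 8 * 2 ^ s := by rw [pow_add]; ring
    omega
  have h3 : 4 * L + 1 ≤ 2 ^ (s + 3) := by
    have : 2 ^ (s + 3) = 8 * 2 ^ s := by rw [pow_add]; ring
    have : 1 ≤ 2 ^ s := Nat.one_le_two_pow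
    omega
  have h4 : (6 + 4 * N) * L * (4 * L + 1) ^ (4 * N + 5) ≤
      2 ^ (s + 3 + s + (s + 3) * (4 * s + 5)) := by
    calc (6 + 4 * N) * L * (4 * L + 1) ^ (4 * N + 5) ≤
          2 ^ (s + 3) * 2 ^ s * (2 ^ (s + 3)) ^ (4 * s + 5) := by
          refine Nat.mul_le_mul (Nat.mul_le_mul h2 hL) ?_
          calc (4 * L + 1) ^ (4 * N + 5) ≤ (2 ^ (s + 3)) ^ (4 * N + 5) :=
                Nat.pow_le_pow_left h3 _
            _ ≤ _ := Nat.pow_le_pow_right (by positivity) (by omega)
      _ = _ := by rw [← pow_mul, ← pow_add, ← pow_add]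
  have h6 : 1 + (6 + 4 * N) * L * (4 * L + 1) ^ (4 * N + 5) ≤
      2 ^ (4 * s * s + 19 * s + 19) := by
    have : 2 ^ (4 * s * s + 19 * s + 19) = 2 * 2 ^ (s + 3 + s + (s + 3) * (4 * s + 5)) := by
      rw [← pow_succ']
      congr 1
      ring
    have : 1 ≤ 2 ^ (s + 3 + s + (s + 3) * (4 * s + 5)) := Nat.one_le_two_pow
    omega
  have h7 : (1 + (6 + 4 * N) * L * (4 * L + 1) ^ (4 * N + 5)) ^ (5 ^ N) ≤
      2 ^ ((4 * s * s + 19 * s + 19) * 5 ^ s) := by
    calc _ ≤ (2 ^ (4 * s * s + 19 * s + 19)) ^ (5 ^ N) := Nat.pow_le_pow_left h6 _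
      _ ≤ (2 ^ (4 * s * s + 19 * s + 19)) ^ (5 ^ s) := Nat.pow_le_pow_right (by positivity) h5
      _ = _ := by rw [← pow_mul]
  refine (Nat.mul_le_mul h1 h7).trans ?_
  rw [← pow_add]
  refine Nat.pow_le_pow_right (by norm_num) ?_
  have h8 : 3 * s * 5 ^ s + (4 * s * s + 19 * s + 19) * 5 ^ s =
      (4 * s * s + 22 * s + 19) * 5 ^ s := by ring
  rw [h8]
  have h9 : 4 * s * s + 22 * s + 19 ≤ 2 ^ (6 + 2 * s) := by
    have e : 2 ^ (6 + 2 * s) = 64 * (2 ^ s * 2 ^ s) := by
      rw [pow_add, two_mul, pow_add]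
      norm_num
    rw [e]
    have h10 : s * s ≤ 2 ^ s * 2 ^ s := Nat.mul_le_mul hs.le hs.le
    have h11 : s ≤ 2 ^ s * 2 ^ s := hs.le.trans (Nat.le_mul_of_pos_left _ (by positivity))
    have h12 : 1 ≤ 2 ^ s * 2 ^ s := Nat.one_le_iff_ne_zero.2 (by positivity)
    nlinarith
  calc (4 * s * s + 22 * s + 19) * 5 ^ s ≤ 2 ^ (6 + 2 * s) * 2 ^ (3 * s) :=
        Nat.mul_le_mul h9 h58
    _ = 2 ^ (5 * s + 6) := by
        rw [← pow_add]
        congr 1
        ring

variable {n : ℕ}

/-! ### Lengths -/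

theorem Term.subs_length (t : Term n) : t.subs.length ≤ t.enc.length := by
  induction t with
  | var i => simp [Term.subs, Term.enc]
  | const c => simp [Term.subs, Term.enc]
  | add s t ih1 ih2 =>
    simp only [Term.subs, Term.enc, List.length_cons, List.length_append]
    omega
  | mul s t ih1 ih2 =>
    simp only [Term.subs, Term.enc, List.length_cons, List.length_append]
    omega

theorem Term.const_bound (t : Term n) : ∀ c : ℤ, Term.const c ∈ t.subs →
    c.natAbs < 2 ^ t.enc.length := by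
  induction t with
  | var i =>
    intro c h
    simp [Term.subs] at h
  | const d =>
    intro c h
    simp only [Term.subs, List.mem_singleton, Term.const.injEq] at h
    subst h
    have h1 : c.natAbs < 2 ^ (Nat.digits 2 c.natAbs).length :=
      Nat.lt_base_pow_length_digits (by norm_num)
    refine lt_of_lt_of_le h1 (Nat.pow_le_pow_right (by norm_num) ?_)
    simp only [Term.enc, bitWord, List.length_cons, List.length_append, List.length_map,
      List.length_nil]
    omega
  | add s t ih1 ih2 =>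
    intro c h
    simp only [Term.subs, List.mem_cons, List.mem_append, reduceCtorEq, false_or] at h
    simp only [Term.enc, List.length_cons, List.length_append]
    rcases h with h | h
    · exact lt_of_lt_of_le (ih1 c h) (Nat.pow_le_pow_right (by norm_num) (by omega))
    · exact lt_of_lt_of_le (ih2 c h) (Nat.pow_le_pow_right (by norm_num) (by omega))
  | mul s t ih1 ih2 =>
    intro c h
    simp only [Term.subs, List.mem_cons, List.mem_append, reduceCtorEq, false_or] at h
    simp only [Term.enc, List.length_cons, List.length_append]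
    rcases h with h | h
    · exact lt_of_lt_of_le (ih1 c h) (Nat.pow_le_pow_right (by norm_num) (by omega))
    · exact lt_of_lt_of_le (ih2 c h) (Nat.pow_le_pow_right (by norm_num) (by omega))

theorem Formula.subs_length (φ : Formula n) :
    (φ.atoms.flatMap Term.subs).length ≤ φ.enc.length := by
  induction φ with
  | atom r f =>
    simp only [Formula.atoms, Formula.enc, List.flatMap_cons, List.flatMap_nil, List.append_nil,
      List.length_cons, List.length_append, List.length_nil]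
    have := f.subs_length
    omega
  | and φ ψ ih1 ih2 =>
    simp only [Formula.atoms, Formula.enc, List.flatMap_append, List.length_cons,
      List.length_append]
    omega
  | or φ ψ ih1 ih2 =>
    simp only [Formula.atoms, Formula.enc, List.flatMap_append, List.length_cons,
      List.length_append]
    omega
  | not φ ih =>
    simp only [Formula.atoms, Formula.enc, List.length_cons]
    omega

theorem Formula.atoms_length (φ : Formula n) : φ.atoms.length ≤ φ.enc.length := by
  induction φ with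
  | atom r f =>
    simp [Formula.atoms, Formula.enc]
  | and φ ψ ih1 ih2 =>
    simp only [Formula.atoms, Formula.enc, List.length_cons, List.length_append]
    omega
  | or φ ψ ih1 ih2 =>
    simp only [Formula.atoms, Formula.enc, List.length_cons, List.length_append]
    omega
  | not φ ih =>
    simp only [Formula.atoms, Formula.enc, List.length_cons]
    omega

theorem Formula.atom_enc_length (φ : Formula n) : ∀ f ∈ φ.atoms,
    f.enc.length ≤ φ.enc.length := by
  induction φ with
  | atom r f =>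
    intro f' hf
    simp only [Formula.atoms, List.mem_singleton] at hf
    subst hf
    simp only [Formula.enc, List.length_cons, List.length_append, List.length_nil]
    omega
  | and φ ψ ih1 ih2 =>
    intro f hf
    simp only [Formula.enc, List.length_cons, List.length_append]
    rcases List.mem_append.1 hf with h | h
    · have := ih1 f h
      omega
    · have := ih2 f h
      omega
  | or φ ψ ih1 ih2 =>
    intro f hf
    simp only [Formula.enc, List.length_cons, List.length_append]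
    rcases List.mem_append.1 hf with h | h
    · have := ih1 f h
      omega
    · have := ih2 f h
      omega
  | not φ ih =>
    intro f hf
    simp only [Formula.enc, List.length_cons]
    have := ih f hf
    omega

theorem Formula.terms_length (φ : Formula n) (l : ℕ) (hl : (encInst ⟨n, φ⟩).length ≤ l) :
    φ.terms.length ≤ l ∧ φ.atoms.length ≤ l ∧ n ≤ l ∧
      ∀ c : ℤ, Term.const c ∈ φ.terms → 1 + c.natAbs ≤ 2 ^ l := by
  have h1 : n + 1 + φ.enc.length ≤ l := by
    simp only [encInst, List.length_append, List.length_replicate, List.length_cons] at hl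
    omega
  have h2 := φ.subs_length
  have h3 := φ.atoms_length
  refine ⟨?_, by omega, by omega, ?_⟩
  · unfold Formula.terms
    rw [List.length_append, List.length_map, List.length_finRange]
    omega
  · intro c hc
    unfold Formula.terms at hc
    rcases List.mem_append.1 hc with h | h
    · obtain ⟨i, _, hi⟩ := List.mem_map.1 h
      cases hi
    · obtain ⟨f, hf, h⟩ := List.mem_flatMap.1 h
      have h4 := f.const_bound c h
      have h5 := φ.atom_enc_length f hf
      have h6 : 2 ^ f.enc.length ≤ 2 ^ l := Nat.pow_le_pow_right (by norm_num) (by omega)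
      omega

/-! ### Lengths of systems -/

/-- total squared size of a list of equations -/
def esum {ι : Type} (E : List (Eqn ι)) : ℕ := (E.map (fun e => e.size ^ 2)).sum

theorem esum_append {ι : Type} (E E' : List (Eqn ι)) : esum (E ++ E') = esum E + esum E' := by
  simp [esum]

theorem esum_flatMap {ι α : Type} (l : List α) (f : α → List (Eqn ι)) (B : ℕ)
    (h : ∀ a ∈ l, esum (f a) ≤ B) : esum (l.flatMap f) ≤ l.length * B := by
  induction l with
  | nil => simp [esum]
  | cons a l ih =>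
    rw [List.flatMap_cons, esum_append, List.length_cons, Nat.add_mul, Nat.one_mul, Nat.add_comm]
    exact Nat.add_le_add (ih (fun a ha => h a (List.mem_cons_of_mem _ ha)))
      (h a List.mem_cons_self)

theorem esum_termEqs (φ : Formula n) (K l : ℕ) (k : Nm)
    (h : ∀ c : ℤ, Term.const c ∈ φ.terms → 1 + c.natAbs ≤ 2 ^ l) :
    esum (termEqs φ K k) ≤ φ.terms.length * (9 * 2 ^ (2 * l)) := by
  have h1 : 1 ≤ 2 ^ (2 * l) := Nat.one_le_two_pow
  refine esum_flatMap _ _ _ (fun t ht => ?_)
  cases t with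
  | var i => simp [esum]
  | const c =>
    have h2 := h c ht
    simp only [esum, List.map_cons, List.map_nil, List.sum_cons, List.sum_nil, Nat.add_zero,
      Eqn.size]
    calc (1 + c.natAbs) ^ 2 ≤ (2 ^ l) ^ 2 := Nat.pow_le_pow_left h2 2
      _ = 2 ^ (2 * l) := by rw [← pow_mul, mul_comm]
      _ ≤ _ := by omega
  | add s u =>
    simp only [esum, List.map_cons, List.map_nil, List.sum_cons, List.sum_nil, Nat.add_zero,
      Eqn.size]
    omega
  | mul s u =>
    simp only [esum, List.map_cons, List.map_nil, List.sum_cons, List.sum_nil, Nat.add_zero,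
      Eqn.size]
    omega

theorem esum_signEqs (φ : Formula n) (K : ℕ) (kx ku kr kp : Nm) (τ : Term n → SignType) :
    esum (signEqs φ K kx ku kr kp τ) ≤ φ.atoms.length * 24 := by
  refine esum_flatMap _ _ _ (fun f _ => ?_)
  have h1 : ((τ f : SignType) : ℤ).natAbs ≤ 1 := by
    generalize τ f = s
    rcases s with _ | _ | _ <;> decide
  have h2 : (1 + ((τ f : SignType) : ℤ).natAbs) ^ 2 ≤ 4 := by
    calc _ ≤ 2 ^ 2 := Nat.pow_le_pow_left (by omega) 2
      _ = 4 := rfl
  by_cases h : τ f = 0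
  · rw [if_pos h]
    simp only [esum, List.cons_append, List.nil_append, List.map_cons, List.map_nil,
      List.sum_cons, List.sum_nil, Nat.add_zero, Eqn.size, Int.natAbs_zero]
    omega
  · rw [if_neg h]
    simp only [esum, List.append_nil, List.map_cons, List.map_nil,
      List.sum_cons, List.sum_nil, Nat.add_zero, Eqn.size]
    omega

theorem slen_sys1 (φ : Formula n) (l : ℕ) (hl : (encInst ⟨n, φ⟩).length ≤ l)
    (τ σ : Term n → SignType) : slen (sys1 φ τ σ) (obj1 φ) ≤ 2 ^ (3 * l + 9) := by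
  obtain ⟨h1, h2, h3, h4⟩ := φ.terms_length l hl
  have hT := esum_termEqs φ 0 l .X h4
  have hT' := esum_termEqs φ 0 l .Y h4
  have hS := esum_signEqs φ 0 .X .U .R .P τ
  have hS' := esum_signEqs φ 0 .Y .U' .R' .P' σ
  have hd : esum ((List.finRange n).flatMap fun i =>
      [Eqn.add (vi φ 0 .Y (.var i)) (vi φ 0 .X (.var i)) (vi φ 0 .D (.var i)),
        .mul (vi φ 0 .E (.var i)) (vi φ 0 .D (.var i)) (vi φ 0 .D (.var i)),
        .bmul (vi φ 0 .E (.var i)) (vi φ 0 .H (.var i)),
        .mul (vi φ 0 .Q (.var i)) (vi φ 0 .S (.var i)) (vi φ 0 .S (.var i)),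
        .add (vi φ 0 .O (.var i)) (vi φ 0 .H (.var i)) (vi φ 0 .Q (.var i)),
        .lin (vi φ 0 .O (.var i)) 1]) ≤ (List.finRange n).length * 49 := by
    refine esum_flatMap _ _ _ (fun i _ => ?_)
    simp [esum, Eqn.size]
  rw [List.length_finRange] at hd
  have hJ : (obj1 φ).length = n + φ.atoms.length := by
    simp [obj1]
  show (obj1 φ).length + esum (sys1 φ τ σ) ≤ _
  unfold sys1
  rw [hJ, esum_append, esum_append, esum_append, esum_append]
  have hp : 1 ≤ 2 ^ (2 * l) := Nat.one_le_two_pow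
  have hT1 : φ.terms.length * (9 * 2 ^ (2 * l)) ≤ l * (9 * 2 ^ (2 * l)) :=
    Nat.mul_le_mul_right _ h1
  have hl2 : l < 2 ^ l := Nat.lt_two_pow_self
  have hll : l * 1 ≤ l * 2 ^ (2 * l) := Nat.mul_le_mul_left _ hp
  have hmain : n + φ.atoms.length + (φ.terms.length * (9 * 2 ^ (2 * l)) +
      (φ.terms.length * (9 * 2 ^ (2 * l)) + (φ.atoms.length * 24 + (φ.atoms.length * 24 +
        n * 49)))) ≤ 120 * (l * 2 ^ (2 * l)) := by
    have e : l * (9 * 2 ^ (2 * l)) = 9 * (l * 2 ^ (2 * l)) := by ring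
    rw [e] at hT1
    omega
  have hfin : 120 * (l * 2 ^ (2 * l)) ≤ 2 ^ (3 * l + 9) := by
    calc 120 * (l * 2 ^ (2 * l)) ≤ 512 * (2 ^ l * 2 ^ (2 * l)) :=
          Nat.mul_le_mul (by norm_num) (Nat.mul_le_mul_right _ hl2.le)
      _ = 2 ^ (3 * l + 9) := by
          rw [← pow_add, show 512 = 2 ^ 9 by norm_num, ← pow_add]
          congr 1
          ring
  omega

theorem slen_sys2 (φ : Formula n) (K l : ℕ) (hl : (encInst ⟨n, φ⟩).length ≤ l)
    (τ σ : Term n → SignType) : slen (sys2 φ K τ σ) (obj2 φ K) ≤ 2 ^ (3 * l + K + 9) := by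
  obtain ⟨h1, h2, h3, h4⟩ := φ.terms_length l hl
  have hT := esum_termEqs φ K l .X h4
  have hT' := esum_termEqs φ K l .Y h4
  have hS := esum_signEqs φ K .X .U .R .P τ
  have hS' := esum_signEqs φ K .Y .U' .R' .P' σ
  have hc : esum (chainEqs φ K) ≤ 9 + K * 9 := by
    unfold chainEqs
    have : ∀ (E : List (Eqn (Ix φ K))) e, esum (e :: E) = e.size ^ 2 + esum E := fun E e => by
      simp [esum]
    rw [this]
    refine Nat.add_le_add (by simp [Eqn.size]) ?_
    have : esum ((List.range K).map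
        (fun k => Eqn.mul (wi φ K (k + 1)) (wi φ K k) (wi φ K k))) = K * 9 := by
      simp [esum, Eqn.size, Function.comp_def]
    rw [this]
  have hd : esum ((List.finRange n).flatMap fun i =>
      [Eqn.add (vi φ K .Y (.var i)) (vi φ K .X (.var i)) (vi φ K .D (.var i)),
        .mul (vi φ K .E (.var i)) (vi φ K .X (.var i)) (vi φ K .X (.var i)),
        .mul (vi φ K .Q (.var i)) (vi φ K .S (.var i)) (vi φ K .S (.var i)),
        .add (wi φ K K) (vi φ K .E (.var i)) (vi φ K .Q (.var i))]) ≤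
      (List.finRange n).length * 36 := by
    refine esum_flatMap _ _ _ (fun i _ => ?_)
    simp [esum, Eqn.size]
  rw [List.length_finRange] at hd
  have hm : esum (φ.atoms.flatMap fun f => if τ f = 0 then [] else
        [Eqn.mul (vi φ K .G f) (vi φ K .X f) (vi φ K .X f),
        .mul (vi φ K .H f) (wi φ K K) (vi φ K .G f),
        .mul (vi φ K .Q2 f) (vi φ K .S2 f) (vi φ K .S2 f),
        .lin (vi φ K .O f) 1,
        .add (vi φ K .H f) (vi φ K .O f) (vi φ K .Q2 f)]) ≤ φ.atoms.length * 40 := by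
    refine esum_flatMap _ _ _ (fun f _ => ?_)
    split_ifs
    · simp [esum]
    · simp [esum, Eqn.size]
  have hJ : (obj2 φ K).length = n := by
    simp [obj2]
  show (obj2 φ K).length + esum (sys2 φ K τ σ) ≤ _
  unfold sys2
  rw [hJ, esum_append, esum_append, esum_append, esum_append, esum_append, esum_append]
  have hp : 1 ≤ 2 ^ (2 * l) := Nat.one_le_two_pow
  have hT1 : φ.terms.length * (9 * 2 ^ (2 * l)) ≤ l * (9 * 2 ^ (2 * l)) :=
    Nat.mul_le_mul_right _ h1
  have hl2 : l < 2 ^ l := Nat.lt_two_pow_self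
  have hK2 : K < 2 ^ K := Nat.lt_two_pow_self
  have hll : l * 1 ≤ l * 2 ^ (2 * l) := Nat.mul_le_mul_left _ hp
  have hKK : (K + 1) * 1 ≤ (K + 1) * 2 ^ (2 * l) := Nat.mul_le_mul_left _ hp
  have hmain : n + (φ.terms.length * (9 * 2 ^ (2 * l)) +
      (φ.terms.length * (9 * 2 ^ (2 * l)) + (φ.atoms.length * 24 + (φ.atoms.length * 24 +
        ((9 + K * 9) + (n * 36 + φ.atoms.length * 40)))))) ≤
      143 * (l * 2 ^ (2 * l)) + 9 * ((K + 1) * 2 ^ (2 * l)) := by
    have e : l * (9 * 2 ^ (2 * l)) = 9 * (l * 2 ^ (2 * l)) := by ring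
    rw [e] at hT1
    omega
  have hfin : 143 * (l * 2 ^ (2 * l)) + 9 * ((K + 1) * 2 ^ (2 * l)) ≤ 2 ^ (3 * l + K + 9) := by
    have a1 : l * 2 ^ (2 * l) ≤ 2 ^ l * 2 ^ K * 2 ^ (2 * l) := by
      refine Nat.mul_le_mul_right _ ?_
      calc l ≤ 2 ^ l * 1 := by omega
        _ ≤ 2 ^ l * 2 ^ K := Nat.mul_le_mul_left _ Nat.one_le_two_pow
    have a2 : (K + 1) * 2 ^ (2 * l) ≤ 2 ^ l * 2 ^ K * 2 ^ (2 * l) := by
      refine Nat.mul_le_mul_right _ ?_
      calc K + 1 ≤ 1 * 2 ^ K := by omega
        _ ≤ 2 ^ l * 2 ^ K := Nat.mul_le_mul_right _ Nat.one_le_two_pow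
    have a3 : 2 ^ (3 * l + K + 9) = 512 * (2 ^ l * 2 ^ K * 2 ^ (2 * l)) := by
      rw [← pow_add, ← pow_add, show 512 = 2 ^ 9 by norm_num, ← pow_add]
      congr 1
      ring
    rw [a3]
    omega
  omega

/-- the number of squarings for the first constant -/
def K1 (l : ℕ) : ℕ := 100 * l + 142

/-- the number of squarings for the second constant -/
def K2 (l : ℕ) : ℕ := 600 * l + 852

theorem closed_iff_near (φ : Formula n) (l : ℕ) (hl : (encInst ⟨n, φ⟩).length ≤ l) :
    IsClosed φ.solutionSet ↔ ¬ Near φ (2 ^ 2 ^ K1 l) (2 ^ 2 ^ K2 l) := by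
  obtain ⟨h1, h2, h3, h4⟩ := φ.terms_length l hl
  refine closed_iff (K1 l) (2 ^ 2 ^ K2 l) (fun τ σ => ?_) (fun τ σ => ?_)
  · have a1 : Fintype.card (Ix φ 0) ≤ 20 * l + 27 := (card_Ix φ 0).trans (by omega)
    have a2 : slen (sys1 φ τ σ) (obj1 φ) ≤ 2 ^ (20 * l + 27) :=
      (slen_sys1 φ l hl τ σ).trans (Nat.pow_le_pow_right (by norm_num) (by omega))
    have a3 := HB_le a1 a2
    have a4 : HB (Fintype.card (Ix φ 0)) (slen (sys1 φ τ σ) (obj1 φ)) + 1 ≤ 2 ^ 2 ^ K1 l := by
      have e : 2 ^ K1 l = 2 ^ (5 * (20 * l + 27) + 6) + 2 ^ (5 * (20 * l + 27) + 6) := by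
        rw [← two_mul, ← pow_succ']
        congr 1
        unfold K1
        ring
      rw [e, pow_add]
      have : 2 ≤ 2 ^ 2 ^ (5 * (20 * l + 27) + 6) := by
        calc 2 = 2 ^ 1 := rfl
          _ ≤ _ := Nat.pow_le_pow_right (by norm_num) Nat.one_le_two_pow
      nlinarith
    exact_mod_cast a4
  · have a1 : Fintype.card (Ix φ (K1 l)) ≤ 120 * l + 169 :=
      (card_Ix φ (K1 l)).trans (by unfold K1; omega)
    have a2 : slen (sys2 φ (K1 l) τ σ) (obj2 φ (K1 l)) ≤ 2 ^ (120 * l + 169) :=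
      (slen_sys2 φ (K1 l) l hl τ σ).trans (Nat.pow_le_pow_right (by norm_num)
        (by unfold K1; omega))
    have a3 := HB_le a1 a2
    have a4 : 6 * n * HB (Fintype.card (Ix φ (K1 l))) (slen (sys2 φ (K1 l) τ σ)
        (obj2 φ (K1 l))) < 2 ^ 2 ^ K2 l := by
      have e : 2 ^ K2 l = 2 ^ (5 * (120 * l + 169) + 6) + 2 ^ (5 * (120 * l + 169) + 6) := by
        rw [← two_mul, ← pow_succ']
        congr 1
        unfold K2
        ring
      rw [e, pow_add]
      have b1 : 6 * n < 2 ^ 2 ^ (5 * (120 * l + 169) + 6) := by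
        have c1 : n < 2 ^ n := Nat.lt_two_pow_self
        have c2 : n + 3 ≤ 2 ^ (5 * (120 * l + 169) + 6) := by
          have : 5 * (120 * l + 169) + 6 < 2 ^ (5 * (120 * l + 169) + 6) := Nat.lt_two_pow_self
          omega
        calc 6 * n < 2 ^ (n + 3) := by
              have : 2 ^ (n + 3) = 8 * 2 ^ n := by rw [pow_add]; ring
              omega
          _ ≤ _ := Nat.pow_le_pow_right (by norm_num) c2
      calc 6 * n * _ ≤ 6 * n * 2 ^ 2 ^ (5 * (120 * l + 169) + 6) := Nat.mul_le_mul_left _ a3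
        _ < _ := Nat.mul_lt_mul_of_pos_right b1 (by positivity)
    exact_mod_cast a4

end Pool.Agent.Helper53_Closed
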