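import Pool.Agent.Helper53_Closed.Bounds

/-!
# The universal sentence expressing closedness
-/

namespace Pool.Agent.Helper53_Closed

/-- change of variables in a term -/
def Term.map {n m : ℕ} (f : Fin n → Fin m) : Term n → Term m
  | .var i => .var (f i)
  | .const c => .const c
  | .add s t => .add (s.map f) (t.map f)
  | .mul s t => .mul (s.map f) (t.map f)

/-- change of variables in a formula -/
def Formula.map {n m : ℕ} (f : Fin n → Fin m) : Formula n → Formula m
  | .atom r t => .atom r (t.map f)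
  | .and φ ψ => .and (φ.map f) (ψ.map f)
  | .or φ ψ => .or (φ.map f) (ψ.map f)
  | .not φ => .not (φ.map f)

theorem Term.eval_map {n m : ℕ} (f : Fin n → Fin m) (x : Fin m → ℝ) (t : Term n) :
    (t.map f).eval x = t.eval (fun i => x (f i)) := by
  induction t with
  | var i => rfl
  | const c => rfl
  | add s t ih1 ih2 => simp only [Term.map, Term.eval, ih1, ih2]
  | mul s t ih1 ih2 => simp only [Term.map, Term.eval, ih1, ih2]

theorem Formula.holds_map {n m : ℕ} (f : Fin n → Fin m) (x : Fin m → ℝ) (φ : Formula n) :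
    (φ.map f).Holds x ↔ φ.Holds (fun i => x (f i)) := by
  induction φ with
  | atom r t => simp only [Formula.map, Formula.Holds, Term.eval_map]
  | and φ ψ ih1 ih2 => exact and_congr ih1 ih2
  | or φ ψ ih1 ih2 => exact or_congr ih1 ih2
  | not φ ih => exact not_congr ih

/-- the variable with number `j` -/
def vr (M j : ℕ) : Term (M + 1) := .var (Fin.ofNat (M + 1) j)

/-- conjunction of a list of formulas -/
def conj {m : ℕ} : List (Formula m) → Formula m → Formula m
  | [], φ => φ
  | ψ :: l, φ => .and ψ (conj l φ)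

theorem holds_conj {m : ℕ} (x : Fin m → ℝ) (φ : Formula m) : ∀ l : List (Formula m),
    (conj l φ).Holds x ↔ (∀ ψ ∈ l, ψ.Holds x) ∧ φ.Holds x
  | [] => by simp [conj]
  | ψ :: l => by
    rw [conj, List.forall_mem_cons, and_assoc, ← holds_conj x φ l]
    rfl

/-- `a - b` -/
def Term.minus {m : ℕ} (a b : Term m) : Term m := .add a (.mul (.const (-1)) b)

theorem Term.eval_minus {m : ℕ} (x : Fin m → ℝ) (a b : Term m) :
    (a.minus b).eval x = a.eval x - b.eval x := by
  simp only [Term.minus, Term.eval]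
  push_cast
  ring

section

variable {n : ℕ} (φ : Formula n) (k₁ k₂ : ℕ)

/-- the equations for repeated squaring -/
def chainF (n k₂ : ℕ) : List (Formula (2 * n + k₂ + 1)) :=
  .atom .eq ((vr (2 * n + k₂) (2 * n)).minus (.const 2)) ::
    (List.range k₂).map fun k => .atom .eq ((vr (2 * n + k₂) (2 * n + (k + 1))).minus
      (.mul (vr (2 * n + k₂) (2 * n + k)) (vr (2 * n + k₂) (2 * n + k))))

/-- the bounds for the coordinates of `x` -/
def boxF (n k₁ k₂ : ℕ) : List (Formula (2 * n + k₂ + 1)) :=
  (List.range n).map fun i => .atom .ge ((vr (2 * n + k₂) (2 * n + k₁)).minus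
    (.mul (vr (2 * n + k₂) i) (vr (2 * n + k₂) i)))

/-- the margins -/
def marginF : List (Formula (2 * n + k₂ + 1)) :=
  φ.atoms.map fun f =>
    .or (.atom .eq (f.map (fun i => Fin.ofNat (2 * n + k₂ + 1) i.val)))
      (.atom .ge ((Term.mul (vr (2 * n + k₂) (2 * n + k₁)) (.mul
        (f.map (fun i => Fin.ofNat (2 * n + k₂ + 1) i.val))
        (f.map (fun i => Fin.ofNat (2 * n + k₂ + 1) i.val)))).minus (.const 1)))

/-- the bounds for the distance -/
def distF (n k₂ : ℕ) : List (Formula (2 * n + k₂ + 1)) :=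
  (List.range n).map fun i => .atom .ge ((Term.const 1).minus
    (.mul (vr (2 * n + k₂) (2 * n + k₂)) (.mul
      ((vr (2 * n + k₂) (n + i)).minus (vr (2 * n + k₂) i))
      ((vr (2 * n + k₂) (n + i)).minus (vr (2 * n + k₂) i)))))

/-- the conjunction expressing that there is a near point -/
def nearF : Formula (2 * n + k₂ + 1) :=
  conj (chainF n k₂ ++ (boxF n k₁ k₂ ++ (marginF φ k₁ k₂ ++ distF n k₂)))
    (.and (.not (φ.map (fun i => Fin.ofNat (2 * n + k₂ + 1) i.val)))
      (φ.map (fun i => Fin.ofNat (2 * n + k₂ + 1) (n + i.val))))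

variable {φ k₁ k₂}

theorem holds_chainF (z : Fin (2 * n + k₂ + 1) → ℝ) :
    (∀ ψ ∈ chainF n k₂, ψ.Holds z) ↔
      ∀ k ≤ k₂, z (Fin.ofNat (2 * n + k₂ + 1) (2 * n + k)) = 2 ^ 2 ^ k := by
  unfold chainF
  rw [List.forall_mem_cons]
  constructor
  · rintro ⟨h0, h⟩ k
    induction k with
    | zero =>
      intro _
      simp only [Formula.Holds, Rel.Holds, Term.eval_minus, vr, Term.eval] at h0
      push_cast at h0
      show z (Fin.ofNat (2 * n + k₂ + 1) (2 * n)) = 2 ^ 2 ^ 0
      have e : (2 : ℝ) ^ 2 ^ 0 = 2 := by norm_num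
      rw [e]
      linarith
    | succ k ih =>
      intro hk
      have h1 := h _ (List.mem_map_of_mem (List.mem_range.2 (show k < k₂ by omega)))
      simp only [Formula.Holds, Rel.Holds, Term.eval_minus, vr, Term.eval] at h1
      rw [ih (by omega), ← pow_add, ← two_mul, ← pow_succ'] at h1
      linarith
  · intro h
    refine ⟨?_, ?_⟩
    · simp only [Formula.Holds, Rel.Holds, Term.eval_minus, vr, Term.eval]
      have : z (Fin.ofNat (2 * n + k₂ + 1) (2 * n)) = 2 ^ 2 ^ 0 := h 0 (Nat.zero_le _)
      rw [this]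
      norm_num
    · intro ψ hψ
      obtain ⟨k, hk, rfl⟩ := List.mem_map.1 hψ
      have hk' := List.mem_range.1 hk
      simp only [Formula.Holds, Rel.Holds, Term.eval_minus, vr, Term.eval]
      rw [h k (by omega), h (k + 1) (by omega), ← pow_add, ← two_mul, ← pow_succ', sub_self]

theorem holds_nearF (hk : k₁ ≤ k₂) :
    (∃ z, (nearF φ k₁ k₂).Holds z) ↔ Near φ (2 ^ 2 ^ k₁) (2 ^ 2 ^ k₂) := by
  have key : ∀ z : Fin (2 * n + k₂ + 1) → ℝ, (nearF φ k₁ k₂).Holds z ↔
      (∀ k ≤ k₂, z (Fin.ofNat (2 * n + k₂ + 1) (2 * n + k)) = 2 ^ 2 ^ k) ∧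
      (∀ i : Fin n, z (Fin.ofNat (2 * n + k₂ + 1) i.val) ^ 2 ≤
        z (Fin.ofNat (2 * n + k₂ + 1) (2 * n + k₁))) ∧
      (∀ f ∈ φ.atoms, f.eval (fun i => z (Fin.ofNat (2 * n + k₂ + 1) i.val)) = 0 ∨
        1 ≤ z (Fin.ofNat (2 * n + k₂ + 1) (2 * n + k₁)) *
          f.eval (fun i => z (Fin.ofNat (2 * n + k₂ + 1) i.val)) ^ 2) ∧
      (∀ i : Fin n, z (Fin.ofNat (2 * n + k₂ + 1) (2 * n + k₂)) *
        (z (Fin.ofNat (2 * n + k₂ + 1) (n + i.val)) -
          z (Fin.ofNat (2 * n + k₂ + 1) i.val)) ^ 2 ≤ 1) ∧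
      ¬ φ.Holds (fun i => z (Fin.ofNat (2 * n + k₂ + 1) i.val)) ∧
      φ.Holds (fun i => z (Fin.ofNat (2 * n + k₂ + 1) (n + i.val))) := by
    intro z
    unfold nearF
    rw [holds_conj, List.forall_mem_append, List.forall_mem_append, List.forall_mem_append,
      holds_chainF, and_assoc, and_assoc, and_assoc]
    refine and_congr Iff.rfl (and_congr ?_ (and_congr ?_ (and_congr ?_ ?_)))
    · unfold boxF
      constructor
      · intro h i
        have h1 := h _ (List.mem_map_of_mem (List.mem_range.2 i.isLt))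
        simp only [Formula.Holds, Rel.Holds, Term.eval_minus, vr, Term.eval] at h1
        rw [sq]
        linarith
      · intro h ψ hψ
        obtain ⟨i, hi, rfl⟩ := List.mem_map.1 hψ
        have h1 := h ⟨i, List.mem_range.1 hi⟩
        simp only [Formula.Holds, Rel.Holds, Term.eval_minus, vr, Term.eval]
        rw [sq] at h1
        linarith
    · unfold marginF
      constructor
      · intro h f hf
        have h1 := h _ (List.mem_map_of_mem hf)
        simp only [Formula.Holds, Rel.Holds, Term.eval_minus, vr, Term.eval, Term.eval_map] at h1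
        rcases h1 with h1 | h1
        · exact Or.inl h1
        · right
          rw [sq]
          push_cast at h1
          linarith
      · intro h ψ hψ
        obtain ⟨f, hf, rfl⟩ := List.mem_map.1 hψ
        simp only [Formula.Holds, Rel.Holds, Term.eval_minus, vr, Term.eval, Term.eval_map]
        rcases h f hf with h1 | h1
        · exact Or.inl h1
        · right
          rw [sq] at h1
          push_cast
          linarith
    · unfold distF
      constructor
      · intro h i
        have h1 := h _ (List.mem_map_of_mem (List.mem_range.2 i.isLt))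
        simp only [Formula.Holds, Rel.Holds, Term.eval_minus, vr, Term.eval] at h1
        push_cast at h1
        rw [sq]
        linarith
      · intro h ψ hψ
        obtain ⟨i, hi, rfl⟩ := List.mem_map.1 hψ
        have h1 := h ⟨i, List.mem_range.1 hi⟩
        simp only [Formula.Holds, Rel.Holds, Term.eval_minus, vr, Term.eval]
        push_cast
        rw [sq] at h1
        linarith
    · simp only [Formula.Holds, Formula.holds_map]
  constructor
  · rintro ⟨z, hz⟩
    obtain ⟨h1, h2, h3, h4, h5, h6⟩ := (key z).1 hz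
    rw [h1 k₁ hk] at h2 h3
    rw [h1 k₂ le_rfl] at h4
    exact ⟨_, _, h2, h3, h5, h6, h4⟩
  · rintro ⟨x, y, h2, h3, h5, h6, h4⟩
    let z : Fin (2 * n + k₂ + 1) → ℝ := fun j =>
      if h : j.val < n then x ⟨j.val, h⟩ else
        if h' : j.val < 2 * n then y ⟨j.val - n, by omega⟩ else 2 ^ 2 ^ (j.val - 2 * n)
    have hval : ∀ j, j ≤ 2 * n + k₂ → (Fin.ofNat (2 * n + k₂ + 1) j).val = j := fun j hj => by
      rw [Fin.val_ofNat, Nat.mod_eq_of_lt (by omega)]
    have hx : ∀ i : Fin n, z (Fin.ofNat (2 * n + k₂ + 1) i.val) = x i := by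
      intro i
      have hi := i.isLt
      simp only [z, hval i.val (by omega), hi, dif_pos, Fin.eta]
    have hy : ∀ i : Fin n, z (Fin.ofNat (2 * n + k₂ + 1) (n + i.val)) = y i := by
      intro i
      have hi := i.isLt
      have a1 : ¬ (n + i.val < n) := by omega
      have a2 : n + i.val < 2 * n := by omega
      simp only [z, hval (n + i.val) (by omega), a1, a2, dif_pos, dif_neg, not_false_eq_true]
      congr 1
      apply Fin.ext
      show n + i.val - n = i.val
      omega
    have hw : ∀ k ≤ k₂, z (Fin.ofNat (2 * n + k₂ + 1) (2 * n + k)) = 2 ^ 2 ^ k := by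
      intro k hk
      have a1 : ¬ (2 * n + k < n) := by omega
      have a2 : ¬ (2 * n + k < 2 * n) := by omega
      simp only [z, hval (2 * n + k) (by omega), a1, a2, dif_neg, not_false_eq_true]
      congr 2
      omega
    have hx' : (fun i : Fin n => z (Fin.ofNat (2 * n + k₂ + 1) i.val)) = x := funext hx
    have hy' : (fun i : Fin n => z (Fin.ofNat (2 * n + k₂ + 1) (n + i.val))) = y := funext hy
    refine ⟨z, (key z).2 ⟨hw, ?_, ?_, ?_, ?_, ?_⟩⟩
    · intro i
      rw [hw k₁ hk, hx]
      exact h2 i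
    · intro f hf
      rw [hw k₁ hk, hx']
      exact h3 f hf
    · intro i
      rw [hw k₂ le_rfl, hx, hy]
      exact h4 i
    · rw [hx']
      exact h5
    · rw [hy']
      exact h6

end

/-- the sentence produced by the reduction from a formula written with `l` letters -/
def sentence {n : ℕ} (φ : Formula n) (l : ℕ) : Formula (2 * n + K2 l + 1) :=
  .not (nearF φ (K1 l) (K2 l))

theorem sentence_correct {n : ℕ} (φ : Formula n) (l : ℕ) (hl : (encInst ⟨n, φ⟩).length ≤ l) :
    IsClosed φ.solutionSet ↔ ∀ z, (sentence φ l).Holds z := by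
  rw [closed_iff_near φ l hl, ← holds_nearF (by unfold K1 K2; omega), not_exists]
  rfl

/-- the reduction -/
def reduction (x : Σ n : ℕ, Formula n) : Σ n : ℕ, Formula n :=
  ⟨2 * x.1 + K2 (encInst x).length + 1, sentence x.2 (encInst x).length⟩

theorem reduction_correct (x : Σ n : ℕ, Formula n) :
    closedProblem.Yes x ↔ universalTheory.Yes (reduction x) :=
  sentence_correct x.2 (encInst x).length le_rfl

end Pool.Agent.Helper53_Closed
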