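import Pool.Agent.Helper53_Closed.Lim

/-!
# Systems of simple equations
-/

namespace Pool.Agent.Helper53_Closed

open MvPolynomial Filter Topology

/-- Simple equations: `z i = c`, `z i = z j + z k`, `z i = z j * z k`, `b * z i = z j` where `b` is
a parameter. -/
inductive Eqn (ι : Type)
  | lin (i : ι) (c : ℤ)
  | add (i j k : ι)
  | mul (i j k : ι)
  | bmul (i j : ι)

namespace Eqn

variable {ι κ : Type}

/-- the difference of both sides -/
def val (b : ℝ) (z : ι → ℝ) : Eqn ι → ℝ
  | .lin i c => z i - c
  | .add i j k => z i - (z j + z k)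
  | .mul i j k => z i - z j * z k
  | .bmul i j => b * z i - z j

/-- the equation holds -/
def Holds (b : ℝ) (z : ι → ℝ) (e : Eqn ι) : Prop := e.val b z = 0

/-- change of variables -/
def map (f : ι → κ) : Eqn ι → Eqn κ
  | .lin i c => .lin (f i) c
  | .add i j k => .add (f i) (f j) (f k)
  | .mul i j k => .mul (f i) (f j) (f k)
  | .bmul i j => .bmul (f i) (f j)

theorem val_map (f : ι → κ) (b : ℝ) (z : κ → ℝ) (e : Eqn ι) :
    (e.map f).val b z = e.val b (fun i => z (f i)) := by
  cases e <;> rfl

/-- the bound for the constant -/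
def size : Eqn ι → ℕ
  | .lin _ c => 1 + c.natAbs
  | _ => 3

theorem size_map (f : ι → κ) (e : Eqn ι) : (e.map f).size = e.size := by
  cases e <;> rfl

variable {N : ℕ}

/-- the polynomial of an equation -/
noncomputable def pol : Eqn (Fin N) → PZ N
  | .lin i c => X i - C (C c)
  | .add i j k => X i - (X j + X k)
  | .mul i j k => X i - X j * X k
  | .bmul i j => C (X 2) * X i - X j

theorem ev_pol (θ : Fin 3 → ℝ) (z : Fin N → ℝ) (e : Eqn (Fin N)) :
    ev θ z e.pol = e.val (θ 2) z := by
  cases e with
  | lin i c =>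
    simp only [pol, val, map_sub, ev_X, ev_C]
    congr 1
    have h1 : (C c : A0) = (c : A0) := eq_intCast C c
    rw [h1, map_intCast]
  | add i j k => simp only [pol, val, map_sub, map_add, ev_X]
  | mul i j k => simp only [pol, val, map_sub, map_mul, ev_X]
  | bmul i j => simp only [pol, val, map_sub, map_mul, ev_X, ev_C, par_X]

theorem totalDegree_X_le (i : Fin N) : (X i : PZ N).totalDegree ≤ 1 :=
  (totalDegree_monomial_le _ _).trans (by simp)

theorem deg_pol (e : Eqn (Fin N)) : e.pol.totalDegree ≤ 2 := by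
  cases e with
  | lin i c =>
    refine (totalDegree_sub _ _).trans (max_le ((totalDegree_X_le i).trans (by norm_num)) ?_)
    rw [totalDegree_C]
    omega
  | add i j k =>
    refine (totalDegree_sub _ _).trans (max_le ((totalDegree_X_le i).trans (by norm_num)) ?_)
    exact (totalDegree_add _ _).trans (max_le ((totalDegree_X_le j).trans (by norm_num))
      ((totalDegree_X_le k).trans (by norm_num)))
  | mul i j k =>
    refine (totalDegree_sub _ _).trans (max_le ((totalDegree_X_le i).trans (by norm_num)) ?_)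
    refine (totalDegree_mul _ _).trans ?_
    have h1 := totalDegree_X_le j
    have h2 := totalDegree_X_le k
    omega
  | bmul i j =>
    refine (totalDegree_sub _ _).trans (max_le ?_ ((totalDegree_X_le j).trans (by norm_num)))
    refine (totalDegree_mul _ _).trans ?_
    rw [totalDegree_C]
    have := totalDegree_X_le i
    omega

theorem len_X (i : Fin N) : (plen N).len (X i) ≤ 1 := mvLen_X alen i

theorem len_pol (e : Eqn (Fin N)) : (plen N).len e.pol ≤ e.size := by
  cases e with
  | lin i c =>
    refine ((plen N).sub _ _).trans (Nat.add_le_add (len_X i) ?_)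
    exact (mvLen_C alen (C c)).trans (mvLen_C intLen c)
  | add i j k =>
    refine ((plen N).sub _ _).trans ?_
    have h1 := len_X i
    have h2 := len_X j
    have h3 := len_X k
    have h4 := (plen N).add (X j) (X k)
    simp only [size]
    omega
  | mul i j k =>
    refine ((plen N).sub _ _).trans ?_
    have h1 := len_X i
    have h4 := (plen N).mul (X j) (X k)
    have h5 : (plen N).len (X j) * (plen N).len (X k) ≤ 1 * 1 := Nat.mul_le_mul (len_X j) (len_X k)
    simp only [size]
    omega
  | bmul i j =>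
    refine ((plen N).sub _ _).trans ?_
    have h1 := len_X j
    have h2 : (plen N).len (C (X 2)) ≤ 1 := (mvLen_C alen (X 2)).trans (mvLen_X intLen 2)
    have h4 := (plen N).mul (C (X 2)) (X i)
    have h5 : (plen N).len (C (X 2)) * (plen N).len (X i) ≤ 1 * 1 := Nat.mul_le_mul h2 (len_X i)
    simp only [size]
    omega

end Eqn

section Fin

variable {N : ℕ}

/-- sum of squares of the equations -/
noncomputable def Fpol (E : List (Eqn (Fin N))) : PZ N := (E.map (fun e => e.pol * e.pol)).sum

/-- sum of squares of some variables -/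
noncomputable def Dpol (J : List (Fin N)) : PZ N := (J.map (fun j => X j * X j)).sum

theorem ev_Fpol (θ : Fin 3 → ℝ) (z : Fin N → ℝ) (E : List (Eqn (Fin N))) :
    ev θ z (Fpol E) = (E.map (fun e => e.val (θ 2) z ^ 2)).sum := by
  unfold Fpol
  rw [map_list_sum, List.map_map]
  congr 1
  refine List.map_congr_left (fun e _ => ?_)
  simp only [Function.comp, map_mul, Eqn.ev_pol]
  ring

theorem ev_Dpol (θ : Fin 3 → ℝ) (z : Fin N → ℝ) (J : List (Fin N)) :
    ev θ z (Dpol J) = (J.map (fun j => z j ^ 2)).sum := by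
  unfold Dpol
  rw [map_list_sum, List.map_map]
  congr 1
  refine List.map_congr_left (fun e _ => ?_)
  simp only [Function.comp, map_mul, ev_X]
  ring

theorem deg_list {α : Type} (l : List α) (f : α → PZ N) (d : ℕ) (h : ∀ a, (f a).totalDegree ≤ d) :
    (l.map f).sum.totalDegree ≤ d := by
  induction l with
  | nil => simp
  | cons a l ih =>
    rw [List.map_cons, List.sum_cons]
    exact (totalDegree_add _ _).trans (max_le (h a) ih)

theorem len_list {α : Type} (l : List α) (f : α → PZ N) (g : α → ℕ)
    (h : ∀ a, (plen N).len (f a) ≤ g a) : (plen N).len (l.map f).sum ≤ (l.map g).sum := by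
  induction l with
  | nil =>
    rw [List.map_nil, List.map_nil, List.sum_nil, List.sum_nil]
    exact (plen N).zero.le
  | cons a l ih =>
    rw [List.map_cons, List.sum_cons, List.map_cons, List.sum_cons]
    exact ((plen N).add _ _).trans (Nat.add_le_add (h a) ih)

/-- the optimisation problem of a system -/
noncomputable def sysProb (E : List (Eqn (Fin N))) (J : List (Fin N)) : Prob N where
  D := Dpol J
  F := Fpol E
  Dr := fun _ z => (J.map (fun j => z j ^ 2)).sum
  Fr := fun b z => (E.map (fun e => e.val b z ^ 2)).sum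
  hD := fun θ z => ev_Dpol θ z J
  hF := fun θ z => ev_Fpol θ z E
  degD := by
    refine deg_list _ _ _ (fun j => ?_)
    refine (totalDegree_mul _ _).trans ?_
    have := Eqn.totalDegree_X_le j
    omega
  degF := by
    refine deg_list _ _ _ (fun e => ?_)
    refine (totalDegree_mul _ _).trans ?_
    have := e.deg_pol
    omega
  hD0 := fun b z _ => List.sum_nonneg (by
    intro x hx
    obtain ⟨j, _, rfl⟩ := List.mem_map.1 hx
    positivity)
  hF0 := fun b z _ => List.sum_nonneg (by
    intro x hx
    obtain ⟨j, _, rfl⟩ := List.mem_map.1 hx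
    positivity)

theorem sysProb_len (E : List (Eqn (Fin N))) (J : List (Fin N)) :
    (plen N).len (sysProb E J).D + (plen N).len (sysProb E J).F ≤
      J.length + (E.map (fun e => e.size ^ 2)).sum := by
  refine Nat.add_le_add ?_ ?_
  · have h1 := len_list J (fun j => (X j * X j : PZ N)) (fun _ => 1) (fun j =>
      ((plen N).mul _ _).trans (Nat.mul_le_mul (Eqn.len_X j) (Eqn.len_X j)))
    refine h1.trans ?_
    simp
  · refine len_list E (fun e => e.pol * e.pol) (fun e => e.size ^ 2) (fun e => ?_)
    refine ((plen N).mul _ _).trans ?_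
    rw [sq]
    exact Nat.mul_le_mul e.len_pol e.len_pol

theorem sum_sq_eq_zero {α : Type} (l : List α) (f : α → ℝ) :
    (l.map (fun a => f a ^ 2)).sum = 0 ↔ ∀ a ∈ l, f a = 0 := by
  induction l with
  | nil => simp
  | cons a l ih =>
    rw [List.map_cons, List.sum_cons, List.forall_mem_cons]
    have h1 : 0 ≤ f a ^ 2 := sq_nonneg _
    have h2 : 0 ≤ (l.map (fun a => f a ^ 2)).sum := List.sum_nonneg (by
      intro x hx
      obtain ⟨j, _, rfl⟩ := List.mem_map.1 hx
      positivity)
    rw [add_eq_zero_iff_of_nonneg h1 h2, ih, sq_eq_zero_iff]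

end Fin

/-! ### Systems with arbitrary index sets -/

section Sys

variable {ι : Type} [Fintype ι]

/-- all equations hold -/
def Sat (b : ℝ) (z : ι → ℝ) (E : List (Eqn ι)) : Prop := ∀ e ∈ E, e.Holds b z

/-- sum of squares of some variables -/
noncomputable def obj (J : List ι) (z : ι → ℝ) : ℝ := (J.map (fun j => z j ^ 2)).sum

omit [Fintype ι] in
theorem obj_nonneg (J : List ι) (z : ι → ℝ) : 0 ≤ obj J z := List.sum_nonneg (by
  intro x hx
  obtain ⟨j, _, rfl⟩ := List.mem_map.1 hx
  positivity)

/-- the length of a system -/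
def slen (E : List (Eqn ι)) (J : List ι) : ℕ := J.length + (E.map (fun e => e.size ^ 2)).sum

/-- the infimum of the objective -/
noncomputable def sinf (E : List (Eqn ι)) (J : List ι) (b : ℝ) : ℝ :=
  sInf (obj J '' {z | Sat b z E})

/-- the system with variables in `Fin` -/
noncomputable def finSys (E : List (Eqn ι)) : List (Eqn (Fin (Fintype.card ι))) :=
  E.map (Eqn.map (Fintype.equivFin ι))

/-- the objective with variables in `Fin` -/
noncomputable def finObj (J : List ι) : List (Fin (Fintype.card ι)) := J.map (Fintype.equivFin ι)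

theorem finSys_sat (E : List (Eqn ι)) (b : ℝ) (z : Fin (Fintype.card ι) → ℝ) :
    (sysProb (finSys E) []).Fr b z = 0 ↔ Sat b (fun i => z (Fintype.equivFin ι i)) E := by
  show ((finSys E).map (fun e => e.val b z ^ 2)).sum = 0 ↔ _
  rw [sum_sq_eq_zero]
  unfold finSys Sat Eqn.Holds
  constructor
  · intro h e he
    have := h _ (List.mem_map_of_mem he)
    rwa [Eqn.val_map] at this
  · intro h e he
    obtain ⟨e', he', rfl⟩ := List.mem_map.1 he
    rw [Eqn.val_map]
    exact h e' he'

theorem infOn_eq (E : List (Eqn ι)) (J : List ι) (b : ℝ) :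
    infOn ((sysProb (finSys E) (finObj J)).Dr b) ((sysProb (finSys E) (finObj J)).Fr b) =
      sinf E J b := by
  unfold infOn sinf
  congr 1
  ext y
  constructor
  · rintro ⟨z, hz, rfl⟩
    refine ⟨fun i => z (Fintype.equivFin ι i), (finSys_sat E b z).1 hz, ?_⟩
    show obj J _ = ((finObj J).map (fun j => z j ^ 2)).sum
    unfold obj finObj
    rw [List.map_map]
    rfl
  · rintro ⟨z, hz, rfl⟩
    refine ⟨fun i => z ((Fintype.equivFin ι).symm i), ?_, ?_⟩
    · refine (finSys_sat E b _).2 ?_
      have : (fun i => z ((Fintype.equivFin ι).symm ((Fintype.equivFin ι) i))) = z := by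
        funext i
        rw [Equiv.symm_apply_apply]
      rw [this]
      exact hz
    · show ((finObj J).map (fun j => z ((Fintype.equivFin ι).symm j) ^ 2)).sum = obj J z
      unfold obj finObj
      rw [List.map_map]
      congr 1
      refine List.map_congr_left (fun j _ => ?_)
      simp only [Function.comp, Equiv.symm_apply_apply]

theorem slen_fin (E : List (Eqn ι)) (J : List ι) :
    (finObj J).length + ((finSys E).map (fun e => e.size ^ 2)).sum = slen E J := by
  unfold finObj finSys slen
  rw [List.length_map, List.map_map]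
  congr 2
  refine List.map_congr_left (fun e _ => ?_)
  simp only [Function.comp, Eqn.size_map]

theorem finSys_ne (E : List (Eqn ι)) (b : ℝ) (h : ∃ z : ι → ℝ, Sat b z E) :
    ∃ z, (sysProb (finSys E) []).Fr b z = 0 := by
  obtain ⟨z, hz⟩ := h
  refine ⟨fun i => z ((Fintype.equivFin ι).symm i), (finSys_sat E b _).2 ?_⟩
  have : (fun i => z ((Fintype.equivFin ι).symm ((Fintype.equivFin ι) i))) = z := by
    funext i
    rw [Equiv.symm_apply_apply]
  rw [this]
  exact hz

theorem sinf_le (E : List (Eqn ι)) (J : List ι) (b : ℝ) {z : ι → ℝ} (hz : Sat b z E) :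
    sinf E J b ≤ obj J z :=
  csInf_le ⟨0, by rintro _ ⟨w, _, rfl⟩; exact obj_nonneg J w⟩ ⟨z, hz, rfl⟩

/-- **Upper bound.** If a system depending monotonically on the parameter has solutions with
bounded objective, it has solutions with explicitly bounded objective. -/
theorem sys_upper (E : List (Eqn ι)) (J : List ι) (B : ℝ)
    (hB : ∀ b : ℝ, 0 < b → ∃ z : ι → ℝ, Sat b z E ∧ obj J z ≤ B)
    (hmono : ∀ b b' : ℝ, 0 < b → b ≤ b' → ∀ z' : ι → ℝ, Sat b' z' E →
      ∃ z : ι → ℝ, Sat b z E ∧ obj J z ≤ obj J z') (b : ℝ) (hb : 0 < b) :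
    ∃ z : ι → ℝ, Sat b z E ∧ obj J z ≤ HB (Fintype.card ι) (slen E J) + 1 := by
  have hne : ∀ b : ℝ, 0 < b → (obj J '' {z | Sat b z E}).Nonempty := by
    intro b hb
    obtain ⟨z, hz, _⟩ := hB b hb
    exact ⟨_, z, hz, rfl⟩
  have hm : ∀ b b' : ℝ, 0 < b → b ≤ b' → sinf E J b ≤ sinf E J b' := by
    intro b b' hb hbb'
    refine le_csInf (hne b' (hb.trans_le hbb')) ?_
    rintro _ ⟨z', hz', rfl⟩
    obtain ⟨z, hz, hle⟩ := hmono b b' hb hbb' z' hz'
    exact (sinf_le E J b hz).trans hle
  have hbd : ∀ b : ℝ, 0 < b → sinf E J b ≤ B := by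
    intro b hb
    obtain ⟨z, hz, hle⟩ := hB b hb
    exact (sinf_le E J b hz).trans hle
  have hmon : Monotone (fun b : ℝ => sinf E J (max b 1)) := fun b b' h =>
    hm _ _ (lt_max_of_lt_right one_pos) (max_le_max h le_rfl)
  have hbdd : BddAbove (Set.range (fun b : ℝ => sinf E J (max b 1))) :=
    ⟨B, by rintro _ ⟨b, rfl⟩; exact hbd _ (lt_max_of_lt_right one_pos)⟩
  have hlim := tendsto_atTop_ciSup hmon hbdd
  set e := ⨆ b : ℝ, sinf E J (max b 1) with he
  have hlim' : Tendsto (fun b => sinf E J b) atTop (𝓝 e) := by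
    refine hlim.congr' ?_
    filter_upwards [eventually_ge_atTop (1 : ℝ)] with b hb
    rw [max_eq_left hb]
  have h1 : e ≤ HB (Fintype.card ι) (slen E J) := by
    refine (sysProb (finSys E) (finObj J)).upper (slen E J) ?_ ?_ e ?_
    · refine (sysProb_len _ _).trans (slen_fin E J).le
    · filter_upwards [eventually_gt_atTop (0 : ℝ)] with b hb
      obtain ⟨z, hz, _⟩ := hB b hb
      exact finSys_ne E b ⟨z, hz⟩
    · refine hlim'.congr (fun b => ?_)
      rw [infOn_eq]
  have h2 : sinf E J b ≤ e := by
    refine (hm b (max b 1) hb (le_max_left _ _)).trans ?_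
    exact le_ciSup hbdd b
  have h3 : sInf (obj J '' {z | Sat b z E}) < HB (Fintype.card ι) (slen E J) + 1 :=
    lt_of_le_of_lt (h2.trans h1) (by linarith)
  obtain ⟨_, ⟨z, hz, rfl⟩, hlt⟩ := exists_lt_of_csInf_lt (hne b hb) h3
  exact ⟨z, hz, hlt.le⟩

/-- equations without the parameter -/
def Eqn.NoPar : Eqn ι → Prop
  | .bmul _ _ => False
  | _ => True

/-- **Lower bound.** If the objective has a positive infimum then it has an explicit lower
bound. -/
theorem sys_lower (E : List (Eqn ι)) (J : List ι) (hE : ∀ e ∈ E, e.NoPar) (δ : ℝ) (hδ : 0 < δ)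
    (h : ∀ z : ι → ℝ, Sat 0 z E → δ ≤ obj J z) (z : ι → ℝ) (hz : Sat 0 z E) :
    1 ≤ HB (Fintype.card ι) (slen E J) * (6 * obj J z) := by
  have hs : ∀ b (z : ι → ℝ), Sat b z E ↔ Sat 0 z E := by
    intro b z
    unfold Sat Eqn.Holds
    refine forall₂_congr (fun e he => ?_)
    have := hE e he
    cases e with
    | lin i c => rfl
    | add i j k => rfl
    | mul i j k => rfl
    | bmul i j => exact absurd this id
  have hc : ∀ b, sinf E J b = sinf E J 0 := by
    intro b
    unfold sinf
    congr 2
    ext z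
    exact hs b z
  have h0 : δ ≤ sinf E J 0 := by
    refine le_csInf ⟨_, z, hz, rfl⟩ ?_
    rintro _ ⟨w, hw, rfl⟩
    exact h w hw
  have h1 : 1 ≤ (HB (Fintype.card ι) (slen E J) : ℝ) * (6 * sinf E J 0) := by
    refine (sysProb (finSys E) (finObj J)).lower (slen E J) ?_ ?_ (sinf E J 0) ?_ ?_
    · exact (sysProb_len _ _).trans (slen_fin E J).le
    · refine Filter.Eventually.of_forall (fun b => finSys_ne E b ⟨z, (hs b z).2 hz⟩)
    · refine (tendsto_const_nhds (x := sinf E J 0)).congr (fun b => ?_)
      rw [infOn_eq, hc b]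
    · linarith
  refine h1.trans ?_
  have := sinf_le E J 0 hz
  gcongr

end Sys

end Pool.Agent.Helper53_Closed
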