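import Pool.Agent.Helper53_Closed.Defs
import Pool.Agent.Helper53_Closed.Sys

/-!
# Sign conditions as systems of simple equations
-/

namespace Pool.Agent.Helper53_Closed

variable {n : ℕ}

/-- subterms -/
def Term.subs : Term n → List (Term n)
  | .var i => [.var i]
  | .const c => [.const c]
  | .add s t => .add s t :: (s.subs ++ t.subs)
  | .mul s t => .mul s t :: (s.subs ++ t.subs)

theorem Term.self_mem_subs (t : Term n) : t ∈ t.subs := by
  cases t <;> simp [Term.subs]

theorem Term.add_mem_subs {s u : Term n} : ∀ {t : Term n}, Term.add s u ∈ t.subs →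
    s ∈ t.subs ∧ u ∈ t.subs := by
  intro t
  induction t with
  | var i => intro h; simp [Term.subs] at h
  | const c => intro h; simp [Term.subs] at h
  | add a c ih1 ih2 =>
    intro h
    simp only [Term.subs, List.mem_cons, List.mem_append] at h ⊢
    rcases h with h | h | h
    · rw [Term.add.injEq] at h
      obtain ⟨rfl, rfl⟩ := h
      exact ⟨Or.inr (Or.inl s.self_mem_subs), Or.inr (Or.inr u.self_mem_subs)⟩
    · exact ⟨Or.inr (Or.inl (ih1 h).1), Or.inr (Or.inl (ih1 h).2)⟩
    · exact ⟨Or.inr (Or.inr (ih2 h).1), Or.inr (Or.inr (ih2 h).2)⟩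
  | mul a c ih1 ih2 =>
    intro h
    simp only [Term.subs, List.mem_cons, List.mem_append] at h ⊢
    rcases h with h | h | h
    · cases h
    · exact ⟨Or.inr (Or.inl (ih1 h).1), Or.inr (Or.inl (ih1 h).2)⟩
    · exact ⟨Or.inr (Or.inr (ih2 h).1), Or.inr (Or.inr (ih2 h).2)⟩

theorem Term.mul_mem_subs {s u : Term n} : ∀ {t : Term n}, Term.mul s u ∈ t.subs →
    s ∈ t.subs ∧ u ∈ t.subs := by
  intro t
  induction t with
  | var i => intro h; simp [Term.subs] at h
  | const c => intro h; simp [Term.subs] at h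
  | mul a c ih1 ih2 =>
    intro h
    simp only [Term.subs, List.mem_cons, List.mem_append] at h ⊢
    rcases h with h | h | h
    · rw [Term.mul.injEq] at h
      obtain ⟨rfl, rfl⟩ := h
      exact ⟨Or.inr (Or.inl s.self_mem_subs), Or.inr (Or.inr u.self_mem_subs)⟩
    · exact ⟨Or.inr (Or.inl (ih1 h).1), Or.inr (Or.inl (ih1 h).2)⟩
    · exact ⟨Or.inr (Or.inr (ih2 h).1), Or.inr (Or.inr (ih2 h).2)⟩
  | add a c ih1 ih2 =>
    intro h
    simp only [Term.subs, List.mem_cons, List.mem_append] at h ⊢
    rcases h with h | h | h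
    · cases h
    · exact ⟨Or.inr (Or.inl (ih1 h).1), Or.inr (Or.inl (ih1 h).2)⟩
    · exact ⟨Or.inr (Or.inr (ih2 h).1), Or.inr (Or.inr (ih2 h).2)⟩

/-- the terms in the atoms -/
def Formula.atoms : Formula n → List (Term n)
  | .atom _ f => [f]
  | .and φ ψ => φ.atoms ++ ψ.atoms
  | .or φ ψ => φ.atoms ++ ψ.atoms
  | .not φ => φ.atoms

/-- all terms in a formula, and all variables -/
def Formula.terms (φ : Formula n) : List (Term n) :=
  (List.finRange n).map Term.var ++ φ.atoms.flatMap Term.subs

theorem Formula.var_mem (φ : Formula n) (i : Fin n) : Term.var i ∈ φ.terms :=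
  List.mem_append_left _ (List.mem_map_of_mem (List.mem_finRange i))

theorem Formula.atom_mem (φ : Formula n) {f : Term n} (h : f ∈ φ.atoms) : f ∈ φ.terms :=
  List.mem_append_right _ (List.mem_flatMap.2 ⟨f, h, f.self_mem_subs⟩)

theorem Formula.add_mem (φ : Formula n) {s u : Term n} (h : Term.add s u ∈ φ.terms) :
    s ∈ φ.terms ∧ u ∈ φ.terms := by
  rcases List.mem_append.1 h with h | h
  · obtain ⟨i, _, hi⟩ := List.mem_map.1 h
    cases hi
  · obtain ⟨f, hf, h⟩ := List.mem_flatMap.1 h
    exact ⟨List.mem_append_right _ (List.mem_flatMap.2 ⟨f, hf, (Term.add_mem_subs h).1⟩),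
      List.mem_append_right _ (List.mem_flatMap.2 ⟨f, hf, (Term.add_mem_subs h).2⟩)⟩

theorem Formula.mul_mem (φ : Formula n) {s u : Term n} (h : Term.mul s u ∈ φ.terms) :
    s ∈ φ.terms ∧ u ∈ φ.terms := by
  rcases List.mem_append.1 h with h | h
  · obtain ⟨i, _, hi⟩ := List.mem_map.1 h
    cases hi
  · obtain ⟨f, hf, h⟩ := List.mem_flatMap.1 h
    exact ⟨List.mem_append_right _ (List.mem_flatMap.2 ⟨f, hf, (Term.mul_mem_subs h).1⟩),
      List.mem_append_right _ (List.mem_flatMap.2 ⟨f, hf, (Term.mul_mem_subs h).2⟩)⟩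

/-- the truth of a formula depends only on the signs of the polynomials in the atoms -/
theorem Formula.holds_congr (x y : Fin n → ℝ) : ∀ (φ : Formula n)
    (_ : ∀ f ∈ φ.atoms, SignType.sign (f.eval x) = SignType.sign (f.eval y)),
    φ.Holds x ↔ φ.Holds y := by
  intro φ
  induction φ with
  | atom r f =>
    intro h
    have h1 := h f (by simp [Formula.atoms])
    have key : ∀ a c : ℝ, SignType.sign a = SignType.sign c → (r.Holds a ↔ r.Holds c) := by
      intro a c hac
      rcases lt_trichotomy a 0 with ha | ha | ha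
      · rw [sign_neg ha] at hac
        have hc := sign_eq_neg_one_iff.1 hac.symm
        cases r
        · exact ⟨fun h => absurd h ha.ne, fun h => absurd h hc.ne⟩
        · exact ⟨fun h => absurd h ha.le.not_gt, fun h => absurd h hc.le.not_gt⟩
        · exact ⟨fun h => absurd h ha.not_ge, fun h => absurd h hc.not_ge⟩
      · rw [ha, sign_zero] at hac
        have hc := sign_eq_zero_iff.1 hac.symm
        rw [ha, hc]
      · rw [sign_pos ha] at hac
        have hc := sign_eq_one_iff.1 hac.symm
        cases r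
        · exact ⟨fun h => absurd h ha.ne', fun h => absurd h hc.ne'⟩
        · exact ⟨fun _ => hc, fun _ => ha⟩
        · exact ⟨fun _ => hc.le, fun _ => ha.le⟩
    exact key _ _ h1
  | and φ ψ ih1 ih2 =>
    intro h
    exact and_congr (ih1 (fun f hf => h f (List.mem_append_left _ hf)))
      (ih2 (fun f hf => h f (List.mem_append_right _ hf)))
  | or φ ψ ih1 ih2 =>
    intro h
    exact or_congr (ih1 (fun f hf => h f (List.mem_append_left _ hf)))
      (ih2 (fun f hf => h f (List.mem_append_right _ hf)))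
  | not φ ih =>
    intro h
    exact not_congr (ih h)

/-! ### Index sets -/

/-- names of variables -/
inductive Nm
  | X | U | R | P | Y | U' | R' | P' | D | E | H | S | Q | O | G | S2 | Q2
  deriving DecidableEq

instance : Fintype Nm :=
  ⟨{.X, .U, .R, .P, .Y, .U', .R', .P', .D, .E, .H, .S, .Q, .O, .G, .S2, .Q2}, by
    intro x; cases x <;> decide⟩

/-- variables of the systems -/
abbrev Ix (φ : Formula n) (K : ℕ) : Type := (Nm × Option {t : Term n // t ∈ φ.terms}) ⊕ Fin (K + 1)

noncomputable instance (l : List (Term n)) : Fintype {t : Term n // t ∈ l} :=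
  @Fintype.ofSurjective _ _ (Classical.decEq _) _
    (fun i : Fin l.length => (⟨l.get i, List.get_mem l i⟩ : {t : Term n // t ∈ l}))
    (fun ⟨t, ht⟩ => by
      obtain ⟨i, hi⟩ := List.get_of_mem ht
      exact ⟨i, Subtype.ext hi⟩)

theorem card_terms (l : List (Term n)) : Fintype.card {t : Term n // t ∈ l} ≤ l.length := by
  have := Fintype.card_le_of_surjective
    (fun i : Fin l.length => (⟨l.get i, List.get_mem l i⟩ : {t : Term n // t ∈ l}))
    (fun ⟨t, ht⟩ => by
      obtain ⟨i, hi⟩ := List.get_of_mem ht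
      exact ⟨i, Subtype.ext hi⟩)
  simpa using this

theorem card_Ix (φ : Formula n) (K : ℕ) :
    Fintype.card (Ix φ K) ≤ 17 * (φ.terms.length + 1) + (K + 1) := by
  have h1 : Fintype.card Nm = 17 := rfl
  rw [Fintype.card_sum, Fintype.card_prod, Fintype.card_option, Fintype.card_fin, h1]
  have := card_terms φ.terms
  omega

section

variable (φ : Formula n) (K : ℕ)

open Classical in
/-- the variable with a given name for a given term -/
noncomputable def vi (k : Nm) (t : Term n) : Ix φ K :=
  if h : t ∈ φ.terms then .inl (k, some ⟨t, h⟩) else .inl (k, none)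

/-- the variables for repeated squaring -/
def wi (j : ℕ) : Ix φ K := .inr (Fin.ofNat (K + 1) j)

/-- an assignment -/
def asg (g : Nm → Term n → ℝ) (w : ℕ → ℝ) : Ix φ K → ℝ
  | .inl (k, some t) => g k t.1
  | .inl (_, none) => 0
  | .inr j => w j.val

variable {φ K}

theorem asg_vi (g : Nm → Term n → ℝ) (w : ℕ → ℝ) (k : Nm) {t : Term n} (h : t ∈ φ.terms) :
    asg φ K g w (vi φ K k t) = g k t := by
  unfold vi
  rw [dif_pos h]
  rfl

theorem asg_wi (g : Nm → Term n → ℝ) (w : ℕ → ℝ) {j : ℕ} (h : j ≤ K) :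
    asg φ K g w (wi φ K j) = w j := by
  show w (Fin.ofNat (K + 1) j).val = w j
  rw [Fin.val_ofNat, Nat.mod_eq_of_lt (by omega)]

variable (φ K)

/-- equations for the values of the terms -/
noncomputable def termEqs (k : Nm) : List (Eqn (Ix φ K)) :=
  φ.terms.flatMap fun t =>
    match t with
    | .var _ => []
    | .const c => [.lin (vi φ K k (.const c)) c]
    | .add s u => [.add (vi φ K k (.add s u)) (vi φ K k s) (vi φ K k u)]
    | .mul s u => [.mul (vi φ K k (.mul s u)) (vi φ K k s) (vi φ K k u)]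

/-- equations for the signs of the polynomials in the atoms -/
noncomputable def signEqs (kx ku kr kp : Nm) (τ : Term n → SignType) : List (Eqn (Ix φ K)) :=
  φ.atoms.flatMap fun f =>
    [.mul (vi φ K kr f) (vi φ K ku f) (vi φ K ku f),
      .mul (vi φ K kp f) (vi φ K kx f) (vi φ K kr f), .lin (vi φ K kp f) (τ f : ℤ)] ++
      (if τ f = 0 then [.lin (vi φ K kx f) 0, .lin (vi φ K ku f) 0] else [])

variable {φ K}

theorem sat_append {ι : Type} (b : ℝ) (z : ι → ℝ) (E E' : List (Eqn ι)) :
    Sat b z (E ++ E') ↔ Sat b z E ∧ Sat b z E' := by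
  unfold Sat
  simp only [List.mem_append]
  constructor
  · intro h
    exact ⟨fun e he => h e (Or.inl he), fun e he => h e (Or.inr he)⟩
  · rintro ⟨h1, h2⟩ e (he | he)
    · exact h1 e he
    · exact h2 e he

theorem sat_flatMap {ι α : Type} (b : ℝ) (z : ι → ℝ) (l : List α) (f : α → List (Eqn ι)) :
    Sat b z (l.flatMap f) ↔ ∀ a ∈ l, Sat b z (f a) := by
  unfold Sat
  simp only [List.mem_flatMap]
  constructor
  · intro h a ha e he
    exact h e ⟨a, ha, he⟩
  · rintro h e ⟨a, ha, he⟩
    exact h a ha e he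

theorem sat_cons {ι : Type} (b : ℝ) (z : ι → ℝ) (e : Eqn ι) (E : List (Eqn ι)) :
    Sat b z (e :: E) ↔ e.Holds b z ∧ Sat b z E := by
  unfold Sat
  rw [List.forall_mem_cons]

theorem sat_nil {ι : Type} (b : ℝ) (z : ι → ℝ) : Sat b z ([] : List (Eqn ι)) ↔ True := by
  unfold Sat
  simp

theorem holds_lin {ι : Type} (b : ℝ) (z : ι → ℝ) (i : ι) (c : ℤ) :
    (Eqn.lin i c).Holds b z ↔ z i = c := by
  unfold Eqn.Holds Eqn.val
  exact sub_eq_zero

theorem holds_add {ι : Type} (b : ℝ) (z : ι → ℝ) (i j k : ι) :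
    (Eqn.add i j k).Holds b z ↔ z i = z j + z k := by
  unfold Eqn.Holds Eqn.val
  exact sub_eq_zero

theorem holds_mul {ι : Type} (b : ℝ) (z : ι → ℝ) (i j k : ι) :
    (Eqn.mul i j k).Holds b z ↔ z i = z j * z k := by
  unfold Eqn.Holds Eqn.val
  exact sub_eq_zero

theorem holds_bmul {ι : Type} (b : ℝ) (z : ι → ℝ) (i j : ι) :
    (Eqn.bmul i j).Holds b z ↔ b * z i = z j := by
  unfold Eqn.Holds Eqn.val
  exact sub_eq_zero

theorem sat_termEqs (b : ℝ) (z : Ix φ K → ℝ) (k : Nm) :
    Sat b z (termEqs φ K k) ↔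
      ∀ t ∈ φ.terms, z (vi φ K k t) = t.eval (fun i => z (vi φ K k (.var i))) := by
  unfold termEqs
  rw [sat_flatMap]
  constructor
  · intro h t
    induction t with
    | var i => intro _; rfl
    | const c =>
      intro ht
      have := h _ ht
      simp only [sat_cons, holds_lin] at this
      exact this.1
    | add s u ih1 ih2 =>
      intro ht
      have := h _ ht
      simp only [sat_cons, holds_add] at this
      rw [this.1, ih1 (φ.add_mem ht).1, ih2 (φ.add_mem ht).2]
      rfl
    | mul s u ih1 ih2 =>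
      intro ht
      have := h _ ht
      simp only [sat_cons, holds_mul] at this
      rw [this.1, ih1 (φ.mul_mem ht).1, ih2 (φ.mul_mem ht).2]
      rfl
  · intro h t ht
    cases t with
    | var i => exact (sat_nil b z).2 trivial
    | const c =>
      simp only [sat_cons, sat_nil, holds_lin, and_true]
      exact h _ ht
    | add s u =>
      simp only [sat_cons, sat_nil, holds_add, and_true]
      rw [h _ ht, h _ (φ.add_mem ht).1, h _ (φ.add_mem ht).2]
      rfl
    | mul s u =>
      simp only [sat_cons, sat_nil, holds_mul, and_true]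
      rw [h _ ht, h _ (φ.mul_mem ht).1, h _ (φ.mul_mem ht).2]
      rfl

theorem sat_signEqs (b : ℝ) (z : Ix φ K → ℝ) (kx ku kr kp : Nm) (τ : Term n → SignType) :
    Sat b z (signEqs φ K kx ku kr kp τ) ↔ ∀ f ∈ φ.atoms,
      z (vi φ K kr f) = z (vi φ K ku f) * z (vi φ K ku f) ∧
      z (vi φ K kp f) = z (vi φ K kx f) * z (vi φ K kr f) ∧
      z (vi φ K kp f) = ((τ f : ℤ) : ℝ) ∧
      (τ f = 0 → z (vi φ K kx f) = 0 ∧ z (vi φ K ku f) = 0) := by
  unfold signEqs
  rw [sat_flatMap]
  refine forall₂_congr (fun f _ => ?_)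
  by_cases h : τ f = 0
  · simp only [h, if_true, sat_cons, sat_nil, sat_append, holds_mul, holds_lin, and_true,
      forall_const, Int.cast_zero]
    tauto
  · simp only [h, if_false, sat_cons, sat_nil, sat_append, holds_mul, holds_lin, and_true,
      false_imp_iff]

/-- the sign equations determine the sign and the inverse absolute value -/
theorem sign_of_eqs {x u r p : ℝ} {s : SignType} (h1 : r = u * u) (h2 : p = x * r)
    (h3 : p = ((s : ℤ) : ℝ)) (h4 : s = 0 → x = 0 ∧ u = 0) :
    SignType.sign x = s ∧ r = |x|⁻¹ := by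
  have hr : 0 ≤ r := by rw [h1]; exact mul_self_nonneg u
  rcases s with _ | _ | _
  · obtain ⟨hx, hu⟩ := h4 rfl
    subst hx
    subst hu
    rw [h1]
    simp
  · have h5 : x * r = -1 := by rw [← h2, h3]; simp
    have hr' : 0 < r := by
      refine lt_of_le_of_ne hr (fun h => ?_)
      rw [← h, mul_zero] at h5
      norm_num at h5
    have hx : x < 0 := by
      by_contra hcon
      push Not at hcon
      have := mul_nonneg hcon hr
      linarith
    refine ⟨sign_neg hx, ?_⟩
    rw [abs_of_neg hx]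
    exact eq_inv_of_mul_eq_one_left (by rw [mul_neg, mul_comm, h5]; norm_num)
  · have h5 : x * r = 1 := by rw [← h2, h3]; simp
    have hr' : 0 < r := by
      refine lt_of_le_of_ne hr (fun h => ?_)
      rw [← h, mul_zero] at h5
      norm_num at h5
    have hx : 0 < x := by
      by_contra hcon
      push Not at hcon
      have := mul_nonneg (neg_nonneg.2 hcon) hr
      linarith
    refine ⟨sign_pos hx, ?_⟩
    rw [abs_of_pos hx]
    exact eq_inv_of_mul_eq_one_left (by rw [mul_comm, h5])

theorem eqs_of_sign (x : ℝ) :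
    |x|⁻¹ = Real.sqrt |x|⁻¹ * Real.sqrt |x|⁻¹ ∧
    x * |x|⁻¹ = ((SignType.sign x : ℤ) : ℝ) ∧
    (SignType.sign x = 0 → x = 0 ∧ Real.sqrt |x|⁻¹ = 0) := by
  refine ⟨(Real.mul_self_sqrt (by positivity)).symm, ?_, ?_⟩
  · rcases lt_trichotomy x 0 with h | h | h
    · rw [sign_neg h, abs_of_neg h, inv_neg, mul_neg, mul_inv_cancel₀ h.ne]
      simp
    · rw [h]
      simp
    · rw [sign_pos h, abs_of_pos h, mul_inv_cancel₀ h.ne']
      simp
  · intro h
    have := sign_eq_zero_iff.1 h
    rw [this]
    simp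

end

end Pool.Agent.Helper53_Closed
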