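import Pool.Agent.Helper53_Closed.Mat

/-!
# Minimisers of perturbed polynomials
-/

namespace Pool.Agent.Helper53_Closed

open MvPolynomial Filter Topology

variable {N : ℕ}

theorem ev_C (θ : Fin 3 → ℝ) (z : Fin N → ℝ) (c : A0) : ev θ z (C c) = par θ c := by
  unfold ev
  rw [coe_eval₂Hom, eval₂_C]

theorem ev_X (θ : Fin 3 → ℝ) (z : Fin N → ℝ) (i : Fin N) : ev θ z (X i) = z i := by
  unfold ev
  rw [coe_eval₂Hom, eval₂_X]

theorem par_X (θ : Fin 3 → ℝ) (j : Fin 3) : par θ (X j) = θ j := by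
  unfold par
  rw [RingHom.coe_coe, aeval_X]

theorem continuous_ev (θ : Fin 3 → ℝ) (p : PZ N) : Continuous (fun z => ev θ z p) := by
  induction p using MvPolynomial.induction_on with
  | C a => simp only [ev_C]; exact continuous_const
  | add p q hp hq => simp only [map_add]; exact hp.add hq
  | mul_X p i hp =>
    simp only [map_mul, ev_X]
    exact hp.mul (continuous_apply i)

theorem hasDerivAt_ev (θ : Fin 3 → ℝ) (z : Fin N → ℝ) (i : Fin N) (p : PZ N) :
    HasDerivAt (fun s => ev θ (Function.update z i s) p) (ev θ z (pderiv i p)) (z i) := by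
  induction p using MvPolynomial.induction_on with
  | C a =>
    simp only [ev_C, pderiv_C, map_zero]
    exact hasDerivAt_const _ _
  | add p q hp hq =>
    simp only [map_add]
    exact hp.add hq
  | mul_X p j hp =>
    simp only [map_mul, ev_X, Derivation.leibniz, smul_eq_mul, map_add]
    have h2 : HasDerivAt (fun s => Function.update z i s j) (ev θ z (pderiv i (X j : PZ N)))
        (z i) := by
      by_cases h : j = i
      · subst h
        simp only [Function.update_self, pderiv_X_self, map_one]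
        exact hasDerivAt_id _
      · simp only [Function.update_of_ne h, pderiv_X_of_ne h, map_zero]
        exact hasDerivAt_const _ _
    have h3 := hp.mul h2
    refine h3.congr_deriv ?_
    rw [Function.update_eq_self]
    ring

/-- the perturbed function -/
noncomputable def Gf (θ : Fin 3 → ℝ) (G : PZ N) (z : Fin N → ℝ) : ℝ :=
  ev θ z G + (∑ i, z i ^ 6) / (6 * θ 1)

theorem continuous_Gf (θ : Fin 3 → ℝ) (G : PZ N) : Continuous (Gf θ G) := by
  unfold Gf
  refine (continuous_ev θ G).add ?_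
  refine Continuous.div_const ?_ _
  exact continuous_finsetSum _ (fun i _ => (continuous_apply i).pow 6)

theorem norm_pow_le (z : Fin N → ℝ) : ‖z‖ ^ 6 ≤ ∑ i, z i ^ 6 + 1 := by
  have hs : ∀ i, 0 ≤ z i ^ 6 := fun i => by positivity
  by_cases h : ‖z‖ ≤ 1
  · have h1 : ‖z‖ ^ 6 ≤ 1 := pow_le_one₀ (norm_nonneg _) h
    have h2 : 0 ≤ ∑ i, z i ^ 6 := Finset.sum_nonneg (fun i _ => hs i)
    linarith
  · push Not at h
    have hn : N ≠ 0 := by
      rintro rfl
      have : ‖z‖ = 0 := by
        rw [Subsingleton.elim z 0, norm_zero]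
      linarith
    have : Nonempty (Fin N) := ⟨⟨0, Nat.pos_of_ne_zero hn⟩⟩
    obtain ⟨i, hi⟩ := Finite.exists_max (fun i => ‖z i‖)
    have h1 : ‖z‖ ≤ ‖z i‖ := (pi_norm_le_iff_of_nonneg (norm_nonneg _)).2 hi
    have h2 : ‖z‖ ^ 6 ≤ z i ^ 6 := by
      calc ‖z‖ ^ 6 ≤ ‖z i‖ ^ 6 := pow_le_pow_left₀ (norm_nonneg _) h1 6
        _ = z i ^ 6 := by
            rw [Real.norm_eq_abs]
            exact Even.pow_abs ⟨3, rfl⟩ _
    have h3 : z i ^ 6 ≤ ∑ i, z i ^ 6 :=
      Finset.single_le_sum (f := fun i => z i ^ 6) (fun i _ => hs i) (Finset.mem_univ i)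
    linarith

theorem exists_min (θ : Fin 3 → ℝ) (ha : 0 < θ 1) (G : PZ N) (h0 : ∀ z, 0 ≤ ev θ z G) :
    ∃ z, ∀ w, Gf θ G z ≤ Gf θ G w := by
  refine (continuous_Gf θ G).exists_forall_le ?_
  have h1 : Tendsto (fun z : Fin N → ℝ => (‖z‖ ^ 6 - 1) / (6 * θ 1)) (cocompact _) atTop := by
    have h2 : Tendsto (fun z : Fin N → ℝ => ‖z‖) (cocompact _) atTop := tendsto_norm_cocompact_atTop
    have h3 := (tendsto_pow_atTop (α := ℝ) (n := 6) (by norm_num)).comp h2
    have h4 := (tendsto_atTop_add_const_right (cocompact (Fin N → ℝ)) (-1) h3)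
    have h5 := h4.atTop_mul_const (show (0 : ℝ) < (6 * θ 1)⁻¹ by positivity)
    refine h5.congr (fun z => ?_)
    simp only [Function.comp]
    rw [div_eq_mul_inv]
    ring
  refine tendsto_atTop_mono (fun z => ?_) h1
  unfold Gf
  have h2 := norm_pow_le z
  have h3 : (‖z‖ ^ 6 - 1) / (6 * θ 1) ≤ (∑ i, z i ^ 6) / (6 * θ 1) := by
    apply div_le_div_of_nonneg_right _ (by positivity)
    linarith
  have := h0 z
  linarith

/-- right sides of the critical point equations -/
noncomputable def gpol (G : PZ N) (i : Fin N) : PZ N := -(C (X 1) * pderiv i G)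

/-- six times the critical value -/
noncomputable def qpol (G : PZ N) : PZ N := C 6 * G - ∑ i, X i * pderiv i G

theorem crit (θ : Fin 3 → ℝ) (ha : 0 < θ 1) (G : PZ N) (z : Fin N → ℝ)
    (hz : ∀ w, Gf θ G z ≤ Gf θ G w) (i : Fin N) : z i ^ 5 = ev θ z (gpol G i) := by
  classical
  have h1 : HasDerivAt (fun s => Gf θ G (Function.update z i s))
      (ev θ z (pderiv i G) + (6 * z i ^ 5) / (6 * θ 1)) (z i) := by
    unfold Gf
    refine (hasDerivAt_ev θ z i G).add ?_
    refine HasDerivAt.div_const ?_ _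
    have h2 : (fun s => ∑ j, Function.update z i s j ^ 6) =
        fun s => s ^ 6 + ∑ j ∈ Finset.univ.erase i, z j ^ 6 := by
      funext s
      rw [← Finset.add_sum_erase _ _ (Finset.mem_univ i), Function.update_self]
      congr 1
      exact Finset.sum_congr rfl (fun j hj => by
        rw [Function.update_of_ne (Finset.ne_of_mem_erase hj)])
    rw [h2]
    have h3 := (hasDerivAt_pow 6 (z i)).add_const (∑ j ∈ Finset.univ.erase i, z j ^ 6)
    refine h3.congr_deriv ?_
    norm_num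
  have h2 : IsLocalMin (fun s => Gf θ G (Function.update z i s)) (z i) := by
    refine Filter.Eventually.of_forall (fun s => ?_)
    simp only [Function.update_eq_self]
    exact hz _
  have h3 := h2.hasDerivAt_eq_zero h1
  unfold gpol
  rw [map_neg, map_mul, ev_C, par_X]
  field_simp at h3
  linarith

theorem crit_value (θ : Fin 3 → ℝ) (ha : 0 < θ 1) (G : PZ N) (z : Fin N → ℝ)
    (hz : ∀ w, Gf θ G z ≤ Gf θ G w) : 6 * Gf θ G z = ev θ z (qpol G) := by
  unfold qpol Gf
  rw [map_sub, map_mul, ev_C, map_sum]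
  have h6 : par θ (6 : A0) = 6 := map_ofNat (par θ) 6
  rw [h6]
  have h1 : ∑ i, z i ^ 6 = ∑ i, z i * (-(θ 1 * ev θ z (pderiv i G))) := by
    refine Finset.sum_congr rfl (fun i _ => ?_)
    have h2 := crit θ ha G z hz i
    unfold gpol at h2
    rw [map_neg, map_mul, ev_C, par_X] at h2
    rw [← h2]
    ring
  have h2 : ∑ i, ev θ z (X i * pderiv i G) = ∑ i, z i * ev θ z (pderiv i G) :=
    Finset.sum_congr rfl (fun i _ => by rw [map_mul, ev_X])
  have h3 : ∑ i, z i * (-(θ 1 * ev θ z (pderiv i G))) =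
      -(θ 1) * ∑ i, z i * ev θ z (pderiv i G) := by
    rw [Finset.mul_sum]
    exact Finset.sum_congr rfl (fun i _ => by ring)
  rw [h2, h1, h3]
  field_simp
  ring

theorem gpol_deg (G : PZ N) (h : G.totalDegree ≤ 4) (i : Fin N) : (gpol G i).totalDegree ≤ 4 := by
  unfold gpol
  rw [totalDegree_neg]
  refine (totalDegree_mul _ _).trans ?_
  rw [totalDegree_C, Nat.zero_add]
  exact (totalDegree_pderiv_le i G).trans h

theorem gpol_len (G : PZ N) (h : G.totalDegree ≤ 4) (L : ℕ) (hL : (plen N).len G ≤ L)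
    (i : Fin N) : (plen N).len (gpol G i) ≤ 4 * L := by
  unfold gpol
  refine ((plen N).neg _).trans (((plen N).mul _ _).trans ?_)
  have h1 : (plen N).len (C (X 1)) ≤ 1 := (mvLen_C alen (X 1)).trans (mvLen_X intLen 1)
  have h2 : (plen N).len (pderiv i G) ≤ 4 * L :=
    (mvLen_pderiv alen i G).trans (Nat.mul_le_mul h hL)
  calc _ ≤ 1 * (4 * L) := Nat.mul_le_mul h1 h2
    _ = 4 * L := one_mul _

theorem qpol_deg (G : PZ N) (h : G.totalDegree ≤ 4) : (qpol G).totalDegree ≤ 5 := by
  unfold qpol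
  refine (totalDegree_sub _ _).trans (max_le ?_ ?_)
  · refine (totalDegree_mul _ _).trans ?_
    rw [totalDegree_C]
    omega
  · refine (totalDegree_finsetSum _ _).trans (Finset.sup_le (fun i _ => ?_))
    refine (totalDegree_mul _ _).trans ?_
    have h1 : (X i : PZ N).totalDegree ≤ 1 := (totalDegree_monomial_le _ _).trans (by simp)
    have h2 := (totalDegree_pderiv_le i G).trans h
    omega

theorem qpol_len (G : PZ N) (h : G.totalDegree ≤ 4) (L : ℕ) (hL : (plen N).len G ≤ L) :
    (plen N).len (qpol G) ≤ (6 + 4 * N) * L := by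
  unfold qpol
  refine ((plen N).sub _ _).trans ?_
  have h1 : (plen N).len (C 6 * G) ≤ 6 * L := by
    refine ((plen N).mul _ _).trans (Nat.mul_le_mul ?_ hL)
    exact (mvLen_C alen 6).trans (alen.natCast 6)
  have h2 : (plen N).len (∑ i, X i * pderiv i G) ≤ N * (4 * L) := by
    refine ((plen N).sum _ _).trans ?_
    calc ∑ i, (plen N).len (X i * pderiv i G) ≤ ∑ _i : Fin N, 4 * L := by
          refine Finset.sum_le_sum (fun i _ => ((plen N).mul _ _).trans ?_)
          calc _ ≤ 1 * (4 * L) := Nat.mul_le_mul (mvLen_X alen i)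
                ((mvLen_pderiv alen i G).trans (Nat.mul_le_mul h hL))
            _ = 4 * L := one_mul _
      _ = N * (4 * L) := by simp
  calc _ ≤ 6 * L + N * (4 * L) := Nat.add_le_add h1 h2
    _ = (6 + 4 * N) * L := by ring

/-- all critical values satisfy one polynomial equation of bounded height -/
theorem exists_psi' (G : PZ N) (h : G.totalDegree ≤ 4) (L : ℕ) (hL : (plen N).len G ≤ L) :
    ∃ Ψ : MvPolynomial (Fin 4) ℤ, Ψ ≠ 0 ∧
      zlen Ψ ≤ hgt N (4 * L + 1) ((6 + 4 * N) * L) 5 ∧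
      ∀ (θ : Fin 3 → ℝ) (_ : 0 < θ 1) (z : Fin N → ℝ), (∀ w, Gf θ G z ≤ Gf θ G w) →
        evt θ (6 * Gf θ G z) Ψ = 0 := by
  obtain ⟨Ψ, h1, h2, h3⟩ := exists_psi (gpol G) (4 * L + 1) (by omega) (gpol_deg G h)
    (fun i => (gpol_len G h L hL i).trans (Nat.le_succ _)) (qpol G) ((6 + 4 * N) * L) 5
    (qpol_len G h L hL) (qpol_deg G h)
  refine ⟨Ψ, h1, h2, fun θ ha z hz => ?_⟩
  rw [crit_value θ ha G z hz]
  exact h3 θ z (fun i => crit θ ha G z hz i)

end Pool.Agent.Helper53_Closed
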