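import Pool.Agent.Helper53_Closed.Crit

/-!
# Effective bounds for infima of polynomials on real algebraic sets
-/

namespace Pool.Agent.Helper53_Closed

open MvPolynomial Filter Topology

variable {N : ℕ}

/-- the infimum of a function on the zero set of another -/
noncomputable def infOn (D F : (Fin N → ℝ) → ℝ) : ℝ := sInf (D '' {z | F z = 0})

theorem infOn_le {D F : (Fin N → ℝ) → ℝ} (hD : ∀ z, 0 ≤ D z) {z : Fin N → ℝ} (hz : F z = 0) :
    infOn D F ≤ D z :=
  csInf_le ⟨0, by rintro _ ⟨w, _, rfl⟩; exact hD w⟩ ⟨z, hz, rfl⟩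

theorem le_infOn {D F : (Fin N → ℝ) → ℝ} {c : ℝ} (hne : ∃ z, F z = 0)
    (h : ∀ z, F z = 0 → c ≤ D z) : c ≤ infOn D F := by
  obtain ⟨z, hz⟩ := hne
  refine le_csInf ⟨D z, z, hz, rfl⟩ ?_
  rintro _ ⟨w, hw, rfl⟩
  exact h w hw

theorem exists_lt_infOn {D F : (Fin N → ℝ) → ℝ} (hne : ∃ z, F z = 0) {c : ℝ}
    (h : infOn D F < c) : ∃ z, F z = 0 ∧ D z < c := by
  obtain ⟨z, hz⟩ := hne
  have hne' : (D '' {z | F z = 0}).Nonempty := ⟨D z, z, hz, rfl⟩
  obtain ⟨_, ⟨w, hw, rfl⟩, hlt⟩ := exists_lt_of_csInf_lt hne' h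
  exact ⟨w, hw, hlt⟩

theorem infOn_nonneg {D F : (Fin N → ℝ) → ℝ} (hD : ∀ z, 0 ≤ D z) (hne : ∃ z, F z = 0) :
    0 ≤ infOn D F := le_infOn hne (fun z _ => hD z)

/-- first limit: penalty methods -/
theorem tendsto_penalty (a : ℝ) (ha : 0 < a) (D F : (Fin N → ℝ) → ℝ) (hDc : Continuous D)
    (hFc : Continuous F) (hD : ∀ z, 0 ≤ D z) (hF : ∀ z, 0 ≤ F z) (hne : ∃ z, F z = 0)
    (mm : ℝ → ℝ) (hmm : ∀ l, 0 ≤ l → ∃ z, mm l = D z + l * F z + (∑ i, z i ^ 6) / (6 * a) ∧
      ∀ w, mm l ≤ D w + l * F w + (∑ i, w i ^ 6) / (6 * a)) :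
    Tendsto mm atTop (𝓝 (infOn (fun z => D z + (∑ i, z i ^ 6) / (6 * a)) F)) := by
  set h : (Fin N → ℝ) → ℝ := fun z => D z + (∑ i, z i ^ 6) / (6 * a) with hh
  have hs : ∀ z : Fin N → ℝ, 0 ≤ (∑ i, z i ^ 6) / (6 * a) := fun z => by
    have : 0 ≤ ∑ i, z i ^ 6 := Finset.sum_nonneg (fun i _ => by positivity)
    positivity
  have hh0 : ∀ z, 0 ≤ h z := fun z => add_nonneg (hD z) (hs z)
  have hhc : Continuous h := by
    refine hDc.add (Continuous.div_const ?_ _)
    exact continuous_finsetSum _ (fun i _ => (continuous_apply i).pow 6)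
  set V := infOn h F with hV
  have hV0 : 0 ≤ V := infOn_nonneg hh0 hne
  have hup : ∀ l, 0 ≤ l → mm l ≤ V := by
    intro l hl
    refine le_infOn hne (fun z hz => ?_)
    obtain ⟨_, _, h2⟩ := hmm l hl
    have := h2 z
    rw [hz, mul_zero, add_zero] at this
    exact this
  rw [Metric.tendsto_atTop]
  intro δ hδ
  have key : ∃ l₀ : ℝ, 0 ≤ l₀ ∧ ∀ l, l₀ ≤ l → V - δ / 2 ≤ mm l := by
    have hcomp : IsCompact {z | h z ≤ V - δ / 2} := by
      refine Metric.isCompact_of_isClosed_isBounded (isClosed_le hhc continuous_const) ?_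
      rw [isBounded_iff_forall_norm_le]
      refine ⟨6 * a * V + 2, fun z hz => ?_⟩
      have h1 := norm_pow_le z
      have h2 : (∑ i, z i ^ 6) / (6 * a) ≤ V := by
        have h3 : h z ≤ V - δ / 2 := hz
        have h4 := hD z
        have h5 : h z = D z + (∑ i, z i ^ 6) / (6 * a) := rfl
        linarith
      rw [div_le_iff₀ (by positivity)] at h2
      by_cases h4 : ‖z‖ ≤ 1
      · have : 0 ≤ 6 * a * V := by positivity
        linarith
      · push Not at h4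
        have h5 : ‖z‖ ≤ ‖z‖ ^ 6 := le_self_pow₀ h4.le (by norm_num)
        linarith
    by_cases hemp : {z | h z ≤ V - δ / 2} = ∅
    · refine ⟨0, le_rfl, fun l hl => ?_⟩
      obtain ⟨z, h1, _⟩ := hmm l hl
      have h2 : z ∉ {z | h z ≤ V - δ / 2} := by rw [hemp]; exact fun h => h
      have h3 : V - δ / 2 < h z := not_le.1 h2
      have h4 : 0 ≤ l * F z := mul_nonneg hl (hF z)
      have h5 : h z = D z + (∑ i, z i ^ 6) / (6 * a) := rfl
      rw [h1]
      linarith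
    · obtain ⟨zc, hzc, hmin⟩ := hcomp.exists_isMinOn (Set.nonempty_iff_ne_empty.2 hemp)
        hFc.continuousOn
      have hc : 0 < F zc := by
        refine lt_of_le_of_ne (hF zc) (fun h0 => ?_)
        have h1 : V ≤ h zc := infOn_le hh0 h0.symm
        have h2 : h zc ≤ V - δ / 2 := hzc
        linarith
      refine ⟨V / F zc, by positivity, fun l hl => ?_⟩
      have hl0 : 0 ≤ l := le_trans (by positivity) hl
      obtain ⟨z, h1, _⟩ := hmm l hl0
      have h5 : h z = D z + (∑ i, z i ^ 6) / (6 * a) := rfl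
      have h6 := hh0 z
      by_cases hz : z ∈ {z | h z ≤ V - δ / 2}
      · have h2 : F zc ≤ F z := hmin hz
        have h3 : V ≤ l * F zc := (div_le_iff₀ hc).1 hl
        have h4 : l * F zc ≤ l * F z := mul_le_mul_of_nonneg_left h2 hl0
        rw [h1]
        linarith
      · have h3 : V - δ / 2 < h z := not_le.1 hz
        have h4 : 0 ≤ l * F z := mul_nonneg hl0 (hF z)
        rw [h1]
        linarith
  obtain ⟨l₀, hl₀, hl⟩ := key
  refine ⟨l₀, fun l hll => ?_⟩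
  have h1 := hl l hll
  have h2 := hup l (hl₀.trans hll)
  rw [Real.dist_eq, abs_lt]
  constructor <;> linarith

/-- second limit -/
theorem tendsto_perturb (D F : (Fin N → ℝ) → ℝ) (hD : ∀ z, 0 ≤ D z) (hne : ∃ z, F z = 0) :
    Tendsto (fun a : ℝ => infOn (fun z => D z + (∑ i, z i ^ 6) / (6 * a)) F) atTop
      (𝓝 (infOn D F)) := by
  rw [Metric.tendsto_atTop]
  intro δ hδ
  obtain ⟨z, hz, hlt⟩ := exists_lt_infOn hne (show infOn D F < infOn D F + δ / 2 by linarith)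
  have hS : 0 ≤ ∑ i, z i ^ 6 := Finset.sum_nonneg (fun i _ => by positivity)
  refine ⟨(∑ i, z i ^ 6) / δ + 1, fun a ha => ?_⟩
  have ha0 : 0 < a := by
    have : 0 ≤ (∑ i, z i ^ 6) / δ := by positivity
    linarith
  have hs : ∀ z : Fin N → ℝ, 0 ≤ (∑ i, z i ^ 6) / (6 * a) := fun z => by
    have : 0 ≤ ∑ i, z i ^ 6 := Finset.sum_nonneg (fun i _ => by positivity)
    positivity
  have h1 : infOn D F ≤ infOn (fun z => D z + (∑ i, z i ^ 6) / (6 * a)) F :=
    le_infOn hne (fun w hw => (infOn_le hD hw).trans (le_add_of_nonneg_right (hs w)))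
  have h2 : infOn (fun z => D z + (∑ i, z i ^ 6) / (6 * a)) F ≤
      D z + (∑ i, z i ^ 6) / (6 * a) :=
    infOn_le (D := fun z => D z + (∑ i, z i ^ 6) / (6 * a))
      (fun w => add_nonneg (hD w) (hs w)) hz
  have h3 : (∑ i, z i ^ 6) / (6 * a) ≤ δ / 6 := by
    rw [div_le_div_iff₀ (by positivity) (by norm_num)]
    have h4 : (∑ i, z i ^ 6) / δ ≤ a := by linarith
    rw [div_le_iff₀ hδ] at h4
    nlinarith
  rw [Real.dist_eq, abs_lt]
  constructor <;> linarith

/-- a real algebraic optimisation problem depending on a parameter -/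
structure Prob (N : ℕ) where
  D : PZ N
  F : PZ N
  Dr : ℝ → (Fin N → ℝ) → ℝ
  Fr : ℝ → (Fin N → ℝ) → ℝ
  hD : ∀ θ z, ev θ z D = Dr (θ 2) z
  hF : ∀ θ z, ev θ z F = Fr (θ 2) z
  degD : D.totalDegree ≤ 4
  degF : F.totalDegree ≤ 4
  hD0 : ∀ b z, 0 ≤ b → 0 ≤ Dr b z
  hF0 : ∀ b z, 0 ≤ b → 0 ≤ Fr b z

/-- the bound -/
def HB (N L : ℕ) : ℕ := hgt N (4 * L + 1) ((6 + 4 * N) * L) 5

theorem cons_eq (l a b t : ℝ) : (Fin.snoc (![l, a, b] : Fin 3 → ℝ) t : Fin 4 → ℝ) =
    Fin.cons l ![a, b, t] := by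
  funext i
  fin_cases i <;> rfl

theorem Prob.limit_root (P : Prob N) (L : ℕ) (hL : (plen N).len P.D + (plen N).len P.F ≤ L)
    (hne : ∀ᶠ b in atTop, ∃ z, P.Fr b z = 0) (e : ℝ)
    (he : Tendsto (fun b => infOn (P.Dr b) (P.Fr b)) atTop (𝓝 e)) :
    ∃ Ψ : MvPolynomial (Fin 1) ℤ, Ψ ≠ 0 ∧ zlen Ψ ≤ HB N L ∧ aeval (fun _ => 6 * e) Ψ = 0 := by
  set G : PZ N := P.D + C (X 0) * P.F with hG
  have hdeg : G.totalDegree ≤ 4 := by
    refine (totalDegree_add _ _).trans (max_le P.degD ?_)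
    refine (totalDegree_mul _ _).trans ?_
    rw [totalDegree_C, Nat.zero_add]
    exact P.degF
  have hlen : (plen N).len G ≤ L := by
    refine ((plen N).add _ _).trans (le_trans (Nat.add_le_add_left ?_ _) hL)
    refine ((plen N).mul _ _).trans ?_
    calc _ ≤ 1 * (plen N).len P.F :=
          Nat.mul_le_mul_right _ ((mvLen_C alen (X 0)).trans (mvLen_X intLen 0))
      _ = (plen N).len P.F := one_mul _
  obtain ⟨Ψ, hΨ0, hΨl, hΨ⟩ := exists_psi' G hdeg L hlen
  have hev : ∀ l a b z, Gf ![l, a, b] G z = P.Dr b z + l * P.Fr b z + (∑ i, z i ^ 6) / (6 * a) := by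
    intro l a b z
    unfold Gf
    rw [hG, map_add, map_mul, ev_C, par_X, P.hD, P.hF]
    rfl
  have cD : ∀ b, Continuous (P.Dr b) := fun b => by
    have : P.Dr b = fun z => ev ![0, 0, b] z P.D := by
      funext z
      rw [P.hD]
      rfl
    rw [this]
    exact continuous_ev _ _
  have cF : ∀ b, Continuous (P.Fr b) := fun b => by
    have : P.Fr b = fun z => ev ![0, 0, b] z P.F := by
      funext z
      rw [P.hF]
      rfl
    rw [this]
    exact continuous_ev _ _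
  -- first limit
  have step1 : ∀ a b : ℝ, 0 < a → 0 ≤ b → (∃ z, P.Fr b z = 0) →
      aeval (![a, b, 6 * infOn (fun z => P.Dr b z + (∑ i, z i ^ 6) / (6 * a)) (P.Fr b)] :
        Fin 3 → ℝ) (top Ψ) = 0 := by
    intro a b ha hb hz
    have hmin : ∀ l : ℝ, 0 ≤ l → ∃ z, ∀ w, Gf ![l, a, b] G z ≤ Gf ![l, a, b] G w := by
      intro l hl
      refine exists_min _ ha G (fun z => ?_)
      rw [hG, map_add, map_mul, ev_C, par_X, P.hD, P.hF]
      exact add_nonneg (P.hD0 b z hb) (mul_nonneg hl (P.hF0 b z hb))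
    have hex : ∀ l : ℝ, ∃ y : ℝ, 0 ≤ l → ∃ z, y = Gf ![l, a, b] G z ∧
        ∀ w, Gf ![l, a, b] G z ≤ Gf ![l, a, b] G w := by
      intro l
      by_cases hl : 0 ≤ l
      · obtain ⟨z, hz⟩ := hmin l hl
        exact ⟨Gf ![l, a, b] G z, fun _ => ⟨z, rfl, hz⟩⟩
      · exact ⟨0, fun h => absurd h hl⟩
    choose mm hmm using hex
    have ht : Tendsto mm atTop
        (𝓝 (infOn (fun z => P.Dr b z + (∑ i, z i ^ 6) / (6 * a)) (P.Fr b))) := by
      refine tendsto_penalty a ha (P.Dr b) (P.Fr b) (cD b) (cF b) (fun z => P.hD0 b z hb)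
        (fun z => P.hF0 b z hb) hz mm (fun l hl => ?_)
      obtain ⟨z, h1, h2⟩ := hmm l hl
      refine ⟨z, by rw [h1, hev], fun w => ?_⟩
      rw [h1, ← hev]
      exact h2 w
    refine top_limit Ψ (fun l => ![a, b, 6 * mm l]) _ ?_ ?_
    · rw [tendsto_pi_nhds]
      intro i
      fin_cases i
      · exact tendsto_const_nhds
      · exact tendsto_const_nhds
      · exact ht.const_mul 6
    · filter_upwards [eventually_ge_atTop (0 : ℝ)] with l hl
      obtain ⟨z, h1, h2⟩ := hmm l hl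
      have h3 := hΨ ![l, a, b] ha z h2
      rw [← h1] at h3
      rw [← cons_eq]
      exact h3
  -- second limit
  have step2 : ∀ b : ℝ, 0 ≤ b → (∃ z, P.Fr b z = 0) →
      aeval (![b, 6 * infOn (P.Dr b) (P.Fr b)] : Fin 2 → ℝ) (top (top Ψ)) = 0 := by
    intro b hb hz
    refine top_limit (top Ψ) (fun a => ![b, 6 * infOn (fun z => P.Dr b z + (∑ i, z i ^ 6) /
      (6 * a)) (P.Fr b)]) _ ?_ ?_
    · rw [tendsto_pi_nhds]
      intro i
      fin_cases i
      · exact tendsto_const_nhds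
      · exact (tendsto_perturb (P.Dr b) (P.Fr b) (fun z => P.hD0 b z hb) hz).const_mul 6
    · filter_upwards [eventually_gt_atTop (0 : ℝ)] with a ha
      exact step1 a b ha hb hz
  refine ⟨top (top (top Ψ)), top_ne_zero (top_ne_zero (top_ne_zero hΨ0)),
    ((zlen_top _).trans ((zlen_top _).trans (zlen_top _))).trans hΨl, ?_⟩
  have h3 : aeval (![6 * e] : Fin 1 → ℝ) (top (top (top Ψ))) = 0 := by
    refine top_limit (top (top Ψ)) (fun b => ![6 * infOn (P.Dr b) (P.Fr b)]) _ ?_ ?_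
    · rw [tendsto_pi_nhds]
      intro i
      fin_cases i
      exact he.const_mul 6
    · filter_upwards [eventually_ge_atTop (0 : ℝ), hne] with b hb hz
      exact step2 b hb hz
  have h4 : (![6 * e] : Fin 1 → ℝ) = fun _ => 6 * e := by
    funext i
    fin_cases i
    rfl
  rwa [h4] at h3

/-- upper bound for limits of infima -/
theorem Prob.upper (P : Prob N) (L : ℕ) (hL : (plen N).len P.D + (plen N).len P.F ≤ L)
    (hne : ∀ᶠ b in atTop, ∃ z, P.Fr b z = 0) (e : ℝ)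
    (he : Tendsto (fun b => infOn (P.Dr b) (P.Fr b)) atTop (𝓝 e)) : e ≤ HB N L := by
  obtain ⟨Ψ, h1, h2, h3⟩ := P.limit_root L hL hne e he
  have h4 := root_upper Ψ h1 _ h3
  have h5 : (zlen Ψ : ℝ) ≤ HB N L := by exact_mod_cast h2
  have h6 : 0 ≤ e := by
    refine ge_of_tendsto he ?_
    filter_upwards [eventually_ge_atTop (0 : ℝ), hne] with b hb hz
    exact infOn_nonneg (fun z => P.hD0 b z hb) hz
  have h7 : |6 * e| = 6 * e := abs_of_nonneg (by positivity)
  rw [h7] at h4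
  linarith

/-- lower bound for positive infima -/
theorem Prob.lower (P : Prob N) (L : ℕ) (hL : (plen N).len P.D + (plen N).len P.F ≤ L)
    (hne : ∀ᶠ b in atTop, ∃ z, P.Fr b z = 0) (e : ℝ)
    (he : Tendsto (fun b => infOn (P.Dr b) (P.Fr b)) atTop (𝓝 e)) (he0 : e ≠ 0) :
    1 ≤ HB N L * (6 * e) := by
  obtain ⟨Ψ, h1, h2, h3⟩ := P.limit_root L hL hne e he
  have h4 := root_lower Ψ h1 _ h3 (by positivity)
  have h5 : (zlen Ψ : ℝ) ≤ HB N L := by exact_mod_cast h2
  have h6 : 0 ≤ e := by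
    refine ge_of_tendsto he ?_
    filter_upwards [eventually_ge_atTop (0 : ℝ), hne] with b hb hz
    exact infOn_nonneg (fun z => P.hD0 b z hb) hz
  have h7 : |6 * e| = 6 * e := abs_of_nonneg (by positivity)
  rw [h7] at h4
  exact h4.trans (mul_le_mul_of_nonneg_right h5 (by positivity))

end Pool.Agent.Helper53_Closed
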