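import Pool.Agent.Helper53_Closed.Top

/-!
# Elimination by multiplication matrices
-/

namespace Pool.Agent.Helper53_Closed

open MvPolynomial

/-- polynomials in the three parameters -/
abbrev A0 : Type := MvPolynomial (Fin 3) ℤ

/-- polynomials in `N` variables with coefficients depending on the parameters -/
abbrev PZ (N : ℕ) : Type := MvPolynomial (Fin N) A0

/-- evaluation of the parameters -/
noncomputable def par (θ : Fin 3 → ℝ) : A0 →+* ℝ := ((aeval θ : A0 →ₐ[ℤ] ℝ) : A0 →+* ℝ)

/-- evaluation -/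
noncomputable def ev {N : ℕ} (θ : Fin 3 → ℝ) (z : Fin N → ℝ) : PZ N →+* ℝ :=
  eval₂Hom (par θ) z

theorem ev_eq {N : ℕ} (θ : Fin 3 → ℝ) (z : Fin N → ℝ) (p : PZ N) :
    ev θ z p = ∑ m ∈ p.support, par θ (p.coeff m) * ∏ i, z i ^ m i := eval₂_eq' _ _ _

/-- lengths of polynomials in the parameters -/
noncomputable def alen : Len A0 := mvLen intLen

/-- lengths of polynomials -/
noncomputable def plen (N : ℕ) : Len (PZ N) := mvLen alen

theorem deg_of_mem {N : ℕ} {p : PZ N} {m : Fin N →₀ ℕ} (hm : m ∈ p.support) :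
    ∑ i, m i ≤ p.totalDegree := by
  have h := le_totalDegree hm
  rwa [Finsupp.sum_fintype _ _ (fun _ => rfl)] at h

theorem reduce {N : ℕ} (g : Fin N → PZ N) (K : ℕ) (hK1 : 1 ≤ K)
    (hdeg : ∀ i, (g i).totalDegree ≤ 4) (hK : ∀ i, (plen N).len (g i) ≤ K) :
    ∀ (d : ℕ) (β : Fin N → ℕ), ∑ i, β i ≤ d → ∃ c : (Fin N → Fin 5) → A0,
      ∑ α, alen.len (c α) ≤ K ^ d ∧
      ∀ (θ : Fin 3 → ℝ) (z : Fin N → ℝ), (∀ i, z i ^ 5 = ev θ z (g i)) →
        ∏ i, z i ^ β i = ∑ α, par θ (c α) * ∏ i, z i ^ (α i : ℕ) := by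
  classical
  intro d
  induction d with
  | zero =>
    intro β hβ
    have h0 : ∀ i, β i = 0 := by
      intro i
      have := Finset.single_le_sum (f := β) (fun _ _ => Nat.zero_le _) (Finset.mem_univ i)
      omega
    refine ⟨Pi.single 0 1, ?_, fun θ z _ => ?_⟩
    · rw [Finset.sum_eq_single (0 : Fin N → Fin 5)]
      · rw [Pi.single_eq_same, pow_zero]
        exact alen.one
      · intro α _ hα
        rw [Pi.single_eq_of_ne hα]
        exact alen.zero
      · intro h
        exact absurd (Finset.mem_univ _) h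
    · rw [Finset.sum_eq_single (0 : Fin N → Fin 5)]
      · rw [Pi.single_eq_same, map_one]
        simp [h0]
      · intro α _ hα
        rw [Pi.single_eq_of_ne hα, map_zero, zero_mul]
      · intro h
        exact absurd (Finset.mem_univ _) h
  | succ d ih =>
    intro β hβ
    by_cases hall : ∀ i, β i < 5
    · let α₀ : Fin N → Fin 5 := fun i => ⟨β i, hall i⟩
      refine ⟨Pi.single α₀ 1, ?_, fun θ z _ => ?_⟩
      · rw [Finset.sum_eq_single α₀]
        · rw [Pi.single_eq_same]
          exact alen.one.trans (Nat.one_le_pow _ _ hK1)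
        · intro α _ hα
          rw [Pi.single_eq_of_ne hα]
          exact alen.zero
        · intro h
          exact absurd (Finset.mem_univ _) h
      · rw [Finset.sum_eq_single α₀]
        · rw [Pi.single_eq_same, map_one, one_mul]
        · intro α _ hα
          rw [Pi.single_eq_of_ne hα, map_zero, zero_mul]
        · intro h
          exact absurd (Finset.mem_univ _) h
    · push Not at hall
      obtain ⟨i, hi⟩ := hall
      let β' : Fin N → ℕ := Function.update β i (β i - 5)
      have hsum : ∑ j, β' j + 5 = ∑ j, β j := by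
        rw [← Finset.add_sum_erase _ _ (Finset.mem_univ i),
          ← Finset.add_sum_erase _ β (Finset.mem_univ i)]
        have h1 : β' i = β i - 5 := Function.update_self _ _ _
        have h2 : ∑ j ∈ Finset.univ.erase i, β' j = ∑ j ∈ Finset.univ.erase i, β j :=
          Finset.sum_congr rfl (fun j hj => Function.update_of_ne (Finset.ne_of_mem_erase hj) _ _)
        rw [h1, h2]
        omega
      have hd : ∀ m : Fin N →₀ ℕ, m ∈ (g i).support → ∑ j, (β' j + m j) ≤ d := by
        intro m hm
        have h1 := (deg_of_mem hm).trans (hdeg i)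
        rw [Finset.sum_add_distrib]
        omega
      have hex : ∀ m : Fin N →₀ ℕ, ∃ c : (Fin N → Fin 5) → A0, m ∈ (g i).support →
          (∑ α, alen.len (c α) ≤ K ^ d ∧
          ∀ (θ : Fin 3 → ℝ) (z : Fin N → ℝ), (∀ i, z i ^ 5 = ev θ z (g i)) →
            ∏ j, z j ^ (β' j + m j) = ∑ α, par θ (c α) * ∏ i, z i ^ (α i : ℕ)) := by
        intro m
        by_cases hm : m ∈ (g i).support
        · obtain ⟨c, hc⟩ := ih (fun j => β' j + m j) (hd m hm)
          exact ⟨c, fun _ => hc⟩
        · exact ⟨0, fun h => absurd h hm⟩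
      choose c hc using hex
      refine ⟨fun α => ∑ m ∈ (g i).support, (g i).coeff m * c m α, ?_, fun θ z hz => ?_⟩
      · calc ∑ α, alen.len (∑ m ∈ (g i).support, (g i).coeff m * c m α) ≤
              ∑ α, ∑ m ∈ (g i).support, alen.len ((g i).coeff m) * alen.len (c m α) :=
              Finset.sum_le_sum (fun α _ => (alen.sum _ _).trans
                (Finset.sum_le_sum (fun m _ => alen.mul _ _)))
          _ = ∑ m ∈ (g i).support, alen.len ((g i).coeff m) * ∑ α, alen.len (c m α) := by
              rw [Finset.sum_comm]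
              exact Finset.sum_congr rfl (fun m _ => by rw [Finset.mul_sum])
          _ ≤ ∑ m ∈ (g i).support, alen.len ((g i).coeff m) * K ^ d :=
              Finset.sum_le_sum (fun m hm => Nat.mul_le_mul_left _ (hc m hm).1)
          _ = (plen N).len (g i) * K ^ d := by
              rw [← Finset.sum_mul]
              rfl
          _ ≤ K * K ^ d := Nat.mul_le_mul_right _ (hK i)
          _ = K ^ (d + 1) := by rw [pow_succ]; ring
      · have h1 : ∏ j, z j ^ β j = z i ^ 5 * ∏ j, z j ^ β' j := by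
          rw [← Finset.mul_prod_erase _ (fun j => z j ^ β j) (Finset.mem_univ i),
            ← Finset.mul_prod_erase _ (fun j => z j ^ β' j) (Finset.mem_univ i), ← mul_assoc]
          have h2 : z i ^ 5 * z i ^ β' i = z i ^ β i := by
            rw [← pow_add]
            congr 1
            have h1 : β' i = β i - 5 := Function.update_self _ _ _
            omega
          rw [h2]
          congr 1
          refine Finset.prod_congr rfl (fun j hj => ?_)
          have : β' j = β j := Function.update_of_ne (Finset.ne_of_mem_erase hj) _ _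
          rw [this]
        rw [h1, hz i, ev_eq, Finset.sum_mul]
        have h3 : ∀ m ∈ (g i).support, par θ ((g i).coeff m) * (∏ j, z j ^ m j) * ∏ j, z j ^ β' j =
            ∑ α, par θ ((g i).coeff m * c m α) * ∏ i, z i ^ (α i : ℕ) := by
          intro m hm
          have h4 := (hc m hm).2 θ z hz
          have h5 : ∏ j, z j ^ (β' j + m j) = (∏ j, z j ^ m j) * ∏ j, z j ^ β' j := by
            rw [← Finset.prod_mul_distrib]
            refine Finset.prod_congr rfl (fun j _ => ?_)
            rw [pow_add, mul_comm]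
          rw [h5] at h4
          rw [mul_assoc, h4, Finset.mul_sum]
          refine Finset.sum_congr rfl (fun α _ => ?_)
          rw [map_mul, mul_assoc]
        rw [Finset.sum_congr rfl h3, Finset.sum_comm]
        refine Finset.sum_congr rfl (fun α _ => ?_)
        rw [map_sum, Finset.sum_mul]

/-- the matrix `t - M` -/
noncomputable def pmat {I : Type} [DecidableEq I] (M : Matrix I I A0) :
    Matrix I I (MvPolynomial (Fin 4) ℤ) :=
  Matrix.of fun i j => (if i = j then X (Fin.last 3) else 0) - rename Fin.castSucc (M i j)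

theorem map_pmat {I : Type} [DecidableEq I] [Fintype I] {S : Type} [CommRing S]
    (f : MvPolynomial (Fin 4) ℤ →+* S) (M : Matrix I I A0) :
    f (pmat M).det = Matrix.det (Matrix.of fun i j => (if i = j then f (X (Fin.last 3)) else 0) -
      f (rename Fin.castSucc (M i j))) := by
  rw [RingHom.map_det]
  congr 1
  refine Matrix.ext (fun i j => ?_)
  rw [RingHom.mapMatrix_apply, Matrix.map_apply, pmat, Matrix.of_apply, Matrix.of_apply, map_sub,
    apply_ite f, map_zero]

theorem charpoly_eq {I : Type} [DecidableEq I] [Fintype I] (M : Matrix I I A0) :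
    M.charpoly = Matrix.det (Matrix.of fun i j => (if i = j then Polynomial.X else 0) -
      Polynomial.C (M i j)) := by
  unfold Matrix.charpoly
  congr 1

/-- the homomorphism to univariate polynomials -/
noncomputable def toUni : MvPolynomial (Fin 4) ℤ →+* Polynomial A0 :=
  ((aeval (Fin.snoc (fun i => Polynomial.C (X i)) Polynomial.X : Fin 4 → Polynomial A0) :
    MvPolynomial (Fin 4) ℤ →ₐ[ℤ] Polynomial A0) : _ →+* _)

theorem toUni_last : toUni (X (Fin.last 3)) = Polynomial.X := by
  unfold toUni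
  rw [RingHom.coe_coe, aeval_X, Fin.snoc_last]

theorem toUni_rename (p : A0) : toUni (rename Fin.castSucc p) = Polynomial.C p := by
  unfold toUni
  rw [RingHom.coe_coe, aeval_rename]
  have h2 : (Fin.snoc (fun i => Polynomial.C (X i)) Polynomial.X : Fin 4 → Polynomial A0) ∘
      Fin.castSucc = fun i => Polynomial.C (X i) := by
    funext i
    simp [Function.comp]
  rw [h2]
  induction p using MvPolynomial.induction_on with
  | C a =>
    have h1 : (C a : A0) = (a : A0) := eq_intCast C a
    rw [h1, map_intCast, map_intCast]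
  | add p q hp hq => rw [map_add, map_add, hp, hq]
  | mul_X p i hp => rw [map_mul, map_mul, hp, aeval_X]

/-- evaluation of the parameters and of `t` -/
noncomputable def evt (θ : Fin 3 → ℝ) (t : ℝ) : MvPolynomial (Fin 4) ℤ →+* ℝ :=
  ((aeval (Fin.snoc θ t : Fin 4 → ℝ) : MvPolynomial (Fin 4) ℤ →ₐ[ℤ] ℝ) : _ →+* _)

theorem evt_last (θ : Fin 3 → ℝ) (t : ℝ) : evt θ t (X (Fin.last 3)) = t := by
  unfold evt
  rw [RingHom.coe_coe, aeval_X, Fin.snoc_last]

theorem evt_rename (θ : Fin 3 → ℝ) (t : ℝ) (p : A0) :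
    evt θ t (rename Fin.castSucc p) = par θ p := by
  unfold evt par
  rw [RingHom.coe_coe, aeval_rename, RingHom.coe_coe]
  have h2 : (Fin.snoc θ t : Fin 4 → ℝ) ∘ Fin.castSucc = θ := by
    funext i
    simp [Function.comp]
  rw [h2]

theorem pmat_ne_zero {I : Type} [DecidableEq I] [Fintype I] (M : Matrix I I A0) :
    (pmat M).det ≠ 0 := by
  intro h0
  have h1 : toUni (pmat M).det = M.charpoly := by
    rw [map_pmat, charpoly_eq]
    congr 1
    refine Matrix.ext (fun i j => ?_)
    rw [Matrix.of_apply, Matrix.of_apply, toUni_last, toUni_rename]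
  rw [h0, map_zero] at h1
  exact (Matrix.charpoly_monic M).ne_zero h1.symm

theorem pmat_len {I : Type} [DecidableEq I] [Fintype I] (M : Matrix I I A0) (B : ℕ)
    (hM : ∀ i j, alen.len (M i j) ≤ B) :
    zlen (pmat M).det ≤ (Fintype.card I).factorial * (1 + B) ^ Fintype.card I := by
  refine (mvLen intLen).det (pmat M) (1 + B) (fun i j => ?_)
  rw [pmat, Matrix.of_apply]
  refine ((mvLen intLen).sub _ _).trans (Nat.add_le_add ?_ ?_)
  · split_ifs
    · exact mvLen_X intLen _
    · rw [(mvLen intLen).zero]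
      exact Nat.zero_le _
  · exact (mvLen_rename intLen _ _).trans (hM i j)

theorem pmat_vanish {I : Type} [DecidableEq I] [Fintype I] (M : Matrix I I A0)
    (θ : Fin 3 → ℝ) (t : ℝ) (v : I → ℝ) (hv : v ≠ 0)
    (h : ∀ i, t * v i = ∑ j, par θ (M i j) * v j) : evt θ t (pmat M).det = 0 := by
  rw [map_pmat, ← Matrix.exists_mulVec_eq_zero_iff]
  refine ⟨v, hv, ?_⟩
  funext i
  rw [Matrix.mulVec, dotProduct]
  simp only [Matrix.of_apply, evt_last, evt_rename, sub_mul, Finset.sum_sub_distrib, ite_mul,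
    zero_mul, Finset.sum_ite_eq, Finset.mem_univ, if_true]
  rw [h i, sub_self]
  rfl

/-- the height bound -/
def hgt (N K KQ dQ : ℕ) : ℕ := (5 ^ N).factorial * (1 + KQ * K ^ (4 * N + dQ)) ^ (5 ^ N)

theorem exists_psi {N : ℕ} (g : Fin N → PZ N) (K : ℕ) (hK1 : 1 ≤ K)
    (hdeg : ∀ i, (g i).totalDegree ≤ 4) (hK : ∀ i, (plen N).len (g i) ≤ K)
    (Q : PZ N) (KQ dQ : ℕ) (hQ : (plen N).len Q ≤ KQ) (hQd : Q.totalDegree ≤ dQ) :
    ∃ Ψ : MvPolynomial (Fin 4) ℤ, Ψ ≠ 0 ∧ zlen Ψ ≤ hgt N K KQ dQ ∧
      ∀ (θ : Fin 3 → ℝ) (z : Fin N → ℝ), (∀ i, z i ^ 5 = ev θ z (g i)) →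
        evt θ (ev θ z Q) Ψ = 0 := by
  classical
  have hex : ∀ (α : Fin N → Fin 5) (m : Fin N →₀ ℕ), ∃ c : (Fin N → Fin 5) → A0,
      m ∈ Q.support → (∑ α', alen.len (c α') ≤ K ^ (4 * N + dQ) ∧
      ∀ (θ : Fin 3 → ℝ) (z : Fin N → ℝ), (∀ i, z i ^ 5 = ev θ z (g i)) →
        ∏ j, z j ^ ((α j : ℕ) + m j) = ∑ α', par θ (c α') * ∏ i, z i ^ (α' i : ℕ)) := by
    intro α m
    by_cases hm : m ∈ Q.support
    · obtain ⟨c, hc⟩ := reduce g K hK1 hdeg hK (4 * N + dQ) (fun j => (α j : ℕ) + m j) (by
        rw [Finset.sum_add_distrib]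
        have h1 := (deg_of_mem hm).trans hQd
        have h2 : ∑ j, (α j : ℕ) ≤ 4 * N := by
          calc ∑ j, (α j : ℕ) ≤ ∑ _j : Fin N, 4 :=
                Finset.sum_le_sum (fun j _ => Nat.lt_succ_iff.1 (α j).isLt)
            _ = 4 * N := by simp [mul_comm]
        omega)
      exact ⟨c, fun _ => hc⟩
    · exact ⟨0, fun h => absurd h hm⟩
  choose c hc using hex
  let M : Matrix (Fin N → Fin 5) (Fin N → Fin 5) A0 :=
    Matrix.of fun α α' => ∑ m ∈ Q.support, Q.coeff m * c α m α'
  have hM : ∀ α α', alen.len (M α α') ≤ KQ * K ^ (4 * N + dQ) := by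
    intro α α'
    calc alen.len (M α α') ≤ ∑ m ∈ Q.support, alen.len (Q.coeff m) * alen.len (c α m α') :=
          (alen.sum _ _).trans (Finset.sum_le_sum (fun m _ => alen.mul _ _))
      _ ≤ ∑ m ∈ Q.support, alen.len (Q.coeff m) * K ^ (4 * N + dQ) := by
          refine Finset.sum_le_sum (fun m hm => Nat.mul_le_mul_left _ ?_)
          exact (Finset.single_le_sum (f := fun α' => alen.len (c α m α'))
            (fun _ _ => Nat.zero_le _) (Finset.mem_univ α')).trans (hc α m hm).1
      _ = (plen N).len Q * K ^ (4 * N + dQ) := by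
          rw [← Finset.sum_mul]
          rfl
      _ ≤ _ := Nat.mul_le_mul_right _ hQ
  refine ⟨(pmat M).det, pmat_ne_zero M, ?_, ?_⟩
  · have h2 := pmat_len M _ hM
    have h3 : Fintype.card (Fin N → Fin 5) = 5 ^ N := by simp
    rw [h3] at h2
    exact h2
  · intro θ z hz
    refine pmat_vanish M θ _ (fun α => ∏ i, z i ^ (α i : ℕ)) ?_ (fun α => ?_)
    · intro h
      have := congrFun h 0
      simp at this
    · rw [ev_eq, Finset.sum_mul]
      have h3 : ∀ m ∈ Q.support, par θ (Q.coeff m) * (∏ j, z j ^ m j) * ∏ j, z j ^ (α j : ℕ) =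
          ∑ α', par θ (Q.coeff m * c α m α') * ∏ i, z i ^ (α' i : ℕ) := by
        intro m hm
        have h4 := (hc α m hm).2 θ z hz
        have h5 : ∏ j, z j ^ ((α j : ℕ) + m j) = (∏ j, z j ^ m j) * ∏ j, z j ^ (α j : ℕ) := by
          rw [← Finset.prod_mul_distrib]
          refine Finset.prod_congr rfl (fun j _ => ?_)
          rw [pow_add, mul_comm]
        rw [h5] at h4
        rw [mul_assoc, h4, Finset.mul_sum]
        refine Finset.sum_congr rfl (fun α' _ => ?_)
        rw [map_mul, mul_assoc]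
      rw [Finset.sum_congr rfl h3, Finset.sum_comm]
      refine Finset.sum_congr rfl (fun α' _ => ?_)
      show _ = par θ (∑ m ∈ Q.support, Q.coeff m * c α m α') * _
      rw [map_sum, Finset.sum_mul]

end Pool.Agent.Helper53_Closed
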