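import Mathlib

/-!
# Lengths of polynomials with integer coefficients
-/

namespace Pool.Agent.Helper53_Closed

open MvPolynomial

/-- a length function on a ring -/
structure Len (R : Type) [CommRing R] where
  len : R → ℕ
  zero : len 0 = 0
  one : len 1 ≤ 1
  add : ∀ a b, len (a + b) ≤ len a + len b
  mul : ∀ a b, len (a * b) ≤ len a * len b
  neg : ∀ a, len (-a) ≤ len a

namespace Len

variable {R : Type} [CommRing R] (ℓ : Len R)

theorem sum {ι : Type} (s : Finset ι) (f : ι → R) : ℓ.len (∑ i ∈ s, f i) ≤ ∑ i ∈ s, ℓ.len (f i) := by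
  classical
  induction s using Finset.induction_on with
  | empty => simp [ℓ.zero]
  | insert a s ha ih =>
    rw [Finset.sum_insert ha, Finset.sum_insert ha]
    exact (ℓ.add _ _).trans (Nat.add_le_add_left ih _)

theorem prod {ι : Type} (s : Finset ι) (f : ι → R) :
    ℓ.len (∏ i ∈ s, f i) ≤ ∏ i ∈ s, ℓ.len (f i) := by
  classical
  induction s using Finset.induction_on with
  | empty => simpa using ℓ.one
  | insert a s ha ih =>
    rw [Finset.prod_insert ha, Finset.prod_insert ha]
    exact (ℓ.mul _ _).trans (Nat.mul_le_mul_left _ ih)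

theorem natCast (n : ℕ) : ℓ.len (n : R) ≤ n := by
  induction n with
  | zero => simp [ℓ.zero]
  | succ n ih =>
    rw [Nat.cast_succ]
    exact (ℓ.add _ _).trans (Nat.add_le_add ih ℓ.one)

theorem sub (a b : R) : ℓ.len (a - b) ≤ ℓ.len a + ℓ.len b := by
  rw [sub_eq_add_neg]
  exact (ℓ.add _ _).trans (Nat.add_le_add_left (ℓ.neg _) _)

theorem intUnit (a : R) (u : ℤˣ) : ℓ.len (u • a) ≤ ℓ.len a := by
  rcases Int.units_eq_one_or u with h | h
  · rw [h, one_smul]
  · rw [h, Units.neg_smul, one_smul]
    exact ℓ.neg a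

theorem det {n : Type} [DecidableEq n] [Fintype n] (M : Matrix n n R) (B : ℕ)
    (h : ∀ i j, ℓ.len (M i j) ≤ B) :
    ℓ.len M.det ≤ (Fintype.card n).factorial * B ^ Fintype.card n := by
  rw [Matrix.det_apply]
  refine (ℓ.sum _ _).trans ?_
  calc ∑ σ : Equiv.Perm n, ℓ.len (Equiv.Perm.sign σ • ∏ i, M (σ i) i) ≤
        ∑ _σ : Equiv.Perm n, B ^ Fintype.card n := by
        refine Finset.sum_le_sum (fun σ _ => ?_)
        refine (ℓ.intUnit _ _).trans ((ℓ.prod _ _).trans ?_)
        calc ∏ i, ℓ.len (M (σ i) i) ≤ ∏ _i : n, B :=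
              Finset.prod_le_prod' (fun i _ => h _ _)
          _ = B ^ Fintype.card n := by simp
    _ = (Fintype.card n).factorial * B ^ Fintype.card n := by
        simp [Fintype.card_perm]

end Len

/-- absolute values of integers -/
def intLen : Len ℤ where
  len := Int.natAbs
  zero := rfl
  one := le_rfl
  add := Int.natAbs_add_le
  mul := fun a b => (Int.natAbs_mul a b).le
  neg := fun a => (Int.natAbs_neg a).le

section Mv

variable {σ R : Type} [CommRing R] (ℓ : Len R)

/-- the sum of the lengths of the coefficients -/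
noncomputable def mlen (p : MvPolynomial σ R) : ℕ := ∑ m ∈ p.support, ℓ.len (p.coeff m)

theorem mlen_eq_sum {p : MvPolynomial σ R} {s : Finset (σ →₀ ℕ)} (h : p.support ⊆ s) :
    mlen ℓ p = ∑ m ∈ s, ℓ.len (p.coeff m) := by
  unfold mlen
  refine Finset.sum_subset h (fun m _ hm => ?_)
  rw [MvPolynomial.notMem_support_iff.1 hm, ℓ.zero]

theorem mlen_monomial (m : σ →₀ ℕ) (c : R) : mlen ℓ (monomial m c) ≤ ℓ.len c := by
  classical
  rw [mlen_eq_sum ℓ (support_monomial_subset (s := m) (a := c))]
  simp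

/-- lengths of polynomials in several variables -/
noncomputable def mvLen : Len (MvPolynomial σ R) where
  len := mlen ℓ
  zero := by simp [mlen]
  one := by
    refine (mlen_monomial ℓ 0 1).trans ℓ.one
  add := by
    classical
    intro a b
    rw [mlen_eq_sum ℓ (support_add (p := a) (q := b)),
      mlen_eq_sum ℓ (p := a) (s := a.support ∪ b.support) Finset.subset_union_left,
      mlen_eq_sum ℓ (p := b) (s := a.support ∪ b.support) Finset.subset_union_right,
      ← Finset.sum_add_distrib]
    refine Finset.sum_le_sum (fun m _ => ?_)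
    rw [coeff_add]
    exact ℓ.add _ _
  mul := by
    classical
    intro a b
    have hadd : ∀ a b : MvPolynomial σ R, mlen ℓ (a + b) ≤ mlen ℓ a + mlen ℓ b := by
      intro a b
      rw [mlen_eq_sum ℓ (support_add (p := a) (q := b)),
        mlen_eq_sum ℓ (p := a) (s := a.support ∪ b.support) Finset.subset_union_left,
        mlen_eq_sum ℓ (p := b) (s := a.support ∪ b.support) Finset.subset_union_right,
        ← Finset.sum_add_distrib]
      refine Finset.sum_le_sum (fun m _ => ?_)
      rw [coeff_add]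
      exact ℓ.add _ _
    have hsum : ∀ (s : Finset (σ →₀ ℕ)) (f : (σ →₀ ℕ) → MvPolynomial σ R),
        mlen ℓ (∑ i ∈ s, f i) ≤ ∑ i ∈ s, mlen ℓ (f i) := by
      intro s f
      induction s using Finset.induction_on with
      | empty => simp [mlen]
      | insert a s ha ih =>
        rw [Finset.sum_insert ha, Finset.sum_insert ha]
        exact (hadd _ _).trans (Nat.add_le_add_left ih _)
    have e : a * b = ∑ m ∈ a.support, ∑ m' ∈ b.support,
        monomial (m + m') (a.coeff m * b.coeff m') := by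
      conv_lhs => rw [a.as_sum, b.as_sum]
      rw [Finset.sum_mul_sum]
      refine Finset.sum_congr rfl (fun m _ => Finset.sum_congr rfl (fun m' _ => ?_))
      rw [monomial_mul]
    rw [e]
    refine (hsum _ _).trans ?_
    unfold mlen
    rw [Finset.sum_mul_sum]
    refine Finset.sum_le_sum (fun m _ => (hsum _ _).trans (Finset.sum_le_sum (fun m' _ => ?_)))
    exact (mlen_monomial ℓ _ _).trans (ℓ.mul _ _)
  neg := by
    intro a
    unfold mlen
    rw [support_neg]
    refine Finset.sum_le_sum (fun m _ => ?_)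
    rw [coeff_neg]
    exact ℓ.neg _

theorem mvLen_C (c : R) : (mvLen (σ := σ) ℓ).len (C c) ≤ ℓ.len c := mlen_monomial ℓ 0 c

theorem mvLen_X (i : σ) : (mvLen (σ := σ) ℓ).len (X i : MvPolynomial σ R) ≤ 1 :=
  (mlen_monomial ℓ _ 1).trans ℓ.one

theorem mvLen_pderiv (i : σ) (p : MvPolynomial σ R) :
    (mvLen (σ := σ) ℓ).len (pderiv i p) ≤ p.totalDegree * (mvLen (σ := σ) ℓ).len p := by
  classical
  conv_lhs => rw [p.as_sum, map_sum]
  refine ((mvLen ℓ).sum _ _).trans ?_
  show _ ≤ p.totalDegree * mlen ℓ p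
  unfold mlen
  rw [Finset.mul_sum]
  refine Finset.sum_le_sum (fun m hm => ?_)
  rw [pderiv_monomial]
  refine (mlen_monomial ℓ _ _).trans ((ℓ.mul _ _).trans ?_)
  rw [Nat.mul_comm]
  refine Nat.mul_le_mul_right _ ((ℓ.natCast _).trans ?_)
  refine le_trans ?_ (le_totalDegree hm)
  by_cases h : i ∈ m.support
  · exact Finset.single_le_sum (f := fun i => m i) (fun _ _ => Nat.zero_le _) h
  · rw [Finsupp.notMem_support_iff.1 h]
    exact Nat.zero_le _

theorem mvLen_rename {τ : Type} (f : σ → τ) (p : MvPolynomial σ R) :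
    (mvLen (σ := τ) ℓ).len (rename f p) ≤ (mvLen (σ := σ) ℓ).len p := by
  classical
  conv_lhs => rw [p.as_sum, map_sum]
  refine ((mvLen ℓ).sum _ _).trans ?_
  show _ ≤ mlen ℓ p
  unfold mlen
  refine Finset.sum_le_sum (fun m _ => ?_)
  rw [rename_monomial]
  exact mlen_monomial ℓ _ _

theorem totalDegree_pderiv_le (i : σ) (p : MvPolynomial σ R) :
    (pderiv i p).totalDegree ≤ p.totalDegree := by
  classical
  conv_lhs => rw [p.as_sum, map_sum]
  refine (totalDegree_finsetSum _ _).trans (Finset.sup_le (fun m hm => ?_))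
  rw [pderiv_monomial]
  refine (totalDegree_monomial_le _ _).trans ?_
  refine le_trans ?_ (le_totalDegree hm)
  show (m - Finsupp.single i 1).sum (fun _ e => e) ≤ m.sum (fun _ e => e)
  have h1 : m - Finsupp.single i 1 ≤ m := tsub_le_self
  exact Finsupp.sum_le_sum_index h1 (fun _ _ a b h => h) (fun _ _ => rfl)

end Mv

end Pool.Agent.Helper53_Closed
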