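import Pool.Agent.Helper53_Closed.Red

/-!
# Closedness is in `∀ℝ`
-/

namespace Pool.Agent.Helper53_Closed

open Pool.Agent.Helper53_CookLevin Pool.Agent.Helper53_Chan Turing
open Pool.Agent.Helper32_Poly

section Numbers

variable {m : ℕ}

/-- numerical functions -/
abbrev NumS (m : ℕ) (e : (Fin m → ℕ) → ℕ) : Prop := Num Sym.tick m e

theorem nconst (c : ℕ) : NumS m (fun _ => c) := Helper53_CookLevin.Num.const _ c

theorem nvar (j : Fin m) : NumS m (fun a => a j) := Helper53_CookLevin.Num.var _ j

theorem nadd {e e' : (Fin m → ℕ) → ℕ} (h : NumS m e) (h' : NumS m e') :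
    NumS m (fun a => e a + e' a) := Helper53_CookLevin.Num.add h h'

theorem nmul {e e' : (Fin m → ℕ) → ℕ} (h : NumS m e) (h' : NumS m e') :
    NumS m (fun a => e a * e' a) := Helper53_CookLevin.Num.mul h h'

theorem lcongr {f g : (Fin m → ℕ) → List Sym} (hf : LGen m f) (h : ∀ a, f a = g a) :
    LGen m g := by
  have : f = g := funext h
  rwa [← this]

theorem gen_vw {j : (Fin m → ℕ) → ℕ} (hj : NumS m j) : LGen m (fun a => vw (j a)) :=
  LGen.append (LGen.const [Sym.var]) (LGen.append hj (LGen.const [Sym.stop]))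

theorem gen_minusW {f g : (Fin m → ℕ) → List Sym} (hf : LGen m f) (hg : LGen m g) :
    LGen m (fun a => minusW (f a) (g a)) :=
  LGen.append (LGen.const [Sym.add]) (LGen.append hf (LGen.append (LGen.const [Sym.mul])
    (LGen.append (LGen.const (cword (-1))) hg)))

theorem gen_chainW0 {e : (Fin m → ℕ) → ℕ} (he : NumS m e) : LGen m (fun a => chainW0 (e a)) :=
  LGen.append (LGen.const [Sym.and, Sym.eq]) (LGen.append (gen_minusW
    (gen_vw (nmul (nconst 2) he)) (LGen.const (cword 2))) (LGen.const [Sym.fin]))

theorem gen_chainW {e k : (Fin m → ℕ) → ℕ} (he : NumS m e) (hk : NumS m k) :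
    LGen m (fun a => chainW (e a) (k a)) := by
  have h1 : NumS m (fun a => 2 * e a + (k a + 1)) :=
    nadd (nmul (nconst 2) he) (nadd hk (nconst 1))
  have h2 : NumS m (fun a => 2 * e a + k a) := nadd (nmul (nconst 2) he) hk
  exact LGen.append (LGen.const [Sym.and, Sym.eq]) (LGen.append (gen_minusW (gen_vw h1)
    (LGen.append (LGen.const [Sym.mul]) (LGen.append (gen_vw h2) (gen_vw h2)))) (LGen.const [Sym.fin]))

theorem gen_boxW {e k i : (Fin m → ℕ) → ℕ} (he : NumS m e) (hk : NumS m k) (hi : NumS m i) :
    LGen m (fun a => boxW (e a) (k a) (i a)) := by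
  have h2 : NumS m (fun a => 2 * e a + k a) := nadd (nmul (nconst 2) he) hk
  exact LGen.append (LGen.const [Sym.and, Sym.ge]) (LGen.append (gen_minusW (gen_vw h2)
    (LGen.append (LGen.const [Sym.mul]) (LGen.append (gen_vw hi) (gen_vw hi)))) (LGen.const [Sym.fin]))

theorem gen_distW {e k i : (Fin m → ℕ) → ℕ} (he : NumS m e) (hk : NumS m k) (hi : NumS m i) :
    LGen m (fun a => distW (e a) (k a) (i a)) := by
  have h2 : NumS m (fun a => 2 * e a + k a) := nadd (nmul (nconst 2) he) hk
  have h3 : NumS m (fun a => e a + i a) := nadd he hi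
  exact LGen.append (LGen.const [Sym.and, Sym.ge]) (LGen.append (gen_minusW (LGen.const (cword 1))
    (LGen.append (LGen.const [Sym.mul]) (LGen.append (gen_vw h2) (LGen.append (LGen.const [Sym.mul])
      (LGen.append (gen_minusW (gen_vw h3) (gen_vw hi)) (gen_minusW (gen_vw h3) (gen_vw hi)))))))
    (LGen.const [Sym.fin]))

theorem gen_loop {e : (Fin m → ℕ) → ℕ} (he : NumS m e) {K : ℕ → (Fin m → ℕ) → List Sym}
    (h : LGen (m + 1) (fun a => K (a 0) (a ∘ Fin.succ))) :
    LGen m (fun a => (List.range (e a)).flatMap (fun k => K k a)) := by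
  refine lcongr (LGen.loop he h) (fun a => ?_)
  refine List.flatMap_congr (fun k _ => ?_)
  simp only [Matrix.cons_val_zero, vecCons_comp_succ]

theorem num_K1 {e : (Fin m → ℕ) → ℕ} (he : NumS m e) : NumS m (fun a => K1 (e a)) :=
  nadd (nmul (nconst 100) he) (nconst 142)

theorem num_K2 {e : (Fin m → ℕ) → ℕ} (he : NumS m e) : NumS m (fun a => K2 (e a)) :=
  nadd (nmul (nconst 600) he) (nconst 852)

theorem num_rename {e : (Fin m → ℕ) → ℕ} (he : NumS m e) :
    NumS (m + 1) (fun a => e (a ∘ Fin.succ)) := Num.rename Fin.succ he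

end Numbers

/-! ### Extraction -/

theorem gen_relFrom {m : ℕ} : PGen (m + 2) (fun ρ : Fin (m + 2) → List Sym =>
    relFrom (ρ 0).length (ρ 1)) := by
  refine PGen.loopG (PGen.var (1 : Fin (m + 2))) (K := fun d s ρ =>
    if isRel d then (if (ρ 0).length ≤ s.length then [.tick] else []) else []) (fun c => ?_)
  by_cases h : isRel c
  · simp only [h, if_true]
    exact Test.ite (Test.lenLe (PGen.var (1 : Fin (m + 3))) (PGen.var 0)) (PGen.const _)
      (PGen.const _)
  · simp only [h]
    exact PGen.const []

theorem gen_sfx {m : ℕ} {F : (Fin m → List Sym) → List Sym} (hF : PGen m F) :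
    PGen m (fun ρ => sfx (F ρ)) := by
  have h1 : PGen (m + 1) (fun ρ : Fin (m + 1) → List Sym => sfx (ρ 0)) :=
    PGen.loopG (PGen.var 0) (K := fun c q ρ => if relFrom q.length (ρ 0) = [] then [c] else [])
      (fun c => Test.ite (Test.empty gen_relFrom) (PGen.const _) (PGen.const _))
  exact PGen.letG hF (K := fun w _ => sfx w) h1

/-- the letter `stop` -/
def isStop : Sym → Bool
  | .stop => true
  | _ => false

/-- the number of variables, in unary -/
def firstW (w : List Sym) : List Sym :=
  scan (fun p c => if cnt isStop (p ++ [c]) = 0 then [.tick] else []) [] w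

/-- the part after the first letter `stop` -/
def restW (w : List Sym) : List Sym :=
  scan (fun p c => if cnt isStop p = 0 then [] else [c]) [] w

theorem test_cnt {m : ℕ} {F : (Fin m → List Sym) → List Sym} (hF : PGen m F) :
    Test m (fun ρ => cnt isStop (F ρ) = 0) :=
  Test.congr (Test.empty (PGen.cnt isStop Sym.tick hF)) (fun ρ => by
    rw [List.replicate_eq_nil_iff])

theorem gen_firstW : PGen 1 (fun ρ : Fin 1 → List Sym => firstW (ρ 0)) :=
  PGen.loopG (PGen.var 0) (K := fun c p _ => if cnt isStop (p ++ [c]) = 0 then [.tick] else [])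
    (fun c => Test.ite (test_cnt (PGen.append (PGen.var (0 : Fin 2)) (PGen.const [c])))
      (PGen.const _) (PGen.const _))

theorem gen_restW : PGen 1 (fun ρ : Fin 1 → List Sym => restW (ρ 0)) :=
  PGen.loopG (PGen.var 0) (K := fun c p _ => if cnt isStop p = 0 then [] else [c])
    (fun c => Test.ite (test_cnt (PGen.var (0 : Fin 2))) (PGen.const _) (PGen.const _))

theorem cnt_ticks (k : ℕ) : cnt isStop (List.replicate k Sym.tick) = 0 := by
  unfold cnt
  rw [List.filter_replicate_of_neg (by simp [isStop])]
  rfl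

theorem first_ticks : ∀ (n k : ℕ),
    scan (fun p c => if cnt isStop (p ++ [c]) = 0 then [Sym.tick] else [])
      (List.replicate k .tick) (List.replicate n .tick) = List.replicate n .tick
  | 0, _ => rfl
  | n + 1, k => by
    rw [List.replicate_succ, scan]
    have e : List.replicate k Sym.tick ++ [Sym.tick] = List.replicate (k + 1) Sym.tick :=
      (List.replicate_succ' ..).symm
    rw [e, if_pos (cnt_ticks _), first_ticks n (k + 1)]
    rfl

theorem first_stop : ∀ (l p : List Sym), cnt isStop p ≠ 0 →
    scan (fun p c => if cnt isStop (p ++ [c]) = 0 then [Sym.tick] else []) p l = []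
  | [], _, _ => rfl
  | c :: l, p, h => by
    have h1 : cnt isStop (p ++ [c]) ≠ 0 := by
      rw [cnt_append]
      omega
    rw [scan, if_neg h1, first_stop l _ h1]
    rfl

theorem rest_ticks : ∀ (n k : ℕ),
    scan (fun p c => if cnt isStop p = 0 then [] else [c])
      (List.replicate k .tick) (List.replicate n .tick) = ([] : List Sym)
  | 0, _ => rfl
  | n + 1, k => by
    rw [List.replicate_succ, scan]
    have e : List.replicate k Sym.tick ++ [Sym.tick] = List.replicate (k + 1) Sym.tick :=
      (List.replicate_succ' ..).symm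
    rw [e, if_pos (cnt_ticks _), rest_ticks n (k + 1)]
    rfl

theorem rest_stop : ∀ (l p : List Sym), cnt isStop p ≠ 0 →
    scan (fun p c => if cnt isStop p = 0 then [] else [c]) p l = l
  | [], _, _ => rfl
  | c :: l, p, h => by
    have h1 : cnt isStop (p ++ [c]) ≠ 0 := by
      rw [cnt_append]
      omega
    rw [scan, if_neg h, rest_stop l _ h1]
    rfl

theorem firstW_enc {n : ℕ} (φ : Formula n) : firstW (encInst ⟨n, φ⟩) = List.replicate n .tick := by
  unfold firstW encInst
  rw [scan_append, scan]
  have h := first_ticks n 0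
  rw [List.replicate_zero] at h
  have h1 : cnt isStop (List.replicate n Sym.tick ++ [Sym.stop]) ≠ 0 := by
    rw [cnt_append, cnt_ticks]
    decide
  rw [h, List.nil_append, if_neg h1, first_stop _ _ h1]
  simp

theorem restW_enc {n : ℕ} (φ : Formula n) : restW (encInst ⟨n, φ⟩) = φ.enc := by
  unfold restW encInst
  rw [scan_append, scan]
  simp only [List.nil_append]
  have h := rest_ticks n 0
  rw [List.replicate_zero] at h
  have h1 : cnt isStop (List.replicate n Sym.tick ++ [Sym.stop]) ≠ 0 := by
    rw [cnt_append, cnt_ticks]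
    decide
  rw [h, if_pos (cnt_ticks n), rest_stop _ _ h1]
  rfl

/-! ### The sentence -/

theorem gen_marginW {m : ℕ} {e k : (Fin m → ℕ) → ℕ} (he : NumS m e) (hk : NumS m k)
    {F : (Fin m → List Sym) → List Sym} (hF : PGen m F) :
    PGen m (fun ρ => marginW (e (fun i => (ρ i).length)) (k (fun i => (ρ i).length)) (F ρ)) := by
  have h2 : LGen m (fun a => vw (2 * e a + k a)) :=
    gen_vw (nadd (nmul (nconst 2) he) hk)
  have h3 : PGen m (fun ρ => vw (2 * e (fun i => (ρ i).length) + k (fun i => (ρ i).length))) := h2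
  exact PGen.append (PGen.const [Sym.and, Sym.or, Sym.eq]) (PGen.append hF (PGen.append
    (PGen.const [Sym.fin, Sym.ge]) (PGen.append (PGen.append (PGen.const [Sym.add]) (PGen.append
      (PGen.append (PGen.const [Sym.mul]) (PGen.append h3 (PGen.append (PGen.const [Sym.mul])
        (PGen.append hF hF)))) (PGen.append (PGen.const [Sym.mul]) (PGen.append
          (PGen.const (cword (-1))) (PGen.const (cword 1)))))) (PGen.const [Sym.fin]))))

theorem gen_sentW : PGen 3 (fun ρ : Fin 3 → List Sym =>
    sentW (ρ 1).length (K1 (ρ 2).length) (K2 (ρ 2).length) (ρ 0)) := by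
  have hn : NumS 3 (fun a => a 1) := nvar 1
  have hl : NumS 3 (fun a => a 2) := nvar 2
  have h0 : LGen 3 (fun a => List.replicate (2 * a 1 + K2 (a 2) + 1) Sym.tick) :=
    nadd (nadd (nmul (nconst 2) hn) (num_K2 hl)) (nconst 1)
  have h1 : LGen 3 (fun a => chainW0 (a 1) ++
      (List.range (K2 (a 2))).flatMap (chainW (a 1))) :=
    LGen.append (gen_chainW0 hn) (gen_loop (num_K2 hl) (K := fun k a => chainW (a 1) k)
      (gen_chainW (num_rename hn) (nvar 0)))
  have h2 : LGen 3 (fun a => (List.range (a 1)).flatMap (boxW (a 1) (K1 (a 2)))) :=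
    gen_loop hn (K := fun k a => boxW (a 1) (K1 (a 2)) k)
      (gen_boxW (num_rename hn) (num_rename (num_K1 hl)) (nvar 0))
  have h4 : LGen 3 (fun a => (List.range (a 1)).flatMap (distW (a 1) (K2 (a 2)))) :=
    gen_loop hn (K := fun k a => distW (a 1) (K2 (a 2)) k)
      (gen_distW (num_rename hn) (num_rename (num_K2 hl)) (nvar 0))
  have h3 : PGen 3 (fun ρ : Fin 3 → List Sym =>
      scan (marginFn (ρ 1).length (K1 (ρ 2).length)) [] (ρ 0)) := by
    refine PGen.loopG (PGen.var (0 : Fin 3)) (K := fun c p ρ =>
      marginFn (ρ 1).length (K1 (ρ 2).length) p c) (fun c => ?_)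
    unfold marginFn
    by_cases h : c = .fin
    · simp only [h, if_true]
      exact gen_marginW (m := 4) (e := fun a => a 2) (k := fun a => K1 (a 3)) (nvar 2)
        (num_K1 (nvar 3)) (gen_sfx (PGen.var 0))
    · simp only [h, if_false]
      exact PGen.const []
  have h5 : PGen 3 (fun ρ : Fin 3 → List Sym =>
      scan (fun _ c => shiftL (ρ 1).length c) [] (ρ 0)) := by
    refine PGen.loopG (PGen.var (0 : Fin 3)) (K := fun c _ ρ => shiftL (ρ 1).length c)
      (fun c => ?_)
    unfold shiftL
    by_cases h : c = .var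
    · simp only [h, if_true]
      have hv : NumS 4 (fun a => a 2) := nvar 2
      exact PGen.append (PGen.const [Sym.var]) hv
    · simp only [h, if_false]
      exact PGen.const _
  exact PGen.append h0 (PGen.append (PGen.const [Sym.stop, Sym.not]) (PGen.append h1 (PGen.append h2
    (PGen.append h3 (PGen.append h4 (PGen.append (PGen.const [Sym.and, Sym.not])
      (PGen.append (PGen.var 0) h5)))))))

/-- the reduction on words -/
def redW (w : List Sym) : List Sym :=
  sentW (firstW w).length (K1 w.length) (K2 w.length) (restW w)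

theorem gen_redW : PGen 1 (fun ρ : Fin 1 → List Sym => redW (ρ 0)) := by
  have h2 : PGen 2 (fun ρ : Fin 2 → List Sym =>
      sentW (ρ 0).length (K1 (ρ 1).length) (K2 (ρ 1).length) (restW (ρ 1))) :=
    PGen.letG (K := fun B ρ => sentW (ρ 0).length (K1 (ρ 1).length) (K2 (ρ 1).length) B)
      (PGen.rename (fun _ : Fin 1 => (1 : Fin 2)) gen_restW) gen_sentW
  exact PGen.letG (K := fun N ρ => sentW N.length (K1 (ρ 0).length) (K2 (ρ 0).length)
    (restW (ρ 0))) gen_firstW h2

theorem redW_enc (x : Σ n : ℕ, Formula n) : redW (encInst x) = encInst (reduction x) := by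
  obtain ⟨n, φ⟩ := x
  unfold redW reduction sentence
  rw [firstW_enc, restW_enc, List.length_replicate, sentW_eq φ _ _ (by unfold K1 K2; omega)]

theorem reduction_polyTime :
    Nonempty (TM2ComputableInPolyTime encInst encInst reduction) := by
  have c1 : TM2ComputableInPolyTime encInst (id : List Sym → List Sym)
      (fun x => encInst x) :=
    morphComputable encInst id _ [] (fun b => [b]) (fun x => by
      show encInst x = [] ++ (encInst x).flatMap (fun b => [b])
      rw [List.nil_append, List.flatMap_singleton'])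
  obtain ⟨c2⟩ := pgen_computable _ gen_redW
  obtain ⟨c4⟩ := TM2ComputableInPolyTime.comp c1 c2
  refine ⟨⟨c4.toTM2ComputableAux, c4.time, fun x => ?_⟩⟩
  have h := c4.outputsFun x
  have e : (id (((fun w : List Sym => redW ((![w] : Fin 1 → List Sym) 0)) ∘
      fun x => encInst x) x) : List Sym) = encInst (reduction x) := redW_enc x
  rw [e] at h
  exact h

/-- **CLOSED is in `∀ℝ`**: deciding whether a semialgebraic set, given by an arbitrary
quantifier-free formula, is closed reduces in polynomial time to the universal theory of the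
reals. -/
theorem closed_inForallR : InForallR closedProblem :=
  ⟨reduction, reduction_polyTime, reduction_correct⟩

end Pool.Agent.Helper53_Closed
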