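import Pool.Agent.Helper53_Closed.Build
import Pool.Agent.Helper53_Chan.Cond

/-!
# The reduction is computable in polynomial time
-/

namespace Pool.Agent.Helper53_Closed

open Pool.Agent.Helper53_CookLevin Pool.Agent.Helper53_Chan Turing
open Pool.Agent.Helper32_Poly

instance : Inhabited Sym := ⟨.tick⟩

/-- the word of the variable with number `j` -/
def vw (j : ℕ) : List Sym := .var :: (List.replicate j .tick ++ [.stop])

/-- the word of a constant -/
def cword (c : ℤ) : List Sym :=
  .const :: (if c < 0 then .minus else .plus) :: (bitWord c.natAbs ++ [.stop])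

/-- the word of a difference -/
def minusW (a b : List Sym) : List Sym := .add :: (a ++ (.mul :: (cword (-1) ++ b)))

theorem enc_minus {m : ℕ} (a b : Term m) : (a.minus b).enc = minusW a.enc b.enc := rfl

theorem enc_mul {m : ℕ} (a b : Term m) : (Term.mul a b).enc = .mul :: (a.enc ++ b.enc) := rfl

theorem enc_const {m : ℕ} (c : ℤ) : (Term.const c : Term m).enc = cword c := rfl

theorem enc_vr {M j : ℕ} (h : j ≤ M) : (vr M j).enc = vw j := by
  show Sym.var :: (List.replicate (Fin.ofNat (M + 1) j).val .tick ++ [.stop]) = _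
  rw [Fin.val_ofNat, Nat.mod_eq_of_lt (by omega)]
  rfl

/-- the word of a list of conjuncts -/
def listW {m : ℕ} (l : List (Formula m)) : List Sym := l.flatMap (fun ψ => .and :: ψ.enc)

theorem enc_conj {m : ℕ} (φ : Formula m) : ∀ l : List (Formula m),
    (conj l φ).enc = listW l ++ φ.enc
  | [] => rfl
  | ψ :: l => by
    show Sym.and :: (ψ.enc ++ (conj l φ).enc) = _
    rw [enc_conj φ l]
    simp [listW]

theorem listW_append {m : ℕ} (l l' : List (Formula m)) : listW (l ++ l') = listW l ++ listW l' := by
  simp [listW]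

theorem listW_map {m : ℕ} {α : Type} (l : List α) (f : α → Formula m) :
    listW (l.map f) = l.flatMap (fun a => .and :: (f a).enc) := by
  unfold listW
  rw [List.flatMap_map]

/-! ### Pieces given by numbers -/

/-- the word of an equation of the chain -/
def chainW (n k : ℕ) : List Sym :=
  .and :: .eq :: (minusW (vw (2 * n + (k + 1))) (.mul :: (vw (2 * n + k) ++ vw (2 * n + k))) ++
    [.fin])

/-- the word of the first equation of the chain -/
def chainW0 (n : ℕ) : List Sym := .and :: .eq :: (minusW (vw (2 * n)) (cword 2) ++ [.fin])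

/-- the word of a bound for a coordinate -/
def boxW (n k₁ i : ℕ) : List Sym :=
  .and :: .ge :: (minusW (vw (2 * n + k₁)) (.mul :: (vw i ++ vw i)) ++ [.fin])

/-- the word of a bound for the distance -/
def distW (n k₂ i : ℕ) : List Sym :=
  .and :: .ge :: (minusW (cword 1) (.mul :: (vw (2 * n + k₂) ++ .mul ::
    (minusW (vw (n + i)) (vw i) ++ minusW (vw (n + i)) (vw i)))) ++ [.fin])

/-- the word of a margin -/
def marginW (n k₁ : ℕ) (T : List Sym) : List Sym :=
  .and :: .or :: .eq :: (T ++ .fin :: .ge :: (minusW (.mul :: (vw (2 * n + k₁) ++ .mul ::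
    (T ++ T))) (cword 1) ++ [.fin]))

theorem listW_chainF (n k₂ : ℕ) :
    listW (chainF n k₂) = chainW0 n ++ (List.range k₂).flatMap (chainW n) := by
  unfold chainF
  have h0 : ∀ {m : ℕ} (ψ : Formula m) l, listW (ψ :: l) = (.and :: ψ.enc) ++ listW l := fun ψ l => by
    simp [listW]
  rw [h0, listW_map]
  congr 1
  · show Sym.and :: Sym.eq :: (((vr (2 * n + k₂) (2 * n)).minus (Term.const 2)).enc ++ [Sym.fin])
      = _
    rw [enc_minus, enc_vr (by omega), enc_const]
    rfl
  · refine List.flatMap_congr (fun k hk => ?_)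
    have hk' := List.mem_range.1 hk
    show Sym.and :: Sym.eq :: ((((vr (2 * n + k₂) (2 * n + (k + 1))).minus
      (.mul (vr (2 * n + k₂) (2 * n + k)) (vr (2 * n + k₂) (2 * n + k))))).enc ++ [Sym.fin]) = _
    rw [enc_minus, enc_mul, enc_vr (by omega), enc_vr (by omega)]
    rfl

theorem listW_boxF (n k₁ k₂ : ℕ) (h : k₁ ≤ k₂) :
    listW (boxF n k₁ k₂) = (List.range n).flatMap (boxW n k₁) := by
  unfold boxF
  rw [listW_map]
  refine List.flatMap_congr (fun i hi => ?_)
  have hi' := List.mem_range.1 hi
  show Sym.and :: Sym.ge :: (((vr (2 * n + k₂) (2 * n + k₁)).minus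
    (.mul (vr (2 * n + k₂) i) (vr (2 * n + k₂) i))).enc ++ [Sym.fin]) = _
  rw [enc_minus, enc_mul, enc_vr (by omega), enc_vr (by omega)]
  rfl

theorem listW_distF (n k₂ : ℕ) :
    listW (distF n k₂) = (List.range n).flatMap (distW n k₂) := by
  unfold distF
  rw [listW_map]
  refine List.flatMap_congr (fun i hi => ?_)
  have hi' := List.mem_range.1 hi
  show Sym.and :: Sym.ge :: (((Term.const 1).minus
    (.mul (vr (2 * n + k₂) (2 * n + k₂)) (.mul
      ((vr (2 * n + k₂) (n + i)).minus (vr (2 * n + k₂) i))
      ((vr (2 * n + k₂) (n + i)).minus (vr (2 * n + k₂) i))))).enc ++ [Sym.fin]) = _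
  rw [enc_minus, enc_mul, enc_mul, enc_minus, enc_vr (by omega), enc_vr (by omega),
    enc_vr (by omega), enc_const]
  rfl

/-! ### Words of formulas with changed variables -/

theorem Term.enc_map_val {n m : ℕ} (f : Fin n → Fin m) (hf : ∀ i, (f i).val = i.val)
    (t : Term n) : (t.map f).enc = t.enc := by
  induction t with
  | var i =>
    show Sym.var :: (List.replicate (f i).val .tick ++ [.stop]) = _
    rw [hf]
    rfl
  | const c => rfl
  | add s t ih1 ih2 =>
    show Sym.add :: ((s.map f).enc ++ (t.map f).enc) = _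
    rw [ih1, ih2]
    rfl
  | mul s t ih1 ih2 =>
    show Sym.mul :: ((s.map f).enc ++ (t.map f).enc) = _
    rw [ih1, ih2]
    rfl

theorem Formula.enc_map_val {n m : ℕ} (f : Fin n → Fin m) (hf : ∀ i, (f i).val = i.val)
    (φ : Formula n) : (φ.map f).enc = φ.enc := by
  induction φ with
  | atom r t =>
    show r.sym :: ((t.map f).enc ++ [Sym.fin]) = _
    rw [t.enc_map_val f hf]
    rfl
  | and φ ψ ih1 ih2 =>
    show Sym.and :: ((φ.map f).enc ++ (ψ.map f).enc) = _
    rw [ih1, ih2]
    rfl
  | or φ ψ ih1 ih2 =>
    show Sym.or :: ((φ.map f).enc ++ (ψ.map f).enc) = _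
    rw [ih1, ih2]
    rfl
  | not φ ih =>
    show Sym.not :: (φ.map f).enc = _
    rw [ih]
    rfl

/-- shift a variable by `k` -/
def shiftL (k : ℕ) (c : Sym) : List Sym := if c = .var then .var :: List.replicate k .tick else [c]

theorem shift_id (k : ℕ) : ∀ w : List Sym, Sym.var ∉ w → w.flatMap (shiftL k) = w
  | [], _ => rfl
  | c :: w, h => by
    rw [List.flatMap_cons, shift_id k w (fun h' => h (List.mem_cons_of_mem _ h'))]
    have : c ≠ .var := fun h' => h (by rw [h']; exact List.mem_cons_self)
    unfold shiftL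
    rw [if_neg this]
    rfl

theorem Term.enc_map_shift {n m : ℕ} (k : ℕ) (f : Fin n → Fin m)
    (hf : ∀ i, (f i).val = k + i.val) (t : Term n) : (t.map f).enc = t.enc.flatMap (shiftL k) := by
  induction t with
  | var i =>
    show Sym.var :: (List.replicate (f i).val .tick ++ [.stop]) =
      (Sym.var :: (List.replicate i.val .tick ++ [.stop])).flatMap (shiftL k)
    rw [List.flatMap_cons, shift_id k (List.replicate i.val Sym.tick ++ [Sym.stop]) (by
      intro h
      rcases List.mem_append.1 h with h | h
      · have := List.eq_of_mem_replicate h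
        cases this
      · simp at h), hf, List.replicate_add]
    unfold shiftL
    rw [if_pos rfl, List.cons_append, List.append_assoc]
  | const c =>
    show cword c = (cword c).flatMap (shiftL k)
    rw [shift_id k (cword c) (by
      unfold cword bitWord
      intro h
      rcases List.mem_cons.1 h with h | h
      · cases h
      · rcases List.mem_cons.1 h with h | h
        · split_ifs at h
        · rcases List.mem_append.1 h with h | h
          · obtain ⟨d, _, hd⟩ := List.mem_map.1 h
            split_ifs at hd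
          · simp at h)]
  | add s t ih1 ih2 =>
    show Sym.add :: ((s.map f).enc ++ (t.map f).enc) =
      (Sym.add :: (s.enc ++ t.enc)).flatMap (shiftL k)
    rw [ih1, ih2, List.flatMap_cons, List.flatMap_append]
    rfl
  | mul s t ih1 ih2 =>
    show Sym.mul :: ((s.map f).enc ++ (t.map f).enc) =
      (Sym.mul :: (s.enc ++ t.enc)).flatMap (shiftL k)
    rw [ih1, ih2, List.flatMap_cons, List.flatMap_append]
    rfl

theorem Formula.enc_map_shift {n m : ℕ} (k : ℕ) (f : Fin n → Fin m)
    (hf : ∀ i, (f i).val = k + i.val) (φ : Formula n) :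
    (φ.map f).enc = φ.enc.flatMap (shiftL k) := by
  induction φ with
  | atom r t =>
    show r.sym :: ((t.map f).enc ++ [Sym.fin]) = (r.sym :: (t.enc ++ [Sym.fin])).flatMap (shiftL k)
    rw [t.enc_map_shift k f hf, List.flatMap_cons, List.flatMap_append]
    cases r <;> rfl
  | and φ ψ ih1 ih2 =>
    show Sym.and :: ((φ.map f).enc ++ (ψ.map f).enc) =
      (Sym.and :: (φ.enc ++ ψ.enc)).flatMap (shiftL k)
    rw [ih1, ih2, List.flatMap_cons, List.flatMap_append]
    rfl
  | or φ ψ ih1 ih2 =>
    show Sym.or :: ((φ.map f).enc ++ (ψ.map f).enc) =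
      (Sym.or :: (φ.enc ++ ψ.enc)).flatMap (shiftL k)
    rw [ih1, ih2, List.flatMap_cons, List.flatMap_append]
    rfl
  | not φ ih =>
    show Sym.not :: (φ.map f).enc = (Sym.not :: φ.enc).flatMap (shiftL k)
    rw [ih, List.flatMap_cons]
    rfl

/-! ### Extraction of atoms -/

/-- letters for relations -/
def isRel : Sym → Bool
  | .eq => true
  | .gt => true
  | .ge => true
  | _ => false

/-- whether there is a relation letter from position `i` on -/
def relFrom (i : ℕ) (p : List Sym) : List Sym :=
  scan (fun s d => if isRel d then (if i ≤ s.length then [.tick] else []) else []) [] p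

/-- the part after the last relation letter -/
def sfx (p : List Sym) : List Sym :=
  scan (fun q c => if relFrom q.length p = [] then [c] else []) [] p

theorem relFrom_snoc (i : ℕ) (p : List Sym) (c : Sym) :
    relFrom i (p ++ [c]) = relFrom i p ++
      (if isRel c then (if i ≤ p.length then [.tick] else []) else []) := by
  unfold relFrom
  rw [scan_append]
  simp [scan]

theorem relFrom_length : ∀ (i : ℕ) (p : List Sym), p.length ≤ i → relFrom i p = [] := by
  intro i p
  induction p using List.reverseRecOn with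
  | nil => intro _; rfl
  | append_singleton p c ih =>
    intro h
    rw [List.length_append, List.length_singleton] at h
    rw [relFrom_snoc, ih (by omega), if_neg (show ¬ i ≤ p.length by omega)]
    simp

theorem scan_congr_prefix {C : Type} {f g : List C → C → List C} : ∀ (l p : List C),
    (∀ q c l', q ++ c :: l' = p ++ l → f q c = g q c) → scan f p l = scan g p l
  | [], _, _ => rfl
  | c :: l, p, h => by
    rw [scan, scan, h p c l rfl, scan_congr_prefix l (p ++ [c]) (fun q c' l' h' =>
      h q c' l' (by rw [h']; simp))]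

theorem scan_nil_fun {C : Type} : ∀ (l p : List C), scan (fun (_ : List C) (_ : C) => []) p l =
    ([] : List C)
  | [], _ => rfl
  | c :: l, p => by
    rw [scan, scan_nil_fun l]
    rfl

theorem sfx_snoc (p : List Sym) (c : Sym) :
    sfx (p ++ [c]) = if isRel c then [] else sfx p ++ [c] := by
  unfold sfx
  rw [scan_append]
  simp only [scan, List.nil_append, List.append_nil]
  by_cases h : isRel c
  · rw [if_pos h]
    have h1 : ∀ i, i ≤ p.length → relFrom i (p ++ [c]) ≠ [] := by
      intro i hi
      rw [relFrom_snoc, if_pos h, if_pos hi]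
      simp
    rw [if_neg (h1 _ le_rfl), List.append_nil]
    refine (scan_congr_prefix (g := fun _ _ => []) p [] (fun q c' l' hq => ?_)).trans
      (scan_nil_fun _ _)
    rw [List.nil_append] at hq
    rw [if_neg (h1 _ (by rw [← hq]; simp))]
  · rw [if_neg h]
    have h1 : ∀ i, relFrom i (p ++ [c]) = relFrom i p := by
      intro i
      rw [relFrom_snoc, if_neg h, List.append_nil]
    simp only [h1]
    rw [if_pos (relFrom_length _ _ le_rfl)]

theorem sfx_rel (p : List Sym) (r : Sym) (hr : isRel r = true) (u : List Sym) :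
    (∀ c ∈ u, isRel c = false) → sfx (p ++ r :: u) = u := by
  induction u using List.reverseRecOn with
  | nil =>
    intro _
    rw [sfx_snoc, if_pos hr]
  | append_singleton u c ih =>
    intro h
    have e : p ++ r :: (u ++ [c]) = (p ++ r :: u) ++ [c] := by simp
    rw [e, sfx_snoc, ih (fun c hc => h c (List.mem_append_left _ hc)),
      if_neg (by rw [h c (by simp)]; simp)]

/-- letters in words of terms -/
def isT : Sym → Bool
  | .eq => false
  | .gt => false
  | .ge => false
  | .fin => false
  | _ => true

theorem isT_vw (j : ℕ) : ∀ c ∈ vw j, isT c = true := by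
  intro c hc
  unfold vw at hc
  rcases List.mem_cons.1 hc with h | h
  · rw [h]; rfl
  · rcases List.mem_append.1 h with h | h
    · rw [List.eq_of_mem_replicate h]; rfl
    · rw [List.mem_singleton.1 h]; rfl

theorem isT_cword (d : ℤ) : ∀ c ∈ cword d, isT c = true := by
  intro c hc
  unfold cword bitWord at hc
  rcases List.mem_cons.1 hc with h | h
  · rw [h]; rfl
  · rcases List.mem_cons.1 h with h | h
    · rw [h]
      split_ifs <;> rfl
    · rcases List.mem_append.1 h with h | h
      · obtain ⟨e, _, rfl⟩ := List.mem_map.1 h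
        split_ifs <;> rfl
      · rw [List.mem_singleton.1 h]; rfl

theorem Term.isT_enc {n : ℕ} (t : Term n) : ∀ c ∈ t.enc, isT c = true := by
  induction t with
  | var i => exact isT_vw i.val
  | const c => exact isT_cword c
  | add s t ih1 ih2 =>
    intro c hc
    rcases List.mem_cons.1 hc with h | h
    · rw [h]; rfl
    · rcases List.mem_append.1 h with h | h
      · exact ih1 c h
      · exact ih2 c h
  | mul s t ih1 ih2 =>
    intro c hc
    rcases List.mem_cons.1 hc with h | h
    · rw [h]; rfl
    · rcases List.mem_append.1 h with h | h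
      · exact ih1 c h
      · exact ih2 c h

/-- the output for the margins -/
def marginFn (n k₁ : ℕ) (p : List Sym) (c : Sym) : List Sym :=
  if c = .fin then marginW n k₁ (sfx p) else []

theorem scan_marginFn_isT (n k₁ : ℕ) : ∀ (l p : List Sym), (∀ c ∈ l, isT c = true) →
    scan (marginFn n k₁) p l = []
  | [], _, _ => rfl
  | c :: l, p, h => by
    rw [scan, scan_marginFn_isT n k₁ l _ (fun c hc => h c (List.mem_cons_of_mem _ hc))]
    have : c ≠ .fin := by
      intro h'
      have := h c List.mem_cons_self
      rw [h'] at this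
      cases this
    unfold marginFn
    rw [if_neg this]
    rfl

theorem scan_margin {n : ℕ} (N k₁ : ℕ) (φ : Formula n) : ∀ p : List Sym,
    scan (marginFn N k₁) p φ.enc = φ.atoms.flatMap (fun f => marginW N k₁ f.enc) := by
  induction φ with
  | atom r f =>
    intro p
    show scan (marginFn N k₁) p (r.sym :: (f.enc ++ [Sym.fin])) = _
    rw [scan, scan_append, scan_marginFn_isT N k₁ f.enc _ f.isT_enc]
    have h1 : marginFn N k₁ p r.sym = [] := by
      cases r <;> rfl
    have h2 : sfx (p ++ [r.sym] ++ f.enc) = f.enc := by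
      have e : p ++ [r.sym] ++ f.enc = p ++ r.sym :: f.enc := by simp
      rw [e]
      refine sfx_rel p r.sym (by cases r <;> rfl) f.enc (fun c hc => ?_)
      have := f.isT_enc c hc
      revert this
      cases c <;> simp [isT, isRel]
    rw [h1]
    simp only [scan, List.nil_append, List.append_nil, Formula.atoms, List.flatMap_cons,
      List.flatMap_nil]
    unfold marginFn
    rw [if_pos rfl, h2]
  | and φ ψ ih1 ih2 =>
    intro p
    show scan (marginFn N k₁) p (Sym.and :: (φ.enc ++ ψ.enc)) = _
    rw [scan, scan_append, ih1, ih2]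
    show [] ++ _ = _
    rw [List.nil_append, ← List.flatMap_append]
    rfl
  | or φ ψ ih1 ih2 =>
    intro p
    show scan (marginFn N k₁) p (Sym.or :: (φ.enc ++ ψ.enc)) = _
    rw [scan, scan_append, ih1, ih2]
    show [] ++ _ = _
    rw [List.nil_append, ← List.flatMap_append]
    rfl
  | not φ ih =>
    intro p
    show scan (marginFn N k₁) p (Sym.not :: φ.enc) = _
    rw [scan, ih]
    rfl

theorem listW_marginF {n : ℕ} (φ : Formula n) (k₁ k₂ : ℕ) (h : k₁ ≤ k₂) :
    listW (marginF φ k₁ k₂) = scan (marginFn n k₁) [] φ.enc := by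
  rw [scan_margin]
  unfold marginF
  rw [listW_map]
  refine List.flatMap_congr (fun f _ => ?_)
  have hf : (f.map (fun i => Fin.ofNat (2 * n + k₂ + 1) i.val)).enc = f.enc := by
    refine f.enc_map_val _ (fun i => ?_)
    have := i.isLt
    rw [Fin.val_ofNat, Nat.mod_eq_of_lt (by omega)]
  show Sym.and :: Sym.or :: (Sym.eq :: ((f.map (fun i => Fin.ofNat (2 * n + k₂ + 1)
    i.val)).enc ++ [Sym.fin]) ++ (Sym.ge :: (((Term.mul (vr (2 * n + k₂) (2 * n + k₁)) (.mul
        (f.map (fun i => Fin.ofNat (2 * n + k₂ + 1) i.val))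
        (f.map (fun i => Fin.ofNat (2 * n + k₂ + 1) i.val)))).minus (.const 1)).enc ++
          [Sym.fin]))) = _
  rw [enc_minus, enc_mul, enc_mul, hf, enc_vr (by omega), enc_const]
  simp [marginW]

/-- the word of the sentence -/
def sentW (n k₁ k₂ : ℕ) (B : List Sym) : List Sym :=
  List.replicate (2 * n + k₂ + 1) .tick ++ (.stop :: .not :: ((chainW0 n ++
    (List.range k₂).flatMap (chainW n)) ++ ((List.range n).flatMap (boxW n k₁) ++
      (scan (marginFn n k₁) [] B ++ ((List.range n).flatMap (distW n k₂) ++
        (.and :: .not :: (B ++ scan (fun _ c => shiftL n c) [] B)))))))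

theorem scan_flatMap {C : Type} (f : C → List C) : ∀ (l p : List C),
    scan (fun _ c => f c) p l = l.flatMap f
  | [], _ => rfl
  | c :: l, p => by
    rw [scan, scan_flatMap f l]
    rfl

theorem sentW_eq {n : ℕ} (φ : Formula n) (k₁ k₂ : ℕ) (h : k₁ ≤ k₂) :
    sentW n k₁ k₂ φ.enc = encInst ⟨2 * n + k₂ + 1, .not (nearF φ k₁ k₂)⟩ := by
  have h1 : (φ.map (fun i => Fin.ofNat (2 * n + k₂ + 1) i.val)).enc = φ.enc := by
    refine φ.enc_map_val _ (fun i => ?_)
    have := i.isLt
    rw [Fin.val_ofNat, Nat.mod_eq_of_lt (by omega)]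
  have h2 : (φ.map (fun i => Fin.ofNat (2 * n + k₂ + 1) (n + i.val))).enc =
      φ.enc.flatMap (shiftL n) := by
    refine φ.enc_map_shift n _ (fun i => ?_)
    have := i.isLt
    rw [Fin.val_ofNat, Nat.mod_eq_of_lt (by omega)]
  unfold sentW encInst
  rw [scan_flatMap]
  show _ = List.replicate (2 * n + k₂ + 1) Sym.tick ++ Sym.stop :: (Sym.not ::
    (nearF φ k₁ k₂).enc)
  unfold nearF
  rw [enc_conj, listW_append, listW_append, listW_append, listW_chainF, listW_boxF _ _ _ h,
    listW_marginF _ _ _ h, listW_distF]
  show _ = List.replicate (2 * n + k₂ + 1) Sym.tick ++ Sym.stop :: (Sym.not ::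
    (_ ++ (Sym.and :: ((Sym.not :: (φ.map (fun i => Fin.ofNat (2 * n + k₂ + 1) i.val)).enc) ++
      (φ.map (fun i => Fin.ofNat (2 * n + k₂ + 1) (n + i.val))).enc))))
  rw [h1, h2]
  simp [List.append_assoc]

end Pool.Agent.Helper53_Closed
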