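import Pool.Agent.Helper53_Closed.Sys2

/-!
# Closedness as an existential statement with explicit constants
-/

namespace Pool.Agent.Helper53_Closed

variable {n : ℕ} (φ : Formula n)

/-- there is a point with margins outside the set which is near to the set -/
def Near (W W' : ℝ) : Prop :=
  ∃ x y : Fin n → ℝ, (∀ i, x i ^ 2 ≤ W) ∧ (∀ f ∈ φ.atoms, f.eval x = 0 ∨ 1 ≤ W * f.eval x ^ 2) ∧
    ¬ φ.Holds x ∧ φ.Holds y ∧ ∀ i, W' * (y i - x i) ^ 2 ≤ 1

variable {φ}

theorem Term.continuous_eval (t : Term n) : Continuous (fun x => t.eval x) := by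
  induction t with
  | var i => exact continuous_apply i
  | const c => exact continuous_const
  | add s t ih1 ih2 => exact ih1.add ih2
  | mul s t ih1 ih2 => exact ih1.mul ih2

theorem size2_nonneg (x y : Fin n → ℝ) : 0 ≤ size2 x y := List.sum_nonneg (by
  intro a ha
  obtain ⟨j, _, rfl⟩ := List.mem_map.1 ha
  positivity)

theorem le_size2 (x y : Fin n → ℝ) (i : Fin n) : (y i - x i) ^ 2 ≤ size2 x y :=
  List.single_le_sum (by
    intro a ha
    obtain ⟨j, _, rfl⟩ := List.mem_map.1 ha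
    positivity) _ (List.mem_map_of_mem (List.mem_finRange i))

theorem size2_le (x y : Fin n → ℝ) (c : ℝ) (h : ∀ i, (y i - x i) ^ 2 ≤ c) :
    size2 x y ≤ n * c := by
  unfold size2
  have := List.sum_le_card_nsmul ((List.finRange n).map (fun i => (y i - x i) ^ 2)) c (by
    intro a ha
    obtain ⟨j, _, rfl⟩ := List.mem_map.1 ha
    exact h j)
  simpa using this

/-- the set of points with margins and with a given sign vector -/
def marginSet (φ : Formula n) (τ : Term n → SignType) (W : ℝ) : Set (Fin n → ℝ) :=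
  {x | (∀ f ∈ φ.atoms, SignType.sign (f.eval x) = τ f) ∧ (∀ i, x i ^ 2 ≤ W) ∧
    ∀ f ∈ φ.atoms, τ f ≠ 0 → 1 ≤ W * f.eval x ^ 2}

theorem marginSet_closed (τ : Term n → SignType) (W : ℝ) : IsClosed (marginSet φ τ W) := by
  have e : marginSet φ τ W = {x | (∀ f ∈ φ.atoms, (τ f = 0 → f.eval x = 0) ∧
      (τ f ≠ 0 → 0 ≤ ((τ f : ℤ) : ℝ) * f.eval x ∧ 1 ≤ W * f.eval x ^ 2)) ∧ ∀ i, x i ^ 2 ≤ W} := by
    ext x
    constructor
    · rintro ⟨h1, h2, h3⟩
      refine ⟨fun f hf => ⟨fun h0 => ?_, fun h0 => ⟨?_, h3 f hf h0⟩⟩, h2⟩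
      · rw [← h1 f hf] at h0
        exact sign_eq_zero_iff.1 h0
      · rw [← h1 f hf]
        rcases lt_trichotomy (f.eval x) 0 with h | h | h
        · rw [sign_neg h]
          simp only [SignType.coe_neg, SignType.coe_one, Int.cast_neg, Int.cast_one]
          linarith
        · rw [h]
          simp
        · rw [sign_pos h]
          simp only [SignType.coe_one, Int.cast_one]
          linarith
    · rintro ⟨h1, h2⟩
      refine ⟨fun f hf => ?_, h2, fun f hf h0 => ((h1 f hf).2 h0).2⟩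
      obtain ⟨h3, h4⟩ := h1 f hf
      by_cases h0 : τ f = 0
      · rw [h3 h0, h0, sign_zero]
      · obtain ⟨h5, h6⟩ := h4 h0
        have h7 : f.eval x ≠ 0 := by
          intro h
          rw [h] at h6
          norm_num at h6
        generalize τ f = s at h0 h5
        rcases s with _ | _ | _
        · exact absurd rfl h0
        · simp only [SignType.neg_eq_neg_one, SignType.coe_neg, SignType.coe_one, Int.cast_neg,
            Int.cast_one] at h5
          exact sign_neg (lt_of_le_of_ne (by linarith) h7)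
        · simp only [SignType.pos_eq_one, SignType.coe_one, Int.cast_one] at h5
          exact sign_pos (lt_of_le_of_ne (by linarith) h7.symm)
  have hA : IsClosed {x : Fin n → ℝ | ∀ f ∈ φ.atoms, (τ f = 0 → f.eval x = 0) ∧
      (τ f ≠ 0 → 0 ≤ ((τ f : ℤ) : ℝ) * f.eval x ∧ 1 ≤ W * f.eval x ^ 2)} := by
    have : {x : Fin n → ℝ | ∀ f ∈ φ.atoms, (τ f = 0 → f.eval x = 0) ∧
      (τ f ≠ 0 → 0 ≤ ((τ f : ℤ) : ℝ) * f.eval x ∧ 1 ≤ W * f.eval x ^ 2)} =
      ⋂ f ∈ φ.atoms, {x : Fin n → ℝ | (τ f = 0 → f.eval x = 0) ∧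
      (τ f ≠ 0 → 0 ≤ ((τ f : ℤ) : ℝ) * f.eval x ∧ 1 ≤ W * f.eval x ^ 2)} := by
      ext x
      simp
    rw [this]
    refine isClosed_biInter (fun f _ => ?_)
    by_cases h0 : τ f = 0
    · have : {x : Fin n → ℝ | (τ f = 0 → f.eval x = 0) ∧
          (τ f ≠ 0 → 0 ≤ ((τ f : ℤ) : ℝ) * f.eval x ∧ 1 ≤ W * f.eval x ^ 2)} =
          {x | f.eval x = 0} := by
        ext x
        simp [h0]
      rw [this]
      exact isClosed_eq f.continuous_eval continuous_const
    · have : {x : Fin n → ℝ | (τ f = 0 → f.eval x = 0) ∧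
          (τ f ≠ 0 → 0 ≤ ((τ f : ℤ) : ℝ) * f.eval x ∧ 1 ≤ W * f.eval x ^ 2)} =
          {x | 0 ≤ ((τ f : ℤ) : ℝ) * f.eval x} ∩ {x | 1 ≤ W * f.eval x ^ 2} := by
        ext x
        simp [h0]
      rw [this]
      exact IsClosed.inter (isClosed_le continuous_const (continuous_const.mul f.continuous_eval))
        (isClosed_le continuous_const (continuous_const.mul (f.continuous_eval.pow 2)))
  have hB : IsClosed {x : Fin n → ℝ | ∀ i, x i ^ 2 ≤ W} := by
    have : {x : Fin n → ℝ | ∀ i, x i ^ 2 ≤ W} = ⋂ i, {x : Fin n → ℝ | x i ^ 2 ≤ W} := by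
      ext x
      simp
    rw [this]
    exact isClosed_iInter (fun i => isClosed_le ((continuous_apply i).pow 2) continuous_const)
  rw [e]
  exact hA.inter hB

theorem marginSet_compact (τ : Term n → SignType) (W : ℝ) : IsCompact (marginSet φ τ W) := by
  refine Metric.isCompact_of_isClosed_isBounded (marginSet_closed τ W) ?_
  rw [isBounded_iff_forall_norm_le]
  refine ⟨|W| + 1, fun x hx => ?_⟩
  rw [pi_norm_le_iff_of_nonneg (by positivity)]
  intro i
  have h1 := hx.2.1 i
  rw [Real.norm_eq_abs]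
  have h2 := le_abs_self W
  have h3 : |x i| ^ 2 ≤ |W| := by rw [sq_abs]; linarith
  nlinarith [abs_nonneg (x i), abs_nonneg W]

theorem closed_iff (K : ℕ) (W' : ℝ)
    (h1 : ∀ τ σ : Term n → SignType,
      (HB (Fintype.card (Ix φ 0)) (slen (sys1 φ τ σ) (obj1 φ)) : ℝ) + 1 ≤ 2 ^ 2 ^ K)
    (h2 : ∀ τ σ : Term n → SignType,
      6 * n * (HB (Fintype.card (Ix φ K)) (slen (sys2 φ K τ σ) (obj2 φ K)) : ℝ) < W') :
    IsClosed φ.solutionSet ↔ ¬ Near φ (2 ^ 2 ^ K) W' := by
  have hW' : 0 < W' := lt_of_le_of_lt (by positivity) (h2 (fun _ => 0) (fun _ => 0))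
  constructor
  · rintro hcl ⟨x, y, hx, hm, hnx, hy, hd⟩
    let τ : Term n → SignType := fun f => SignType.sign (f.eval x)
    let σ : Term n → SignType := fun f => SignType.sign (f.eval y)
    have hg : Good2 φ τ σ (2 ^ 2 ^ K) x y := by
      refine ⟨fun f _ => rfl, fun f _ => rfl, hx, fun f hf h0 => ?_⟩
      rcases hm f hf with h | h
      · exact absurd (sign_eq_zero_iff.2 h) h0
      · exact h
    have hdisj : Disjoint (marginSet φ τ (2 ^ 2 ^ K)) φ.solutionSet := by
      rw [Set.disjoint_left]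
      rintro x' ⟨hx', _, _⟩ hS
      exact hnx ((Formula.holds_congr x' x φ hx').1 hS)
    obtain ⟨r, hr, hdist⟩ := Metric.exists_pos_forall_lt_edist (marginSet_compact τ _) hcl hdisj
    have hlow : ∀ x' y', Good2 φ τ σ (2 ^ 2 ^ K) x' y' → (r : ℝ) ^ 2 ≤ size2 x' y' := by
      rintro x' y' ⟨a1, a2, a3, a4⟩
      have hy' : y' ∈ φ.solutionSet := (Formula.holds_congr y' y φ a2).2 hy
      have h3 := hdist x' ⟨a1, a3, a4⟩ y' hy'
      by_contra hcon
      push Not at hcon
      have h4 : dist x' y' ≤ r := by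
        rw [dist_pi_le_iff (NNReal.coe_nonneg r)]
        intro i
        rw [Real.dist_eq]
        have h5 := le_size2 x' y' i
        have h6 : (x' i - y' i) ^ 2 ≤ (r : ℝ) ^ 2 := by
          have : (x' i - y' i) ^ 2 = (y' i - x' i) ^ 2 := by ring
          rw [this]
          linarith
        exact abs_le_of_sq_le_sq h6 (NNReal.coe_nonneg r)
      have h5 : edist x' y' ≤ r := by
        rw [edist_dist]
        calc ENNReal.ofReal (dist x' y') ≤ ENNReal.ofReal r := ENNReal.ofReal_le_ofReal h4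
          _ = r := ENNReal.ofReal_coe_nnreal
      exact absurd h3 (not_lt.2 h5)
    have hfar := far τ σ ((r : ℝ) ^ 2) (by positivity) hlow x y hg
    have hs : size2 x y ≤ n * (1 / W') := size2_le x y _ (fun i => by
      rw [le_div_iff₀ hW', mul_comm]
      exact hd i)
    set H : ℝ := (HB (Fintype.card (Ix φ K)) (slen (sys2 φ K τ σ) (obj2 φ K)) : ℝ) with hH
    have hH0 : 0 ≤ H := Nat.cast_nonneg _
    have h5 : (1 : ℝ) ≤ H * (6 * (n * (1 / W'))) := by
      refine hfar.trans ?_
      gcongr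
    have h6 : H * (6 * (n * (1 / W'))) = (6 * n * H) / W' := by
      field_simp
    rw [h6, le_div_iff₀ hW', one_mul] at h5
    exact absurd (h2 τ σ) (not_lt.2 h5)
  · intro hnear
    by_contra hncl
    apply hnear
    have h3 : ∃ x, x ∈ closure φ.solutionSet ∧ x ∉ φ.solutionSet := by
      by_contra hcon
      push Not at hcon
      exact hncl (isClosed_of_closure_subset hcon)
    obtain ⟨x, hxc, hxn⟩ := h3
    -- choose a sign vector
    let pat : (Fin n → ℝ) → (Fin φ.atoms.length → SignType) :=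
      fun y j => SignType.sign ((φ.atoms.get j).eval y)
    have h4 : φ.solutionSet = ⋃ s : Fin φ.atoms.length → SignType,
        {y | y ∈ φ.solutionSet ∧ pat y = s} := by
      ext y
      simp
    rw [h4, closure_iUnion_of_finite] at hxc
    obtain ⟨s, hs⟩ := Set.mem_iUnion.1 hxc
    have hne : {y | y ∈ φ.solutionSet ∧ pat y = s}.Nonempty := by
      by_contra hemp
      rw [Set.not_nonempty_iff_eq_empty] at hemp
      rw [hemp, closure_empty] at hs
      exact hs
    obtain ⟨y₀, hy₀, hpat⟩ := hne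
    let τ : Term n → SignType := fun f => SignType.sign (f.eval x)
    let σ : Term n → SignType := fun f => SignType.sign (f.eval y₀)
    have hgood : ∀ b : ℝ, 0 < b → ∃ x' y', Good1 φ τ σ b x' y' ∧ size1 φ x' ≤ size1 φ x := by
      intro b hb
      have hε : 0 < Real.sqrt b⁻¹ := Real.sqrt_pos.2 (by positivity)
      obtain ⟨y, ⟨hyS, hy⟩, hxy⟩ := Metric.mem_closure_iff.1 hs _ hε
      refine ⟨x, y, ⟨fun f _ => rfl, fun f hf => ?_, fun i => ?_⟩, le_rfl⟩
      · obtain ⟨j, rfl⟩ := List.get_of_mem hf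
        have h5 := congrFun (hy.trans hpat.symm) j
        exact h5
      · have h5 : |y i - x i| ≤ Real.sqrt b⁻¹ := by
          have h6 := dist_le_pi_dist x y i
          rw [Real.dist_eq, abs_sub_comm] at h6
          linarith
        have h6 : (y i - x i) ^ 2 ≤ b⁻¹ := by
          calc (y i - x i) ^ 2 = |y i - x i| ^ 2 := (sq_abs _).symm
            _ ≤ Real.sqrt b⁻¹ ^ 2 := pow_le_pow_left₀ (abs_nonneg _) h5 2
            _ = b⁻¹ := Real.sq_sqrt (by positivity)
        calc b * (y i - x i) ^ 2 ≤ b * b⁻¹ := mul_le_mul_of_nonneg_left h6 hb.le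
          _ = 1 := mul_inv_cancel₀ hb.ne'
    obtain ⟨x', y', ⟨g1, g2, g3⟩, hle⟩ := margins τ σ (size1 φ x) hgood W' hW'
    have hle' := hle.trans (h1 τ σ)
    refine ⟨x', y', fun i => (sq_le_size1 x' i).trans hle', fun f hf => ?_, ?_, ?_, g3⟩
    · by_cases h0 : f.eval x' = 0
      · exact Or.inl h0
      · right
        refine (inv_le_size1 x' hf h0).trans ?_
        exact mul_le_mul_of_nonneg_right hle' (sq_nonneg _)
    · intro h
      exact hxn ((Formula.holds_congr x' x φ g1).1 h)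
    · exact (Formula.holds_congr y' y₀ φ g2).2 hy₀

end Pool.Agent.Helper53_Closed
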