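import Pool.Agent.Helper53_Closed.Code

/-!
# Points outside a set but in its closure, with explicit margins
-/

namespace Pool.Agent.Helper53_Closed

variable {n : ℕ} (φ : Formula n)

/-- equations for points `x`, `y` with given sign vectors and `b * (y i - x i) ^ 2 ≤ 1` -/
noncomputable def sys1 (τ σ : Term n → SignType) : List (Eqn (Ix φ 0)) :=
  termEqs φ 0 .X ++ (termEqs φ 0 .Y ++ (signEqs φ 0 .X .U .R .P τ ++
    (signEqs φ 0 .Y .U' .R' .P' σ ++ (List.finRange n).flatMap fun i =>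
      [.add (vi φ 0 .Y (.var i)) (vi φ 0 .X (.var i)) (vi φ 0 .D (.var i)),
        .mul (vi φ 0 .E (.var i)) (vi φ 0 .D (.var i)) (vi φ 0 .D (.var i)),
        .bmul (vi φ 0 .E (.var i)) (vi φ 0 .H (.var i)),
        .mul (vi φ 0 .Q (.var i)) (vi φ 0 .S (.var i)) (vi φ 0 .S (.var i)),
        .add (vi φ 0 .O (.var i)) (vi φ 0 .H (.var i)) (vi φ 0 .Q (.var i)),
        .lin (vi φ 0 .O (.var i)) 1])))

/-- the objective: coordinates of `x` and inverses of the absolute values of the polynomials -/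
noncomputable def obj1 : List (Ix φ 0) :=
  (List.finRange n).map (fun i => vi φ 0 .X (.var i)) ++ φ.atoms.map (fun f => vi φ 0 .R f)

/-- the objective in terms of the point -/
noncomputable def size1 (x : Fin n → ℝ) : ℝ :=
  ((List.finRange n).map (fun i => x i ^ 2)).sum +
    (φ.atoms.map (fun f => (|f.eval x|⁻¹) ^ 2)).sum

/-- the conditions on the points -/
def Good1 (τ σ : Term n → SignType) (b : ℝ) (x y : Fin n → ℝ) : Prop :=
  (∀ f ∈ φ.atoms, SignType.sign (f.eval x) = τ f) ∧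
  (∀ f ∈ φ.atoms, SignType.sign (f.eval y) = σ f) ∧ ∀ i, b * (y i - x i) ^ 2 ≤ 1

variable {φ}

theorem sys1_of_points {τ σ : Term n → SignType} {b : ℝ} {x y : Fin n → ℝ}
    (h : Good1 φ τ σ b x y) : ∃ z, Sat b z (sys1 φ τ σ) ∧ obj (obj1 φ) z = size1 φ x := by
  obtain ⟨hx, hy, hb⟩ := h
  -- values for variables
  let d : Term n → ℝ := fun t => t.eval y - t.eval x
  let g : Nm → Term n → ℝ := fun k t =>
    match k with
    | .X => t.eval x
    | .U => Real.sqrt |t.eval x|⁻¹
    | .R => |t.eval x|⁻¹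
    | .P => t.eval x * |t.eval x|⁻¹
    | .Y => t.eval y
    | .U' => Real.sqrt |t.eval y|⁻¹
    | .R' => |t.eval y|⁻¹
    | .P' => t.eval y * |t.eval y|⁻¹
    | .D => d t
    | .E => d t * d t
    | .H => b * (d t * d t)
    | .Q => 1 - b * (d t * d t)
    | .S => Real.sqrt (1 - b * (d t * d t))
    | .O => 1
    | _ => 0
  refine ⟨asg φ 0 g (fun _ => 0), ?_, ?_⟩
  · unfold sys1
    rw [sat_append, sat_append, sat_append, sat_append]
    refine ⟨?_, ?_, ?_, ?_, ?_⟩
    · rw [sat_termEqs]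
      intro t ht
      rw [asg_vi g _ _ ht]
      have : (fun i => asg φ 0 g (fun _ => 0) (vi φ 0 Nm.X (Term.var i))) = x := by
        funext i
        rw [asg_vi g _ _ (φ.var_mem i)]
        rfl
      rw [this]
    · rw [sat_termEqs]
      intro t ht
      rw [asg_vi g _ _ ht]
      have : (fun i => asg φ 0 g (fun _ => 0) (vi φ 0 Nm.Y (Term.var i))) = y := by
        funext i
        rw [asg_vi g _ _ (φ.var_mem i)]
        rfl
      rw [this]
    · rw [sat_signEqs]
      intro f hf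
      have hm := φ.atom_mem hf
      rw [asg_vi g _ _ hm, asg_vi g _ _ hm, asg_vi g _ _ hm, asg_vi g _ _ hm, ← hx f hf]
      obtain ⟨h1, h2, h3⟩ := eqs_of_sign (f.eval x)
      exact ⟨h1, rfl, h2, h3⟩
    · rw [sat_signEqs]
      intro f hf
      have hm := φ.atom_mem hf
      rw [asg_vi g _ _ hm, asg_vi g _ _ hm, asg_vi g _ _ hm, asg_vi g _ _ hm, ← hy f hf]
      obtain ⟨h1, h2, h3⟩ := eqs_of_sign (f.eval y)
      exact ⟨h1, rfl, h2, h3⟩
    · rw [sat_flatMap]
      intro i _
      have hm := φ.var_mem i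
      simp only [sat_cons, sat_nil, holds_add, holds_mul, holds_bmul, holds_lin,
        asg_vi g _ _ hm, and_true, Int.cast_one]
      have hb' : 0 ≤ 1 - b * (d (.var i) * d (.var i)) := by
        have := hb i
        have e : d (.var i) = y i - x i := rfl
        rw [e]
        nlinarith
      refine ⟨?_, rfl, rfl, ?_, ?_, rfl⟩
      · show y i = x i + (y i - x i)
        ring
      · show 1 - b * (d (.var i) * d (.var i)) = Real.sqrt (1 - b * (d (.var i) * d (.var i))) *
          Real.sqrt (1 - b * (d (.var i) * d (.var i)))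
        rw [Real.mul_self_sqrt hb']
      · show (1 : ℝ) = b * (d (.var i) * d (.var i)) + (1 - b * (d (.var i) * d (.var i)))
        ring
  · unfold obj obj1 size1
    rw [List.map_append, List.sum_append, List.map_map, List.map_map]
    congr 2
    · refine List.map_congr_left (fun i _ => ?_)
      simp only [Function.comp, asg_vi g _ _ (φ.var_mem i)]
      rfl
    · refine List.map_congr_left (fun f hf => ?_)
      simp only [Function.comp, asg_vi g _ _ (φ.atom_mem hf)]
      rfl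

theorem points_of_sys1 {τ σ : Term n → SignType} {b : ℝ} {z : Ix φ 0 → ℝ}
    (h : Sat b z (sys1 φ τ σ)) : ∃ x y, Good1 φ τ σ b x y ∧ obj (obj1 φ) z = size1 φ x := by
  unfold sys1 at h
  rw [sat_append, sat_append, sat_append, sat_append] at h
  obtain ⟨h1, h2, h3, h4, h5⟩ := h
  rw [sat_termEqs] at h1 h2
  rw [sat_signEqs] at h3 h4
  rw [sat_flatMap] at h5
  set x : Fin n → ℝ := fun i => z (vi φ 0 .X (.var i)) with hx
  set y : Fin n → ℝ := fun i => z (vi φ 0 .Y (.var i)) with hy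
  refine ⟨x, y, ⟨?_, ?_, ?_⟩, ?_⟩
  · intro f hf
    obtain ⟨a1, a2, a3, a4⟩ := h3 f hf
    rw [h1 f (φ.atom_mem hf)] at a2 a4
    exact (sign_of_eqs a1 a2 a3 a4).1
  · intro f hf
    obtain ⟨a1, a2, a3, a4⟩ := h4 f hf
    rw [h2 f (φ.atom_mem hf)] at a2 a4
    exact (sign_of_eqs a1 a2 a3 a4).1
  · intro i
    have := h5 i (List.mem_finRange i)
    simp only [sat_cons, sat_nil, holds_add, holds_mul, holds_bmul, holds_lin,
      and_true, Int.cast_one] at this
    obtain ⟨b1, b2, b3, b4, b5, b6⟩ := this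
    have e1 : y i - x i = z (vi φ 0 .D (.var i)) := by
      show z (vi φ 0 .Y (.var i)) - z (vi φ 0 .X (.var i)) = _
      rw [b1]
      ring
    rw [e1, sq, ← b2, b3]
    have h6 : 0 ≤ z (vi φ 0 .Q (.var i)) := by
      rw [b4]
      exact mul_self_nonneg _
    rw [b6] at b5
    linarith
  · unfold obj obj1 size1
    rw [List.map_append, List.sum_append, List.map_map, List.map_map]
    congr 2
    refine List.map_congr_left (fun f hf => ?_)
    obtain ⟨a1, a2, a3, a4⟩ := h3 f hf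
    rw [h1 f (φ.atom_mem hf)] at a2 a4
    simp only [Function.comp]
    rw [(sign_of_eqs a1 a2 a3 a4).2]

/-- Existence of points with explicit margins. -/
theorem margins (τ σ : Term n → SignType) (B : ℝ)
    (h : ∀ b : ℝ, 0 < b → ∃ x y, Good1 φ τ σ b x y ∧ size1 φ x ≤ B) (b : ℝ) (hb : 0 < b) :
    ∃ x y, Good1 φ τ σ b x y ∧
      size1 φ x ≤ HB (Fintype.card (Ix φ 0)) (slen (sys1 φ τ σ) (obj1 φ)) + 1 := by
  obtain ⟨z, hz, hle⟩ := sys_upper (sys1 φ τ σ) (obj1 φ) B (fun b hb => by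
    obtain ⟨x, y, hg, hB⟩ := h b hb
    obtain ⟨z, hz, he⟩ := sys1_of_points hg
    exact ⟨z, hz, he ▸ hB⟩) (fun b b' hb hbb' z' hz' => by
    obtain ⟨x, y, hg, he⟩ := points_of_sys1 hz'
    have hg' : Good1 φ τ σ b x y := ⟨hg.1, hg.2.1, fun i => by
      have h1 := hg.2.2 i
      have h2 : b * (y i - x i) ^ 2 ≤ b' * (y i - x i) ^ 2 :=
        mul_le_mul_of_nonneg_right hbb' (sq_nonneg _)
      linarith⟩
    obtain ⟨z, hz, he'⟩ := sys1_of_points hg'
    exact ⟨z, hz, by rw [he', he]⟩) b hb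
  obtain ⟨x, y, hg, he⟩ := points_of_sys1 hz
  exact ⟨x, y, hg, he ▸ hle⟩

theorem sq_le_size1 (x : Fin n → ℝ) (i : Fin n) : x i ^ 2 ≤ size1 φ x := by
  unfold size1
  have h1 : x i ^ 2 ≤ ((List.finRange n).map (fun i => x i ^ 2)).sum :=
    List.single_le_sum (by
      intro y hy
      obtain ⟨j, _, rfl⟩ := List.mem_map.1 hy
      positivity) _ (List.mem_map_of_mem (List.mem_finRange i))
  have h2 : 0 ≤ (φ.atoms.map (fun f => (|f.eval x|⁻¹) ^ 2)).sum := List.sum_nonneg (by
    intro y hy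
    obtain ⟨j, _, rfl⟩ := List.mem_map.1 hy
    positivity)
  linarith

theorem inv_le_size1 (x : Fin n → ℝ) {f : Term n} (hf : f ∈ φ.atoms) (h0 : f.eval x ≠ 0) :
    1 ≤ size1 φ x * f.eval x ^ 2 := by
  have h1 : (|f.eval x|⁻¹) ^ 2 ≤ size1 φ x := by
    unfold size1
    have h1 : (|f.eval x|⁻¹) ^ 2 ≤ (φ.atoms.map (fun f => (|f.eval x|⁻¹) ^ 2)).sum :=
      List.single_le_sum (by
        intro y hy
        obtain ⟨j, _, rfl⟩ := List.mem_map.1 hy
        positivity) _ (List.mem_map_of_mem hf)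
    have h2 : 0 ≤ ((List.finRange n).map (fun i => x i ^ 2)).sum := List.sum_nonneg (by
      intro y hy
      obtain ⟨j, _, rfl⟩ := List.mem_map.1 hy
      positivity)
    linarith
  have h2 : (0 : ℝ) < f.eval x ^ 2 := by positivity
  calc (1 : ℝ) = (|f.eval x|⁻¹) ^ 2 * f.eval x ^ 2 := by
        rw [← sq_abs (f.eval x), ← mul_pow, inv_mul_cancel₀ (abs_ne_zero.2 h0), one_pow]
    _ ≤ _ := mul_le_mul_of_nonneg_right h1 h2.le

end Pool.Agent.Helper53_Closed
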