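import Pool.Agent.Helper53_Closed.Sys1

/-!
# Points with explicit margins are far from closed sets
-/

namespace Pool.Agent.Helper53_Closed

variable {n : ℕ} (φ : Formula n) (K : ℕ)

/-- repeated squaring -/
noncomputable def chainEqs : List (Eqn (Ix φ K)) :=
  .lin (wi φ K 0) 2 :: (List.range K).map (fun k => .mul (wi φ K (k + 1)) (wi φ K k) (wi φ K k))

/-- equations for points `x`, `y` with given sign vectors, `x` with margins -/
noncomputable def sys2 (τ σ : Term n → SignType) : List (Eqn (Ix φ K)) :=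
  termEqs φ K .X ++ (termEqs φ K .Y ++ (signEqs φ K .X .U .R .P τ ++
    (signEqs φ K .Y .U' .R' .P' σ ++ (chainEqs φ K ++ (((List.finRange n).flatMap fun i =>
      [.add (vi φ K .Y (.var i)) (vi φ K .X (.var i)) (vi φ K .D (.var i)),
        .mul (vi φ K .E (.var i)) (vi φ K .X (.var i)) (vi φ K .X (.var i)),
        .mul (vi φ K .Q (.var i)) (vi φ K .S (.var i)) (vi φ K .S (.var i)),
        .add (wi φ K K) (vi φ K .E (.var i)) (vi φ K .Q (.var i))]) ++
      φ.atoms.flatMap fun f => if τ f = 0 then [] else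
        [.mul (vi φ K .G f) (vi φ K .X f) (vi φ K .X f),
        .mul (vi φ K .H f) (wi φ K K) (vi φ K .G f),
        .mul (vi φ K .Q2 f) (vi φ K .S2 f) (vi φ K .S2 f),
        .lin (vi φ K .O f) 1,
        .add (vi φ K .H f) (vi φ K .O f) (vi φ K .Q2 f)])))))

/-- the objective: coordinates of `y - x` -/
noncomputable def obj2 : List (Ix φ K) := (List.finRange n).map (fun i => vi φ K .D (.var i))

/-- squared distance -/
noncomputable def size2 (x y : Fin n → ℝ) : ℝ :=
  ((List.finRange n).map (fun i => (y i - x i) ^ 2)).sum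

/-- the conditions on the points -/
def Good2 (τ σ : Term n → SignType) (W : ℝ) (x y : Fin n → ℝ) : Prop :=
  (∀ f ∈ φ.atoms, SignType.sign (f.eval x) = τ f) ∧
  (∀ f ∈ φ.atoms, SignType.sign (f.eval y) = σ f) ∧ (∀ i, x i ^ 2 ≤ W) ∧
  ∀ f ∈ φ.atoms, τ f ≠ 0 → 1 ≤ W * f.eval x ^ 2

variable {φ K}

theorem sat_chain (b : ℝ) (z : Ix φ K → ℝ) :
    Sat b z (chainEqs φ K) ↔ ∀ k ≤ K, z (wi φ K k) = 2 ^ 2 ^ k := by
  unfold chainEqs
  rw [sat_cons, holds_lin]
  constructor
  · rintro ⟨h0, h⟩ k
    induction k with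
    | zero =>
      intro _
      rw [h0]
      norm_num
    | succ k ih =>
      intro hk
      have h1 := h _ (List.mem_map_of_mem (List.mem_range.2 (show k < K by omega)))
      rw [holds_mul] at h1
      rw [h1, ih (by omega), ← pow_add]
      congr 1
      ring
  · intro h
    refine ⟨?_, ?_⟩
    · rw [h 0 (Nat.zero_le _)]
      norm_num
    · intro e he
      obtain ⟨k, hk, rfl⟩ := List.mem_map.1 he
      have hk' := List.mem_range.1 hk
      rw [holds_mul, h k (by omega), h (k + 1) (by omega), ← pow_add]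
      congr 1
      ring

theorem sys2_of_points {τ σ : Term n → SignType} {x y : Fin n → ℝ}
    (h : Good2 φ τ σ (2 ^ 2 ^ K) x y) :
    ∃ z, Sat 0 z (sys2 φ K τ σ) ∧ obj (obj2 φ K) z = size2 x y := by
  obtain ⟨hx, hy, hW, hm0⟩ := h
  set W : ℝ := 2 ^ 2 ^ K with hWdef
  let g : Nm → Term n → ℝ := fun k t =>
    match k with
    | .X => t.eval x
    | .U => Real.sqrt |t.eval x|⁻¹
    | .R => |t.eval x|⁻¹
    | .P => t.eval x * |t.eval x|⁻¹
    | .Y => t.eval y
    | .U' => Real.sqrt |t.eval y|⁻¹
    | .R' => |t.eval y|⁻¹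
    | .P' => t.eval y * |t.eval y|⁻¹
    | .D => t.eval y - t.eval x
    | .E => t.eval x * t.eval x
    | .Q => W - t.eval x * t.eval x
    | .S => Real.sqrt (W - t.eval x * t.eval x)
    | .O => 1
    | .G => t.eval x * t.eval x
    | .H => W * (t.eval x * t.eval x)
    | .Q2 => W * (t.eval x * t.eval x) - 1
    | .S2 => Real.sqrt (W * (t.eval x * t.eval x) - 1)
  let w : ℕ → ℝ := fun k => 2 ^ 2 ^ k
  refine ⟨asg φ K g w, ?_, ?_⟩
  · unfold sys2
    rw [sat_append, sat_append, sat_append, sat_append, sat_append, sat_append]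
    refine ⟨?_, ?_, ?_, ?_, ?_, ?_, ?_⟩
    · rw [sat_termEqs]
      intro t ht
      rw [asg_vi g _ _ ht]
      have : (fun i => asg φ K g w (vi φ K Nm.X (Term.var i))) = x := by
        funext i
        rw [asg_vi g _ _ (φ.var_mem i)]
        rfl
      rw [this]
    · rw [sat_termEqs]
      intro t ht
      rw [asg_vi g _ _ ht]
      have : (fun i => asg φ K g w (vi φ K Nm.Y (Term.var i))) = y := by
        funext i
        rw [asg_vi g _ _ (φ.var_mem i)]
        rfl
      rw [this]
    · rw [sat_signEqs]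
      intro f hf
      have hm := φ.atom_mem hf
      rw [asg_vi g _ _ hm, asg_vi g _ _ hm, asg_vi g _ _ hm, asg_vi g _ _ hm, ← hx f hf]
      obtain ⟨h1, h2, h3⟩ := eqs_of_sign (f.eval x)
      exact ⟨h1, rfl, h2, h3⟩
    · rw [sat_signEqs]
      intro f hf
      have hm := φ.atom_mem hf
      rw [asg_vi g _ _ hm, asg_vi g _ _ hm, asg_vi g _ _ hm, asg_vi g _ _ hm, ← hy f hf]
      obtain ⟨h1, h2, h3⟩ := eqs_of_sign (f.eval y)
      exact ⟨h1, rfl, h2, h3⟩
    · rw [sat_chain]
      intro k hk
      rw [asg_wi g w hk]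
    · rw [sat_flatMap]
      intro i _
      have hm := φ.var_mem i
      simp only [sat_cons, sat_nil, holds_add, holds_mul, holds_bmul, holds_lin,
        asg_vi g _ _ hm, asg_wi g w (le_refl K), and_true]
      have hb' : 0 ≤ W - x i * x i := by
        have := hW i
        nlinarith
      refine ⟨?_, rfl, ?_, ?_⟩
      · show y i = x i + (y i - x i)
        ring
      · show W - x i * x i = Real.sqrt (W - x i * x i) * Real.sqrt (W - x i * x i)
        rw [Real.mul_self_sqrt hb']
      · show W = x i * x i + (W - x i * x i)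
        ring
    · rw [sat_flatMap]
      intro f hf
      have hm := φ.atom_mem hf
      by_cases h0 : τ f = 0
      · rw [if_pos h0]
        exact (sat_nil _ _).2 trivial
      · rw [if_neg h0]
        simp only [sat_cons, sat_nil, holds_add, holds_mul, holds_bmul, holds_lin,
          asg_vi g _ _ hm, asg_wi g w (le_refl K), and_true, Int.cast_one]
        have hb' : 0 ≤ W * (f.eval x * f.eval x) - 1 := by
          have := hm0 f hf h0
          nlinarith
        refine ⟨rfl, rfl, ?_, rfl, ?_⟩
        · show W * (f.eval x * f.eval x) - 1 = Real.sqrt (W * (f.eval x * f.eval x) - 1) *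
            Real.sqrt (W * (f.eval x * f.eval x) - 1)
          rw [Real.mul_self_sqrt hb']
        · show W * (f.eval x * f.eval x) = 1 + (W * (f.eval x * f.eval x) - 1)
          ring
  · unfold obj obj2 size2
    rw [List.map_map]
    congr 1
    refine List.map_congr_left (fun i _ => ?_)
    simp only [Function.comp, asg_vi g _ _ (φ.var_mem i)]
    rfl

theorem points_of_sys2 {τ σ : Term n → SignType} {z : Ix φ K → ℝ}
    (h : Sat 0 z (sys2 φ K τ σ)) :
    ∃ x y, Good2 φ τ σ (2 ^ 2 ^ K) x y ∧ obj (obj2 φ K) z = size2 x y := by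
  unfold sys2 at h
  rw [sat_append, sat_append, sat_append, sat_append, sat_append, sat_append] at h
  obtain ⟨h1, h2, h3, h4, hc, h5, h6⟩ := h
  rw [sat_termEqs] at h1 h2
  rw [sat_signEqs] at h3 h4
  rw [sat_chain] at hc
  rw [sat_flatMap] at h5 h6
  have hK := hc K le_rfl
  set x : Fin n → ℝ := fun i => z (vi φ K .X (.var i)) with hx
  set y : Fin n → ℝ := fun i => z (vi φ K .Y (.var i)) with hy
  have hd : ∀ i, y i - x i = z (vi φ K .D (.var i)) := by
    intro i
    have := h5 i (List.mem_finRange i)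
    simp only [sat_cons, sat_nil, holds_add, holds_mul, and_true] at this
    show z (vi φ K .Y (.var i)) - z (vi φ K .X (.var i)) = _
    rw [this.1]
    ring
  refine ⟨x, y, ⟨?_, ?_, ?_, ?_⟩, ?_⟩
  · intro f hf
    obtain ⟨a1, a2, a3, a4⟩ := h3 f hf
    rw [h1 f (φ.atom_mem hf)] at a2 a4
    exact (sign_of_eqs a1 a2 a3 a4).1
  · intro f hf
    obtain ⟨a1, a2, a3, a4⟩ := h4 f hf
    rw [h2 f (φ.atom_mem hf)] at a2 a4
    exact (sign_of_eqs a1 a2 a3 a4).1
  · intro i
    have := h5 i (List.mem_finRange i)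
    simp only [sat_cons, sat_nil, holds_add, holds_mul, and_true] at this
    obtain ⟨_, b2, b3, b4⟩ := this
    rw [hK] at b4
    rw [b4, b2, b3]
    have := mul_self_nonneg (z (vi φ K .S (.var i)))
    have e : x i ^ 2 = z (vi φ K .X (.var i)) * z (vi φ K .X (.var i)) := sq _
    linarith
  · intro f hf h0
    have := h6 f hf
    rw [if_neg h0] at this
    simp only [sat_cons, sat_nil, holds_add, holds_mul, holds_lin, and_true, Int.cast_one] at this
    obtain ⟨b1, b2, b3, b4, b5⟩ := this
    rw [b2, b1, b3, b4, hK, h1 f (φ.atom_mem hf)] at b5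
    have := mul_self_nonneg (z (vi φ K .S2 f))
    rw [sq]
    linarith
  · unfold obj obj2 size2
    rw [List.map_map]
    congr 1
    refine List.map_congr_left (fun i _ => ?_)
    simp only [Function.comp]
    rw [hd i]

theorem sys2_noPar (τ σ : Term n → SignType) : ∀ e ∈ sys2 φ K τ σ, e.NoPar := by
  have ht : ∀ k, ∀ e ∈ termEqs φ K k, e.NoPar := by
    intro k e he
    obtain ⟨t, _, ht⟩ := List.mem_flatMap.1 he
    cases t with
    | var i => exact absurd ht List.not_mem_nil
    | const c =>
      simp only [List.mem_cons, List.not_mem_nil, or_false] at ht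
      subst ht
      trivial
    | add s u =>
      simp only [List.mem_cons, List.not_mem_nil, or_false] at ht
      subst ht
      trivial
    | mul s u =>
      simp only [List.mem_cons, List.not_mem_nil, or_false] at ht
      subst ht
      trivial
  have hs : ∀ kx ku kr kp (τ : Term n → SignType), ∀ e ∈ signEqs φ K kx ku kr kp τ, e.NoPar := by
    intro kx ku kr kp τ e he
    obtain ⟨f, _, hf⟩ := List.mem_flatMap.1 he
    split_ifs at hf
    · simp only [List.cons_append, List.nil_append, List.mem_cons, List.not_mem_nil,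
        or_false] at hf
      rcases hf with rfl | rfl | rfl | rfl | rfl <;> trivial
    · simp only [List.append_nil, List.mem_cons, List.not_mem_nil, or_false] at hf
      rcases hf with rfl | rfl | rfl <;> trivial
  intro e he
  unfold sys2 at he
  simp only [List.mem_append] at he
  rcases he with he | he | he | he | he | he | he
  · exact ht _ e he
  · exact ht _ e he
  · exact hs _ _ _ _ _ e he
  · exact hs _ _ _ _ _ e he
  · unfold chainEqs at he
    rcases List.mem_cons.1 he with rfl | he
    · trivial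
    · obtain ⟨k, _, rfl⟩ := List.mem_map.1 he
      trivial
  · obtain ⟨i, _, hi⟩ := List.mem_flatMap.1 he
    simp only [List.mem_cons, List.not_mem_nil, or_false] at hi
    rcases hi with rfl | rfl | rfl | rfl <;> trivial
  · obtain ⟨f, _, hf⟩ := List.mem_flatMap.1 he
    split_ifs at hf
    · exact absurd hf List.not_mem_nil
    · simp only [List.mem_cons, List.not_mem_nil, or_false] at hf
      rcases hf with rfl | rfl | rfl | rfl | rfl <;> trivial

/-- Points with margins have explicit distance to the closed set. -/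
theorem far (τ σ : Term n → SignType) (δ : ℝ) (hδ : 0 < δ)
    (h : ∀ x y, Good2 φ τ σ (2 ^ 2 ^ K) x y → δ ≤ size2 x y) (x y : Fin n → ℝ)
    (hxy : Good2 φ τ σ (2 ^ 2 ^ K) x y) :
    1 ≤ HB (Fintype.card (Ix φ K)) (slen (sys2 φ K τ σ) (obj2 φ K)) * (6 * size2 x y) := by
  obtain ⟨z, hz, he⟩ := sys2_of_points hxy
  rw [← he]
  refine sys_lower (sys2 φ K τ σ) (obj2 φ K) (sys2_noPar τ σ) δ hδ (fun z hz => ?_) z hz
  obtain ⟨x, y, hg, he⟩ := points_of_sys2 hz
  rw [he]
  exact h x y hg

end Pool.Agent.Helper53_Closed
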