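import Pool.Agent.Helper53_Closed.Norm

/-!
# Leading coefficients and limits
-/

namespace Pool.Agent.Helper53_Closed

open MvPolynomial Filter Topology

/-- lengths of polynomials with integer coefficients -/
noncomputable def zlen {n : ℕ} (p : MvPolynomial (Fin n) ℤ) : ℕ := (mvLen intLen).len p

/-- the leading coefficient with respect to the first variable -/
noncomputable def top {n : ℕ} (p : MvPolynomial (Fin (n + 1)) ℤ) : MvPolynomial (Fin n) ℤ :=
  (finSuccEquiv ℤ n p).leadingCoeff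

theorem top_ne_zero {n : ℕ} {p : MvPolynomial (Fin (n + 1)) ℤ} (h : p ≠ 0) : top p ≠ 0 := by
  unfold top
  rw [Ne, Polynomial.leadingCoeff_eq_zero]
  simpa using h

theorem zlen_top {n : ℕ} (p : MvPolynomial (Fin (n + 1)) ℤ) : zlen (top p) ≤ zlen p := by
  classical
  show mlen intLen (top p) ≤ mlen intLen p
  unfold mlen
  have h1 : ∀ m : Fin n →₀ ℕ, (top p).coeff m =
      p.coeff (m.cons (finSuccEquiv ℤ n p).natDegree) := fun m => by
    rw [← finSuccEquiv_coeff_coeff]
    rfl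
  calc ∑ m ∈ (top p).support, intLen.len ((top p).coeff m) =
        ∑ m ∈ ((top p).support.map ⟨fun m => m.cons (finSuccEquiv ℤ n p).natDegree,
          fun a b h => (Finsupp.cons_injective2 h).2⟩), intLen.len (p.coeff m) := by
        rw [Finset.sum_map]
        exact Finset.sum_congr rfl (fun m _ => by rw [h1]; rfl)
    _ ≤ ∑ m ∈ p.support, intLen.len (p.coeff m) := by
        refine Finset.sum_le_sum_of_subset ?_
        intro m hm
        rw [Finset.mem_map] at hm
        obtain ⟨m', hm', rfl⟩ := hm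
        rw [mem_support_iff] at hm' ⊢
        rw [h1] at hm'
        exact hm'

theorem aeval_cons {n : ℕ} (p : MvPolynomial (Fin (n + 1)) ℤ) (s : ℝ) (v : Fin n → ℝ) :
    aeval (Fin.cons s v : Fin (n + 1) → ℝ) p =
      Polynomial.eval₂ ((aeval v : MvPolynomial (Fin n) ℤ →ₐ[ℤ] ℝ) : _ →+* ℝ) s
        (finSuccEquiv ℤ n p) := by
  induction p using MvPolynomial.induction_on with
  | C a =>
    have h1 : (C a : MvPolynomial (Fin (n + 1)) ℤ) = (a : MvPolynomial (Fin (n + 1)) ℤ) :=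
      eq_intCast C a
    rw [h1, map_intCast, map_intCast]
    let f : MvPolynomial (Fin n) ℤ →+* ℝ := (aeval v : MvPolynomial (Fin n) ℤ →ₐ[ℤ] ℝ)
    exact (map_intCast (Polynomial.eval₂RingHom f s) a).symm
  | add p q hp hq => rw [map_add, map_add, Polynomial.eval₂_add, hp, hq]
  | mul_X p i hp =>
    rw [map_mul, map_mul, Polynomial.eval₂_mul, hp]
    congr 1
    rw [aeval_X]
    refine Fin.cases ?_ (fun i => ?_) i
    · rw [finSuccEquiv_X_zero]
      simp
    · rw [finSuccEquiv_X_succ]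
      simp

theorem tendsto_aeval {n : ℕ} (p : MvPolynomial (Fin n) ℤ) {α : Type} {l : Filter α}
    {v : α → Fin n → ℝ} {v₀ : Fin n → ℝ} (h : Tendsto v l (𝓝 v₀)) :
    Tendsto (fun s => aeval (v s) p) l (𝓝 (aeval v₀ p)) := by
  have hc : Continuous (fun v : Fin n → ℝ => aeval v p) := by
    induction p using MvPolynomial.induction_on with
    | C a => simp only [algHom_C]; exact continuous_const
    | add p q hp hq => simp only [map_add]; exact hp.add hq
    | mul_X p i hp =>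
      simp only [map_mul, aeval_X]
      exact hp.mul (continuous_apply i)
  exact (hc.tendsto v₀).comp h

/-- If a polynomial vanishes along a curve whose first coordinate goes to infinity while the
others converge, its leading coefficient vanishes at the limit. -/
theorem top_limit {n : ℕ} (p : MvPolynomial (Fin (n + 1)) ℤ) (v : ℝ → Fin n → ℝ)
    (v₀ : Fin n → ℝ) (h : Tendsto v atTop (𝓝 v₀))
    (h0 : ∀ᶠ s in atTop, aeval (Fin.cons s (v s) : Fin (n + 1) → ℝ) p = 0) :
    aeval v₀ (top p) = 0 := by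
  set q := finSuccEquiv ℤ n p with hq
  set K := q.natDegree with hK
  have h1 : Tendsto (fun s : ℝ => ∑ i ∈ Finset.range (K + 1),
      aeval (v s) (q.coeff i) * (s ^ i / s ^ K)) atTop
      (𝓝 (∑ i ∈ Finset.range (K + 1), if i = K then aeval v₀ (top p) else 0)) := by
    refine tendsto_finsetSum _ (fun i hi => ?_)
    by_cases hiK : i = K
    · subst hiK
      rw [if_pos rfl]
      have h2 := tendsto_aeval (q.coeff K) h
      refine h2.congr' ?_
      filter_upwards [eventually_gt_atTop 0] with s hs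
      rw [div_self (pow_ne_zero _ hs.ne'), mul_one]
    · rw [if_neg hiK]
      have hlt : i < K := by
        have := Finset.mem_range.1 hi
        omega
      have h2 := tendsto_aeval (q.coeff i) h
      have h3 := tendsto_pow_div_pow_atTop_zero (𝕜 := ℝ) hlt
      have h4 := h2.mul h3
      rwa [mul_zero] at h4
  have h2 : ∀ᶠ s : ℝ in atTop, (∑ i ∈ Finset.range (K + 1),
      aeval (v s) (q.coeff i) * (s ^ i / s ^ K)) = 0 := by
    filter_upwards [h0, eventually_gt_atTop 0] with s hs hs0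
    rw [aeval_cons, Polynomial.eval₂_eq_sum_range] at hs
    have h3 : (∑ i ∈ Finset.range (K + 1), aeval (v s) (q.coeff i) * (s ^ i / s ^ K)) =
        (∑ i ∈ Finset.range (K + 1), aeval (v s) (q.coeff i) * s ^ i) / s ^ K := by
      rw [Finset.sum_div]
      exact Finset.sum_congr rfl (fun i _ => by rw [mul_div_assoc])
    rw [h3]
    have h5 : (∑ i ∈ Finset.range (K + 1), aeval (v s) (q.coeff i) * s ^ i) = 0 := hs
    rw [h5, zero_div]
  have h3 : Tendsto (fun _ : ℝ => (0 : ℝ)) atTop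
      (𝓝 (∑ i ∈ Finset.range (K + 1), if i = K then aeval v₀ (top p) else 0)) :=
    h1.congr' h2
  have h4 := tendsto_nhds_unique h3 tendsto_const_nhds
  rw [Finset.sum_ite_eq' (Finset.range (K + 1)) K, if_pos (Finset.mem_range.2 (Nat.lt_succ_self K))]
    at h4
  exact h4

/-! ### Roots of polynomials in one variable -/

theorem root_upper (p : MvPolynomial (Fin 1) ℤ) (hp : p ≠ 0) (t : ℝ)
    (h : aeval (fun _ => t) p = 0) : |t| ≤ zlen p := by
  classical
  by_contra hcon
  push Not at hcon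
  obtain ⟨m, hm, hmax⟩ := Finset.exists_max_image p.support (fun m => m 0)
    (support_nonempty.2 hp)
  have hz : (1 : ℝ) ≤ zlen p := by
    have : 1 ≤ zlen p := by
      refine le_trans ?_ (Finset.single_le_sum (f := fun m => intLen.len (p.coeff m))
        (fun _ _ => Nat.zero_le _) hm)
      have := mem_support_iff.1 hm
      exact Int.natAbs_pos.2 this
    exact_mod_cast this
  have ht : 1 < |t| := lt_of_le_of_lt hz hcon
  have h0 : 0 < |t| := lt_trans one_pos ht
  rw [aeval_def, eval₂_eq'] at h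
  simp only [Finset.univ_unique, Fin.default_eq_zero, Finset.prod_singleton] at h
  rw [← Finset.add_sum_erase _ _ hm] at h
  have h1 : |((p.coeff m : ℤ) : ℝ) * t ^ m 0| ≤ ∑ x ∈ p.support.erase m, |((p.coeff x : ℤ) : ℝ)| * |t| ^ x 0 := by
    have : ((p.coeff m : ℤ) : ℝ) * t ^ m 0 = -∑ x ∈ p.support.erase m, ((p.coeff x : ℤ) : ℝ) * t ^ x 0 := by
      have h' : ((p.coeff m : ℤ) : ℝ) * t ^ m 0 + ∑ x ∈ p.support.erase m, ((p.coeff x : ℤ) : ℝ) * t ^ x 0 = 0 := h
      linarith
    rw [this, abs_neg]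
    refine (Finset.abs_sum_le_sum_abs _ _).trans (Finset.sum_le_sum (fun x _ => ?_))
    rw [abs_mul, abs_pow]
  have hne : ∀ x ∈ p.support.erase m, x 0 + 1 ≤ m 0 := by
    intro x hx
    obtain ⟨hxm, hx⟩ := Finset.mem_erase.1 hx
    have h2 := hmax x hx
    rcases h2.lt_or_eq with h3 | h3
    · exact h3
    · exfalso
      apply hxm
      ext
      exact h3
  have h2 : (∑ x ∈ p.support.erase m, |((p.coeff x : ℤ) : ℝ)| * |t| ^ x 0) * |t| ≤
      (∑ x ∈ p.support.erase m, |((p.coeff x : ℤ) : ℝ)|) * |t| ^ m 0 := by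
    rw [Finset.sum_mul, Finset.sum_mul]
    refine Finset.sum_le_sum (fun x hx => ?_)
    rw [mul_assoc, ← pow_succ]
    exact mul_le_mul_of_nonneg_left (pow_le_pow_right₀ ht.le (hne x hx)) (abs_nonneg _)
  have h3 : (∑ x ∈ p.support.erase m, |((p.coeff x : ℤ) : ℝ)|) + |((p.coeff m : ℤ) : ℝ)| = zlen p := by
    rw [add_comm, Finset.add_sum_erase _ (fun x => |((p.coeff x : ℤ) : ℝ)|) hm]
    show _ = ((∑ m ∈ p.support, (p.coeff m).natAbs : ℕ) : ℝ)
    rw [Nat.cast_sum]
    refine Finset.sum_congr rfl (fun x _ => ?_)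
    rw [Nat.cast_natAbs, Int.cast_abs]
  have h4 : (1 : ℝ) ≤ |((p.coeff m : ℤ) : ℝ)| := by
    have := mem_support_iff.1 hm
    exact_mod_cast Int.one_le_abs this
  have hpow : 0 < |t| ^ m 0 := pow_pos h0 _
  have h5 : |((p.coeff m : ℤ) : ℝ) * t ^ m 0| = |((p.coeff m : ℤ) : ℝ)| * |t| ^ m 0 := by
    rw [abs_mul, abs_pow]
  rw [h5] at h1
  have h6 : |t| * |((p.coeff m : ℤ) : ℝ)| * |t| ^ m 0 ≤
      (∑ x ∈ p.support.erase m, |((p.coeff x : ℤ) : ℝ)|) * |t| ^ m 0 := by
    calc |t| * |((p.coeff m : ℤ) : ℝ)| * |t| ^ m 0 = (|((p.coeff m : ℤ) : ℝ)| * |t| ^ m 0) * |t| := by ring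
      _ ≤ (∑ x ∈ p.support.erase m, |((p.coeff x : ℤ) : ℝ)| * |t| ^ x 0) * |t| :=
        mul_le_mul_of_nonneg_right h1 h0.le
      _ ≤ _ := h2
  have h7 := le_of_mul_le_mul_right h6 hpow
  have h8 : |t| ≤ |t| * |((p.coeff m : ℤ) : ℝ)| := le_mul_of_one_le_right h0.le h4
  linarith

theorem root_lower (p : MvPolynomial (Fin 1) ℤ) (hp : p ≠ 0) (t : ℝ)
    (h : aeval (fun _ => t) p = 0) (ht0 : t ≠ 0) : 1 ≤ zlen p * |t| := by
  classical
  by_contra hcon
  push Not at hcon
  obtain ⟨m, hm, hmin⟩ := Finset.exists_min_image p.support (fun m => m 0)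
    (support_nonempty.2 hp)
  have hz : (1 : ℝ) ≤ zlen p := by
    have : 1 ≤ zlen p := by
      refine le_trans ?_ (Finset.single_le_sum (f := fun m => intLen.len (p.coeff m))
        (fun _ _ => Nat.zero_le _) hm)
      have := mem_support_iff.1 hm
      exact Int.natAbs_pos.2 this
    exact_mod_cast this
  have h0 : 0 < |t| := abs_pos.2 ht0
  have ht : |t| < 1 := by
    calc |t| = 1 * |t| := (one_mul _).symm
      _ ≤ zlen p * |t| := mul_le_mul_of_nonneg_right hz h0.le
      _ < 1 := hcon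
  rw [aeval_def, eval₂_eq'] at h
  simp only [Finset.univ_unique, Fin.default_eq_zero, Finset.prod_singleton] at h
  rw [← Finset.add_sum_erase _ _ hm] at h
  have h1 : |((p.coeff m : ℤ) : ℝ) * t ^ m 0| ≤ ∑ x ∈ p.support.erase m, |((p.coeff x : ℤ) : ℝ)| * |t| ^ x 0 := by
    have : ((p.coeff m : ℤ) : ℝ) * t ^ m 0 = -∑ x ∈ p.support.erase m, ((p.coeff x : ℤ) : ℝ) * t ^ x 0 := by
      have h' : ((p.coeff m : ℤ) : ℝ) * t ^ m 0 + ∑ x ∈ p.support.erase m, ((p.coeff x : ℤ) : ℝ) * t ^ x 0 = 0 := h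
      linarith
    rw [this, abs_neg]
    refine (Finset.abs_sum_le_sum_abs _ _).trans (Finset.sum_le_sum (fun x _ => ?_))
    rw [abs_mul, abs_pow]
  have hne : ∀ x ∈ p.support.erase m, m 0 + 1 ≤ x 0 := by
    intro x hx
    obtain ⟨hxm, hx⟩ := Finset.mem_erase.1 hx
    have h2 := hmin x hx
    rcases h2.lt_or_eq with h3 | h3
    · exact h3
    · exfalso
      apply hxm
      ext
      exact h3.symm
  have h2 : (∑ x ∈ p.support.erase m, |((p.coeff x : ℤ) : ℝ)| * |t| ^ x 0) ≤
      (∑ x ∈ p.support.erase m, |((p.coeff x : ℤ) : ℝ)|) * (|t| ^ m 0 * |t|) := by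
    rw [Finset.sum_mul]
    refine Finset.sum_le_sum (fun x hx => ?_)
    rw [← pow_succ]
    exact mul_le_mul_of_nonneg_left (pow_le_pow_of_le_one h0.le ht.le (hne x hx)) (abs_nonneg _)
  have h3 : (∑ x ∈ p.support.erase m, |((p.coeff x : ℤ) : ℝ)|) + |((p.coeff m : ℤ) : ℝ)| = zlen p := by
    rw [add_comm, Finset.add_sum_erase _ (fun x => |((p.coeff x : ℤ) : ℝ)|) hm]
    show _ = ((∑ m ∈ p.support, (p.coeff m).natAbs : ℕ) : ℝ)
    rw [Nat.cast_sum]
    refine Finset.sum_congr rfl (fun x _ => ?_)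
    rw [Nat.cast_natAbs, Int.cast_abs]
  have h4 : (1 : ℝ) ≤ |((p.coeff m : ℤ) : ℝ)| := by
    have := mem_support_iff.1 hm
    exact_mod_cast Int.one_le_abs this
  have hpow : 0 < |t| ^ m 0 := pow_pos h0 _
  have h5 : |((p.coeff m : ℤ) : ℝ) * t ^ m 0| = |((p.coeff m : ℤ) : ℝ)| * |t| ^ m 0 := by
    rw [abs_mul, abs_pow]
  rw [h5] at h1
  have h6 : |((p.coeff m : ℤ) : ℝ)| * |t| ^ m 0 ≤
      ((∑ x ∈ p.support.erase m, |((p.coeff x : ℤ) : ℝ)|) * |t|) * |t| ^ m 0 := by
    calc |((p.coeff m : ℤ) : ℝ)| * |t| ^ m 0 ≤ _ := h1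
      _ ≤ _ := h2
      _ = _ := by ring
  have h7 := le_of_mul_le_mul_right h6 hpow
  have h8 : (∑ x ∈ p.support.erase m, |((p.coeff x : ℤ) : ℝ)|) * |t| ≤ zlen p * |t| := by
    refine mul_le_mul_of_nonneg_right ?_ h0.le
    have := abs_nonneg ((p.coeff m : ℤ) : ℝ)
    linarith
  linarith

end Pool.Agent.Helper53_Closed
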